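import Pool.Agent.MBS.Defs

/-!
# Density matrices of vector states on blocks of tensor factors, definitions
-/

namespace MBS

open scoped InnerProductSpace ENNReal ComplexOrder
open MeasureTheory TopologicalSpace

noncomputable section

/-- index type of the matrix units of `m` tensor factors -/
abbrev Wd (m : ℕ) : Type := Fin m → Bool

/-- the element with matrix `c` of the block of the factors `n, ..., n + m - 1` -/
def MU.mat {A : Type} [CStarAlgebra A] (M : MU A) (n m : ℕ) (c : Matrix (Wd m) (Wd m) ℂ) : A :=
  ∑ s, ∑ t, c s t • M.E n m s t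

/-- The density matrix of the vector state `⟪v, π(.) v⟫` on the block of the factors
`n, ..., n + m - 1`: the trace of `densV * c` is the value of the state at `M.mat n m c`. -/
def densV {A : Type} [CStarAlgebra A] (M : MU A) {H : Type*} [NormedAddCommGroup H]
    [InnerProductSpace ℂ H] [CompleteSpace H] (π : A →⋆ₐ[ℂ] (H →L[ℂ] H)) (v : H) (n m : ℕ) :
    Matrix (Wd m) (Wd m) ℂ :=
  fun t s => ⟪v, π (M.E n m s t) v⟫_ℂ

/-- a positive semidefinite square root -/
def msqrt {ι : Type} [Fintype ι] (D : Matrix ι ι ℂ) : Matrix ι ι ℂ := by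
  classical exact
    if h : ∃ S : Matrix ι ι ℂ, S.PosSemidef ∧ S * S = D then h.choose else 0

/-- the square of the Hilbert-Schmidt norm -/
def hs {ι : Type} [Fintype ι] (M : Matrix ι ι ℂ) : ℝ := ∑ i, ∑ j, ‖M i j‖ ^ 2

/-- the first basis vector of the standard Hilbert space -/
def vac (n : Dim) : HSp n := δ (idx0 n)

/-- The square root of the density matrix of the vector state of the first basis vector,
as a function on `Irr A`. -/
def Phi {A : Type} [CStarAlgebra A] (M : MU A) (n m : ℕ) (σ : Irr A) :
    Matrix (Wd m) (Wd m) ℂ :=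
  msqrt (densV M σ.2.1 (vac σ.1) n m)

theorem norm_δ {G : Type} (g : G) : ‖(δ g : L2 G)‖ = 1 := by
  classical
  simp [δ]

theorem norm_vac (n : Dim) : ‖vac n‖ = 1 := norm_δ _

end

end MBS
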