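import Pool.Agent.MBS.RedA
import Pool.Agent.MBS.StateDef

/-!
# RedE : coefficients of the representations `ev x`, the conditional expectation

`continuous_coeff`: for basis vectors and `b = fn f * u h` explicit: `⟪δ k, ev x b (δ g)⟫` is
`f (h * g • x)` if `k = h * g`, otherwise `0`. The set of all `b` for which
all coefficients between basis vectors are continuous is a closed subspace (uniform limits, `norm_ev_le`), so
it is everything by `span_dense`. Then for general vectors: the span of the `δ g` is dense in `L2 G`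
(`lp.hasSum_single` or so) and again uniform limits.

`ev_right`: right translation `δ k ↦ δ (k * g)` intertwines `ev (g • x)` and `ev x`; check on `fn f`
and `u h`, both sides are multiplicative and continuous in `b` (or use `span_dense`).

`cexp_faithful`: `cexp (star b * b) x = ‖ev x b (δ 1)‖ ^ 2`, so if it vanishes for all `x` then by
`ev_right` `ev x b (δ g) = 0` for all `g, x`, `ev x b = 0` by density, and `b = 0` by `red_ext`.
-/

namespace MBS

open scoped InnerProductSpace ENNReal BoundedContinuousFunction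
open MeasureTheory TopologicalSpace

noncomputable section

variable {G X : Type} [Group G] [TopologicalSpace X] [CompactSpace X] [MulAction G X]
  [ContinuousConstSMul G X]

/-- the span of the basis vectors is dense -/
theorem span_δ_dense (G : Type) : Dense (Submodule.span ℂ (Set.range (δ : G → L2 G)) : Set (L2 G)) := by
  classical
  intro f
  have h := lp.hasSum_single (E := fun _ : G => ℂ) (p := 2) (by norm_num) f
  refine mem_closure_of_tendsto h (Filter.Eventually.of_forall fun s => ?_)
  refine Submodule.sum_mem _ fun i _ => ?_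
  have : (lp.single 2 i (f i) : L2 G) = (f i : ℂ) • δ i := by
    ext k
    simp only [δ, lp.single_apply, Pi.single_apply, lp.coeFn_smul, Pi.smul_apply, smul_eq_mul]
    by_cases hk : k = i
    · subst hk; simp
    · simp [hk]
  rw [this]
  exact Submodule.smul_mem _ _ (Submodule.subset_span ⟨i, rfl⟩)

/-- two bounded operators which agree on the basis vectors are equal -/
theorem clm_ext_δ {G : Type} {K : Type*} [NormedAddCommGroup K] [NormedSpace ℂ K]
    {S T : L2 G →L[ℂ] K} (h : ∀ g, S (δ g) = T (δ g)) : S = T := by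
  refine ContinuousLinearMap.ext_on (span_δ_dense G) ?_
  rintro _ ⟨g, rfl⟩
  exact h g

omit [CompactSpace X] in
theorem cont_approx {f : X → ℂ} (h : ∀ ε > 0, ∃ F : X → ℂ, Continuous F ∧
    ∀ y, ‖f y - F y‖ < ε) : Continuous f := by
  apply continuous_of_uniform_approx_of_continuous
  intro u hu
  obtain ⟨ε, hε, hεu⟩ := Metric.mem_uniformity_dist.1 hu
  obtain ⟨F, hF, hfF⟩ := h ε hε
  refine ⟨F, hF, fun y => hεu ?_⟩
  rw [dist_eq_norm]
  exact hfF y

theorem continuous_coeff1 (k g : G) (b : Red G X) :
    Continuous (fun x : X => ⟪(δ k : L2 G), ev G X x b (δ g)⟫_ℂ) := by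
  apply cont_approx
  intro ε hε
  obtain ⟨b', hb', hbb'⟩ := Metric.dense_iff.1 (span_dense (G := G) (X := X)) b ε hε
  refine ⟨fun x => ⟪(δ k : L2 G), ev G X x b' (δ g)⟫_ℂ, ?_, ?_⟩
  · change b' ∈ Submodule.span ℂ _ at hbb'
    clear hb'
    induction hbb' using Submodule.span_induction with
    | mem c hc =>
      obtain ⟨f, h, rfl⟩ := hc
      have : ∀ x : X, ⟪(δ k : L2 G), ev G X x (fn G X f * u G X h) (δ g)⟫_ℂ
          = f ((h * g) • x) * ⟪(δ k : L2 G), δ (h * g)⟫_ℂ := by
        intro x
        rw [map_mul]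
        change ⟪(δ k : L2 G), ev G X x (fn G X f) (ev G X x (u G X h) (δ g))⟫_ℂ = _
        rw [ev_u_δ, ev_fn_δ, inner_smul_right]
      simp only [this]
      exact ((map_continuous f).comp (continuous_const_smul _)).mul continuous_const
    | zero =>
      have : ∀ x : X, ⟪(δ k : L2 G), ev G X x 0 (δ g)⟫_ℂ = 0 := by
        intro x
        rw [map_zero]
        simp
      simp only [this]
      exact continuous_const
    | add c d _ _ hc hd =>
      have : ∀ x : X, ⟪(δ k : L2 G), ev G X x (c + d) (δ g)⟫_ℂ =
          ⟪(δ k : L2 G), ev G X x c (δ g)⟫_ℂ + ⟪(δ k : L2 G), ev G X x d (δ g)⟫_ℂ := by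
        intro x
        rw [map_add]
        exact inner_add_right _ _ _
      simp only [this]
      exact hc.add hd
    | smul c d _ hd =>
      have : ∀ x : X, ⟪(δ k : L2 G), ev G X x (c • d) (δ g)⟫_ℂ =
          c * ⟪(δ k : L2 G), ev G X x d (δ g)⟫_ℂ := by
        intro x
        rw [map_smul]
        exact inner_smul_right _ _ _
      simp only [this]
      exact continuous_const.mul hd
  · intro x
    rw [← inner_sub_right]
    have h1 : ev G X x b (δ g) - ev G X x b' (δ g) = ev G X x (b - b') (δ g) := by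
      rw [map_sub]; rfl
    rw [h1]
    refine (norm_inner_le_norm _ _).trans_lt ?_
    rw [norm_δ, one_mul]
    refine ((ev G X x (b - b')).le_opNorm _).trans_lt ?_
    rw [norm_δ, mul_one]
    refine (norm_ev_le _ _).trans_lt ?_
    rw [Metric.mem_ball, dist_comm, dist_eq_norm] at hb'
    exact hb'

theorem continuous_coeff (b : Red G X) (ξ η : L2 G) :
    Continuous (fun x : X => ⟪ξ, ev G X x b η⟫_ℂ) := by
  -- first general `η`
  have h1 : ∀ k : G, ∀ η : L2 G, Continuous (fun x : X => ⟪(δ k : L2 G), ev G X x b η⟫_ℂ) := by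
    intro k η
    apply cont_approx
    intro ε hε
    have hε' : 0 < ε / (‖b‖ + 1) := by positivity
    obtain ⟨η', hη', hηη'⟩ := Metric.dense_iff.1 (span_δ_dense G) η _ hε'
    refine ⟨fun x => ⟪(δ k : L2 G), ev G X x b η'⟫_ℂ, ?_, ?_⟩
    · change η' ∈ Submodule.span ℂ _ at hηη'
      clear hη'
      induction hηη' using Submodule.span_induction with
      | mem c hc =>
        obtain ⟨g, rfl⟩ := hc
        exact continuous_coeff1 k g b
      | zero => simp only [map_zero, inner_zero_right]; exact continuous_const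
      | add c d _ _ hc hd =>
        simp only [map_add, inner_add_right]
        exact hc.add hd
      | smul c d _ hd =>
        simp only [map_smul, inner_smul_right]
        exact continuous_const.mul hd
    · intro x
      rw [← inner_sub_right, ← map_sub]
      refine (norm_inner_le_norm _ _).trans_lt ?_
      rw [norm_δ, one_mul]
      refine ((ev G X x b).le_opNorm _).trans_lt ?_
      rw [Metric.mem_ball, dist_comm, dist_eq_norm] at hη'
      have h2 : ‖ev G X x b‖ * ‖η - η'‖ ≤ (‖b‖ + 1) * ‖η - η'‖ :=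
        mul_le_mul_of_nonneg_right ((norm_ev_le x b).trans (by linarith)) (norm_nonneg _)
      refine h2.trans_lt ?_
      rw [lt_div_iff₀ (by positivity)] at hη'
      linarith
  apply cont_approx
  intro ε hε
  have hε' : 0 < ε / (‖b‖ * ‖η‖ + 1) := by positivity
  obtain ⟨ξ', hξ', hξξ'⟩ := Metric.dense_iff.1 (span_δ_dense G) ξ _ hε'
  refine ⟨fun x => ⟪ξ', ev G X x b η⟫_ℂ, ?_, ?_⟩
  · change ξ' ∈ Submodule.span ℂ _ at hξξ'
    clear hξ'
    induction hξξ' using Submodule.span_induction with
    | mem c hc =>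
      obtain ⟨g, rfl⟩ := hc
      exact h1 g η
    | zero => simp only [inner_zero_left]; exact continuous_const
    | add c d _ _ hc hd =>
      simp only [inner_add_left]
      exact hc.add hd
    | smul c d _ hd =>
      simp only [inner_smul_left]
      exact continuous_const.mul hd
  · intro x
    rw [← inner_sub_left]
    refine (norm_inner_le_norm _ _).trans_lt ?_
    rw [Metric.mem_ball, dist_comm, dist_eq_norm] at hξ'
    have h3 : ‖ev G X x b η‖ ≤ ‖b‖ * ‖η‖ :=
      ((ev G X x b).le_opNorm _).trans
        (mul_le_mul_of_nonneg_right (norm_ev_le x b) (norm_nonneg _))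
    have h2 : ‖ξ - ξ'‖ * ‖ev G X x b η‖ ≤ ‖ξ - ξ'‖ * (‖b‖ * ‖η‖ + 1) :=
      mul_le_mul_of_nonneg_left (h3.trans (by linarith)) (norm_nonneg _)
    refine h2.trans_lt ?_
    rwa [lt_div_iff₀ (by positivity)] at hξ'

theorem continuous_cexp (b : Red G X) : Continuous (cexp G X b) := continuous_coeff b _ _

omit [ContinuousConstSMul G X] in
theorem cexp_add (a b : Red G X) (x : X) : cexp G X (a + b) x = cexp G X a x + cexp G X b x := by
  unfold cexp
  rw [map_add]
  exact inner_add_right _ _ _

omit [ContinuousConstSMul G X] in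
theorem cexp_sub (a b : Red G X) (x : X) : cexp G X (a - b) x = cexp G X a x - cexp G X b x := by
  unfold cexp
  rw [map_sub]
  exact inner_sub_right _ _ _

theorem norm_cexp_le (b : Red G X) (x : X) : ‖cexp G X b x‖ ≤ ‖b‖ := by
  unfold cexp
  refine (norm_inner_le_norm _ _).trans ?_
  rw [norm_δ, one_mul]
  refine ((ev G X x b).le_opNorm _).trans ?_
  rw [norm_δ, mul_one]
  exact norm_ev_le _ _

theorem inner_δ {G : Type} (g : G) (ξ : L2 G) : ⟪(δ g : L2 G), ξ⟫_ℂ = ξ g := by
  classical
  rw [inner_L2, tsum_eq_single g]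
  · simp [δ]
  · intro k hk
    simp [δ, hk]

theorem cexp_fn (f : C(X, ℂ)) (x : X) : cexp G X (fn G X f) x = f x := by
  unfold cexp
  rw [ev_fn_δ, inner_smul_right, one_smul, inner_self_eq_norm_sq_to_K, norm_δ]
  simp

omit [ContinuousConstSMul G X] in
theorem cexp_fn_mul_u (f : C(X, ℂ)) (h : G) (hh : h ≠ 1) (x : X) :
    cexp G X (fn G X f * u G X h) x = 0 := by
  classical
  unfold cexp
  rw [map_mul]
  change ⟪(δ 1 : L2 G), ev G X x (fn G X f) (ev G X x (u G X h) (δ 1))⟫_ℂ = _
  rw [ev_u_δ, ev_fn_δ, inner_smul_right, inner_δ, mul_one]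
  simp [δ, hh.symm]

omit [ContinuousConstSMul G X] in
theorem cexp_star_mul (b : Red G X) (x : X) :
    cexp G X (star b * b) x = ((‖ev G X x b (δ 1)‖ ^ 2 : ℝ) : ℂ) := by
  unfold cexp
  rw [map_mul, map_star, ContinuousLinearMap.star_eq_adjoint]
  change ⟪(δ 1 : L2 G), ContinuousLinearMap.adjoint (ev G X x b) (ev G X x b (δ 1))⟫_ℂ = _
  rw [ContinuousLinearMap.adjoint_inner_right, inner_self_eq_norm_sq_to_K]
  simp

theorem ev_right (x : X) (g : G) (b : Red G X) (ξ : L2 G) :
    ev G X x b (perm (Equiv.mulRight g) ξ) =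
      perm (Equiv.mulRight g) (ev G X (g • x) b ξ) := by
  have hc : ∀ y : X, ∀ η : L2 G, Continuous (fun b : Red G X => ev G X y b η) := by
    intro y η
    have h1 : Continuous (fun b : Red G X => ev G X y b) := by
      refine AddMonoidHomClass.continuous_of_bound (ev G X y) 1 fun b => ?_
      rw [one_mul]
      exact norm_ev_le _ _
    exact h1.clm_apply continuous_const
  have hclosed : IsClosed {b : Red G X | ev G X x b (perm (Equiv.mulRight g) ξ) =
      perm (Equiv.mulRight g) (ev G X (g • x) b ξ)} :=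
    isClosed_eq (hc _ _) ((perm (Equiv.mulRight g)).continuous.comp (hc _ _))
  have hd := span_dense (G := G) (X := X)
  refine hclosed.closure_subset_iff.2 ?_ (hd b)
  intro c hc'
  change c ∈ Submodule.span ℂ _ at hc'
  change ev G X x c (perm (Equiv.mulRight g) ξ) = perm (Equiv.mulRight g) (ev G X (g • x) c ξ)
  induction hc' using Submodule.span_induction with
  | mem c hc =>
    obtain ⟨f, h, rfl⟩ := hc
    ext k
    rw [map_mul, map_mul]
    change f (k • x) * ξ ((h⁻¹ * k) * g⁻¹) = f ((k * g⁻¹) • (g • x)) * ξ (h⁻¹ * (k * g⁻¹))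
    rw [smul_smul, mul_assoc, mul_assoc, inv_mul_cancel, mul_one]
  | zero => rw [map_zero, map_zero]; simp
  | add c d _ _ hc hd =>
    rw [map_add, map_add]
    change ev G X x c _ + ev G X x d _ = perm (Equiv.mulRight g) (_ + _)
    rw [hc, hd]
    exact (map_add (perm (Equiv.mulRight g)) _ _).symm
  | smul a d _ hd =>
    rw [map_smul, map_smul]
    change a • ev G X x d _ = perm (Equiv.mulRight g) (a • _)
    rw [hd]
    exact (map_smul (perm (Equiv.mulRight g)) _ _).symm

theorem cexp_faithful (b : Red G X) (h : ∀ x, cexp G X (star b * b) x = 0) : b = 0 := by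
  have h1 : ∀ x : X, ev G X x b (δ 1) = 0 := by
    intro x
    have h2 := h x
    rw [cexp_star_mul] at h2
    have h3 : ‖ev G X x b (δ 1)‖ ^ 2 = 0 := by exact_mod_cast h2
    exact norm_eq_zero.1 (pow_eq_zero_iff (two_ne_zero)|>.1 h3)
  apply red_ext
  intro x
  rw [map_zero]
  apply clm_ext_δ
  intro g
  have h2 : (δ g : L2 G) = perm (Equiv.mulRight g) (δ 1) := by
    rw [perm_δ]; simp
  rw [h2, ev_right, h1]
  simp

end

end MBS
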