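import Pool.Agent.MBS.RedDef

/-!
# The cube {0,1}^I, the lamplighter type groups acting on it, the fair coin measure
-/

namespace MBS

open scoped ENNReal
open MeasureTheory TopologicalSpace

noncomputable section

/-- the cube {0,1}^I -/
abbrev Cube (I : Type) : Type := I → Bool

/-- The group of all homeomorphisms of the cube which permute the coordinates by an
element of `H`, and then flip finitely many coordinates, i.e. `Z/2 ≀_I H`. -/
def Lamp (I H : Type) [Group H] [MulAction H I] : Subgroup (Cube I ≃ₜ Cube I) where
  carrier := {φ | ∃ (S : I → Bool) (h : H), {i | S i = true}.Finite ∧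
    ∀ x i, φ x i = xor (S i) (x (h⁻¹ • i))}
  one_mem' := ⟨fun _ => false, 1, by simp, fun x i => by simp⟩
  mul_mem' := by
    rintro φ ψ ⟨S, h, hS, hφ⟩ ⟨T, k, hT, hψ⟩
    refine ⟨fun i => xor (S i) (T (h⁻¹ • i)), h * k, ?_, fun x i => ?_⟩
    · refine (hS.union (hT.image (fun i => h • i))).subset ?_
      intro i hi
      simp only [Set.mem_ofPred_eq] at hi
      by_cases hs : S i = true
      · exact Or.inl hs
      · right
        refine ⟨h⁻¹ • i, ?_, by simp⟩
        simpa [hs] using hi
    · rw [Homeomorph.mul_apply, hφ, hψ, mul_inv_rev, mul_smul, Bool.xor_assoc]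
  inv_mem' := by
    rintro φ ⟨S, h, hS, hφ⟩
    refine ⟨fun i => S (h • i), h⁻¹, ?_, fun y i => ?_⟩
    · exact hS.preimage (fun i _ j _ hij => MulAction.injective h hij)
    · have h1 : φ (φ⁻¹ y) (h • i) = y (h • i) := by
        rw [← Homeomorph.mul_apply, mul_inv_cancel]; rfl
      rw [hφ] at h1
      rw [inv_smul_smul] at h1
      rw [inv_inv, ← h1]
      simp

/-- the lamp group as a type -/
def LampG (I H : Type) [Group H] [MulAction H I] : Type := Lamp I H

instance (I H : Type) [Group H] [MulAction H I] : Group (LampG I H) :=
  inferInstanceAs (Group (Lamp I H))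

/-- the homeomorphism of an element of the lamp group -/
def LampG.homeo {I H : Type} [Group H] [MulAction H I] (g : LampG I H) : Cube I ≃ₜ Cube I :=
  g.1

instance (I H : Type) [Group H] [MulAction H I] : MulAction (LampG I H) (Cube I) where
  smul g x := g.homeo x
  one_smul _ := rfl
  mul_smul _ _ _ := rfl

theorem LampG.smul_def {I H : Type} [Group H] [MulAction H I] (g : LampG I H) (x : Cube I) :
    g • x = g.homeo x := rfl

instance (I H : Type) [Group H] [MulAction H I] : ContinuousConstSMul (LampG I H) (Cube I) where
  continuous_const_smul g := g.homeo.continuous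

theorem LampG.exists_eq {I H : Type} [Group H] [MulAction H I] (g : LampG I H) :
    ∃ (S : I → Bool) (h : H), {i | S i = true}.Finite ∧
      ∀ (x : Cube I) i, (g • x) i = xor (S i) (x (h⁻¹ • i)) := g.2

/-- the trivial group, acting trivially on everything -/
def Triv : Type := Unit

instance : Group Triv where
  mul _ _ := ()
  one := ()
  inv _ := ()
  mul_assoc _ _ _ := rfl
  one_mul _ := rfl
  mul_one _ := rfl
  inv_mul_cancel _ := rfl

instance : Countable Triv := inferInstanceAs (Countable Unit)

instance (I : Type) : MulAction Triv I where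
  smul _ i := i
  one_smul _ := rfl
  mul_smul _ _ _ := rfl

theorem LampG.ext {I H : Type} [Group H] [MulAction H I] {g g' : LampG I H}
    (h : ∀ x : Cube I, g • x = g' • x) : g = g' :=
  Subtype.ext (Homeomorph.ext h)

/-- The element which permutes by h, then flips the coordinates in `S`. -/
def lamp {I H : Type} [Group H] [MulAction H I] (S : I → Bool) (hS : {i | S i = true}.Finite)
    (h : H) : LampG I H :=
  ⟨{ toFun := fun x i => xor (S i) (x (h⁻¹ • i))
     invFun := fun y i => xor (S (h • i)) (y (h • i))
     left_inv := fun x => by
      funext i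
      simp
     right_inv := fun x => by
      funext i
      simp
     continuous_toFun := by
      refine continuous_pi fun i => ?_
      exact (continuous_of_discreteTopology (f := fun b : Bool => xor (S i) b)).comp
        (continuous_apply _)
     continuous_invFun := by
      refine continuous_pi fun i => ?_
      exact (continuous_of_discreteTopology (f := fun b : Bool => xor (S (h • i)) b)).comp
        (continuous_apply _) }, S, h, hS, fun _ _ => rfl⟩

@[simp] theorem lamp_smul_apply {I H : Type} [Group H] [MulAction H I] (S : I → Bool)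
    (hS : {i | S i = true}.Finite) (h : H) (x : Cube I) (i : I) :
    (lamp S hS h • x) i = xor (S i) (x (h⁻¹ • i)) := rfl

/-- the shift by `h` -/
def shift (I : Type) {H : Type} [Group H] [MulAction H I] (h : H) : LampG I H :=
  lamp (fun _ => false) (by simp) h

@[simp] theorem shift_smul_apply {I H : Type} [Group H] [MulAction H I] (h : H) (x : Cube I)
    (i : I) : (shift I h • x) i = x (h⁻¹ • i) := by
  simp [shift]

open Classical in
/-- the flip of the coordinate `k` -/
def flip {I : Type} (H : Type) [Group H] [MulAction H I] (k : I) : LampG I H :=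
  lamp (fun i => decide (i = k)) (by simp) 1

theorem flip_smul_same {I H : Type} [Group H] [MulAction H I] (k : I) (x : Cube I) :
    (flip H k • x) k = !(x k) := by
  simp [flip]

theorem flip_smul_ne {I H : Type} [Group H] [MulAction H I] (k i : I) (hik : i ≠ k)
    (x : Cube I) : (flip H k • x) i = x i := by
  simp [flip, hik]

instance (I H : Type) [Group H] [MulAction H I] [Countable I] [Countable H] :
    Countable (LampG I H) := by
  classical
  have : Function.Surjective (fun p : Finset I × H => lamp (fun i => decide (i ∈ p.1))
      (by simp) p.2 : Finset I × H → LampG I H) := by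
    intro g
    obtain ⟨S, h, hS, hg⟩ := g.exists_eq
    refine ⟨(hS.toFinset, h), ?_⟩
    apply LampG.ext
    intro x
    funext i
    rw [hg]
    simp
  exact this.countable

/-- the fair coin -/
def coin : Measure Bool := (2⁻¹ : ℝ≥0∞) • (Measure.dirac false + Measure.dirac true)

instance : IsProbabilityMeasure coin := ⟨by
  simp only [coin, Measure.smul_apply, Measure.add_apply, measure_univ, smul_eq_mul]
  rw [show (1 : ℝ≥0∞) + 1 = 2 by norm_num]
  exact ENNReal.inv_mul_cancel (by norm_num) (by norm_num)⟩

/-- the product of fair coins on the cube -/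
def μc (I : Type) : Measure (Cube I) := Measure.infinitePi (fun _ : I => coin)

instance (I : Type) : IsProbabilityMeasure (μc I) :=
  inferInstanceAs (IsProbabilityMeasure (Measure.infinitePi (fun _ : I => coin)))

/-- the Walsh function of the finite set `S` -/
def walsh {I : Type} (S : Finset I) (x : Cube I) : ℝ := ∏ i ∈ S, (if x i then (-1 : ℝ) else 1)

/-- The gap inequality for two maps of a probability space. -/
def GapIneq {X : Type} [MeasurableSpace X] (μ : Measure X) (S T : X → X) : Prop :=
  ∀ f : X → ℝ, Measurable f → (∃ C, ∀ x, |f x| ≤ C) →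
    ∫ x, (f x - ∫ y, f y ∂μ) ^ 2 ∂μ ≤
      8 * (∫ x, (f (S x) - f x) ^ 2 ∂μ + ∫ x, (f (T x) - f x) ^ 2 ∂μ)

end

end MBS
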