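import Pool.Agent.MBS.RedA
import Pool.Agent.MBS.CubeDef

/-!
# CARstr : the crossed product of {0,1}^N by the finite flips is the CAR algebra

Let `p k i : C(Cube ℕ, ℂ)` be the indicator function of `{x | x k = i}` and
`e k i j = fn (p k i) * u (if i = j then 1 else flip k)`. By covariance (`u_mul_fn`) and
`transl (flip k) (p k i) = p k (!i)`, `transl (flip k) (p l i) = p l i` for `l ≠ k`:
`e k i j * e k l m = fn (p k i * p k (l xor i xor j)) * u (...)`, which is `e k i m` for `j = l` and
`0` otherwise; `star (e k i j) = e k j i`; `∑ e k i i = 1`; the factors with different `k` commute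
(flips commute, `LampG.ext`).

Density: the norm closure `S` of the algebra `adjoin` is a closed subalgebra (closed under star). It
contains `fn (p k i) = e k i i` and `u (flip k) = e k false true + e k true false`. By Stone-Weierstrass
(`ContinuousMap.starSubalgebra_topologicalClosure_eq_top_of_separatesPoints`, the `p k i` are real valued
and separate the points) and `norm_fn_le`, all `fn f ∈ S`. Every element of the group
`LampG ℕ Triv` is a finite product of flips, so all `u h ∈ S`. With `span_dense`, `S = ⊤`.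
-/

namespace MBS

open scoped InnerProductSpace ENNReal BoundedContinuousFunction
open MeasureTheory TopologicalSpace

noncomputable section

namespace CARaux

section gen

variable {A : Type} [CStarAlgebra A]

/-- the closed algebra generated by matrix units -/
def clG (M : MU A) : Subalgebra ℂ A :=
  (Algebra.adjoin ℂ {a : A | ∃ k i j, a = M.e k i j}).topologicalClosure

theorem isClosed_clG (M : MU A) : IsClosed (clG M : Set A) :=
  Subalgebra.isClosed_topologicalClosure _

theorem mem_clG (M : MU A) (k : ℕ) (i j : Bool) : M.e k i j ∈ clG M :=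
  Subalgebra.le_topologicalClosure _ (Algebra.subset_adjoin ⟨k, i, j, rfl⟩)

theorem gen_of (M : MU A) (T : Submodule ℂ A) (hT : Dense (T : Set A))
    (h : ∀ a ∈ T, a ∈ clG M) : M.Gen := by
  unfold MU.Gen
  intro a
  have h2 : Dense (clG M : Set A) := hT.mono h
  have h3 : a ∈ closure (clG M : Set A) := h2 a
  rw [(isClosed_clG M).closure_eq] at h3
  exact h3

end gen

abbrev GG : Type := LampG ℕ Triv

abbrev XX : Type := Cube ℕ

/-- the indicator function of `{x | x k = i}` -/
def pp (k : ℕ) (i : Bool) : C(XX, ℂ) where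
  toFun x := if x k = i then 1 else 0
  continuous_toFun := (continuous_of_discreteTopology (f := fun b : Bool =>
    if b = i then (1 : ℂ) else 0)).comp (continuous_apply k)

@[simp] theorem pp_apply (k : ℕ) (i : Bool) (x : XX) : pp k i x = if x k = i then 1 else 0 := rfl

/-- the flip -/
abbrev fl (k : ℕ) : GG := flip Triv k

theorem fl_same (k : ℕ) (x : XX) : (fl k • x) k = !(x k) := flip_smul_same k x

theorem fl_ne (k i : ℕ) (hik : i ≠ k) (x : XX) : (fl k • x) i = x i := flip_smul_ne k i hik x

theorem fl_mul_self (k : ℕ) : fl k * fl k = 1 := by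
  apply LampG.ext
  intro x
  rw [mul_smul, one_smul]
  funext i
  by_cases h : i = k
  · subst h; rw [fl_same, fl_same]; simp
  · rw [fl_ne k i h, fl_ne k i h]

theorem fl_inv (k : ℕ) : (fl k)⁻¹ = fl k := inv_eq_of_mul_eq_one_left (fl_mul_self k)

theorem fl_comm (k l : ℕ) : fl k * fl l = fl l * fl k := by
  apply LampG.ext
  intro x
  rw [mul_smul, mul_smul]
  funext i
  by_cases hkl : k = l
  · subst hkl; rfl
  by_cases h : i = k
  · subst h; rw [fl_same, fl_ne l i hkl, fl_ne l i hkl, fl_same]
  · rw [fl_ne k i h]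
    by_cases h' : i = l
    · subst h'; rw [fl_same, fl_same, fl_ne k i h]
    · rw [fl_ne l i h', fl_ne l i h', fl_ne k i h]

theorem transl_one (f : C(XX, ℂ)) : transl (1 : GG) f = f := by
  ext x; simp

theorem transl_fl_same (k : ℕ) (i : Bool) : transl (fl k) (pp k i) = pp k (!i) := by
  ext x
  rw [transl_apply, fl_inv, pp_apply, pp_apply, fl_same]
  cases i <;> cases x k <;> simp

theorem transl_fl_ne (k l : ℕ) (h : l ≠ k) (i : Bool) : transl (fl k) (pp l i) = pp l i := by
  ext x
  rw [transl_apply, fl_inv, pp_apply, pp_apply, fl_ne k l h]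

/-- the group element of a matrix unit -/
def gg (k : ℕ) (i j : Bool) : GG := if i = j then 1 else fl k

/-- the matrix units -/
def ee (k : ℕ) (i j : Bool) : Red GG XX := fn GG XX (pp k i) * u GG XX (gg k i j)

theorem fu_mul (f f' : C(XX, ℂ)) (h h' : GG) :
    (fn GG XX f * u GG XX h) * (fn GG XX f' * u GG XX h') =
      fn GG XX (f * transl h f') * u GG XX (h * h') := by
  rw [mul_assoc, ← mul_assoc (u GG XX h), u_mul_fn, fn_mul, u_mul]
  simp only [mul_assoc]

theorem fn_zero : fn GG XX 0 = 0 := by
  have := fn_smul (G := GG) (X := XX) 0 0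
  simpa using this

theorem pp_mul (k : ℕ) (i l : Bool) : pp k i * pp k l = if i = l then pp k i else 0 := by
  ext x
  by_cases h : i = l
  · subst h; simp
  · rw [if_neg h]
    simp only [ContinuousMap.mul_apply, pp_apply, ContinuousMap.zero_apply]
    by_cases hx : x k = i
    · rw [hx, if_neg h]; simp
    · simp [hx]

theorem ee_mul_same (k : ℕ) (i j l m : Bool) :
    ee k i j * ee k l m = if j = l then ee k i m else 0 := by
  unfold ee
  rw [fu_mul]
  cases i <;> cases j <;> cases l <;> cases m <;>
    simp [gg, transl_one, transl_fl_same, pp_mul, fl_mul_self, fn_zero]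

theorem star_pp (k : ℕ) (i : Bool) : star (pp k i) = pp k i := by
  ext x
  rw [ContinuousMap.star_apply, pp_apply]
  split_ifs <;> simp

theorem star_ee (k : ℕ) (i j : Bool) : star (ee k i j) = ee k j i := by
  unfold ee
  rw [star_mul, star_fn, star_u, star_pp, u_mul_fn]
  cases i <;> cases j <;> simp [gg, transl_one, transl_fl_same, fl_inv]

theorem pp_add (k : ℕ) : pp k false + pp k true = 1 := by
  ext x
  simp only [ContinuousMap.add_apply, pp_apply, ContinuousMap.one_apply]
  cases x k <;> simp

theorem ee_sum (k : ℕ) : ee k false false + ee k true true = 1 := by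
  unfold ee
  simp only [gg, if_true, u_one, mul_one]
  rw [← fn_add, pp_add, fn_one]

theorem transl_gg_ne (k l : ℕ) (h : l ≠ k) (i j m : Bool) :
    transl (gg k i j) (pp l m) = pp l m := by
  unfold gg
  split_ifs
  · exact transl_one _
  · exact transl_fl_ne k l h m

theorem gg_comm (k l : ℕ) (i j m n : Bool) : gg k i j * gg l m n = gg l m n * gg k i j := by
  unfold gg
  split_ifs <;> simp [fl_comm k l]

theorem ee_comm (k l : ℕ) (h : k ≠ l) (i j m n : Bool) :
    ee k i j * ee l m n = ee l m n * ee k i j := by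
  unfold ee
  rw [fu_mul, fu_mul, transl_gg_ne k l (Ne.symm h), transl_gg_ne l k h, mul_comm (pp k i),
    gg_comm]

/-- the matrix units of the crossed product -/
def M : MU (Red GG XX) where
  e := ee
  mul_same := ee_mul_same
  star_e := star_ee
  sum_one := ee_sum
  comm k l h i j m n := ee_comm k l h i j m n

/-- the closed algebra generated by the matrix units -/
def SS : Subalgebra ℂ (Red GG XX) := clG M

theorem isClosed_SS : IsClosed (SS : Set (Red GG XX)) := isClosed_clG M

theorem ee_mem (k : ℕ) (i j : Bool) : ee k i j ∈ SS := mem_clG M k i j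

theorem fn_pp_mem (k : ℕ) (i : Bool) : fn GG XX (pp k i) ∈ SS := by
  have h := ee_mem k i i
  unfold ee at h
  simpa [gg, u_one] using h

theorem u_fl_mem (k : ℕ) : u GG XX (fl k) ∈ SS := by
  have h := SS.add_mem (ee_mem k false true) (ee_mem k true false)
  have h2 : ee k false true + ee k true false = u GG XX (fl k) := by
    unfold ee
    simp only [gg]
    rw [if_neg (by simp), if_neg (by simp), ← add_mul, ← fn_add, pp_add, fn_one, one_mul]
  rwa [h2] at h

theorem u_mem (h : GG) : u GG XX h ∈ SS := by
  classical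
  have key : ∀ T : Finset ℕ, ∃ g : GG, (∀ (x : XX) i, (g • x) i = xor (decide (i ∈ T)) (x i)) ∧
      u GG XX g ∈ SS := by
    intro T
    induction T using Finset.induction_on with
    | empty => exact ⟨1, fun x i => by simp, by rw [u_one]; exact SS.one_mem⟩
    | insert a T ha ih =>
      obtain ⟨g, hg, hgS⟩ := ih
      refine ⟨fl a * g, fun x i => ?_, ?_⟩
      · rw [mul_smul]
        by_cases hia : i = a
        · subst hia
          rw [fl_same, hg]
          simp [ha]
        · rw [fl_ne a i hia, hg]
          simp [hia]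
      · rw [u_mul]
        exact SS.mul_mem (u_fl_mem a) hgS
  obtain ⟨S, t, hS, hh⟩ := h.exists_eq
  obtain ⟨g, hg, hgS⟩ := key hS.toFinset
  have : h = g := by
    apply LampG.ext
    intro x
    funext i
    rw [hh, hg]
    have h1 : (t⁻¹ • i : ℕ) = i := rfl
    rw [h1]
    simp
  rw [this]
  exact hgS

theorem algebraMap_eq (r : ℂ) : fn GG XX (algebraMap ℂ C(XX, ℂ) r) = r • (1 : Red GG XX) := by
  rw [Algebra.algebraMap_eq_smul_one, fn_smul, fn_one]

/-- the functions in the closed algebra -/
def BB : StarSubalgebra ℂ C(XX, ℂ) where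
  carrier := {f | fn GG XX f ∈ SS ∧ fn GG XX (star f) ∈ SS}
  mul_mem' := by
    rintro f g ⟨h1, h2⟩ ⟨h3, h4⟩
    refine ⟨?_, ?_⟩
    · rw [fn_mul]; exact SS.mul_mem h1 h3
    · rw [star_mul, fn_mul]; exact SS.mul_mem h4 h2
  add_mem' := by
    rintro f g ⟨h1, h2⟩ ⟨h3, h4⟩
    refine ⟨?_, ?_⟩
    · rw [fn_add]; exact SS.add_mem h1 h3
    · rw [star_add, fn_add]; exact SS.add_mem h2 h4
  algebraMap_mem' := by
    intro r
    refine ⟨?_, ?_⟩
    · rw [algebraMap_eq]; exact SS.smul_mem SS.one_mem r
    · rw [← algebraMap_star_comm, algebraMap_eq]; exact SS.smul_mem SS.one_mem _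
  star_mem' := by
    rintro f ⟨h1, h2⟩
    refine ⟨h2, ?_⟩
    rw [star_star]; exact h1

theorem continuous_fn : Continuous (fun f : C(XX, ℂ) => fn GG XX f) := by
  refine LipschitzWith.continuous (K := 1) (LipschitzWith.of_dist_le_mul fun f g => ?_)
  rw [dist_eq_norm, dist_eq_norm, ← fn_sub]
  simpa using norm_fn_le (G := GG) (X := XX) (f - g)

theorem BB_top : BB = ⊤ := by
  have hsep : BB.SeparatesPoints := by
    intro x y hxy
    have : ∃ k, x k ≠ y k := by
      by_contra h
      push Not at h
      exact hxy (funext h)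
    obtain ⟨k, hk⟩ := this
    refine ⟨pp k (x k), ⟨pp k (x k), ⟨fn_pp_mem _ _, ?_⟩, rfl⟩, ?_⟩
    · rw [star_pp]; exact fn_pp_mem _ _
    · rw [pp_apply, pp_apply, if_pos rfl, if_neg (Ne.symm hk)]
      exact one_ne_zero
  have h1 := ContinuousMap.starSubalgebra_topologicalClosure_eq_top_of_separatesPoints BB hsep
  have hcl : IsClosed (BB : Set C(XX, ℂ)) := by
    have e : (BB : Set C(XX, ℂ)) = (fun f => fn GG XX f) ⁻¹' (SS : Set (Red GG XX)) ∩
        (fun f => fn GG XX (star f)) ⁻¹' (SS : Set (Red GG XX)) := rfl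
    rw [e]
    exact (isClosed_SS.preimage continuous_fn).inter
      (isClosed_SS.preimage (continuous_fn.comp continuous_star))
  rw [eq_top_iff, ← h1]
  intro f hf
  have : f ∈ closure (BB : Set C(XX, ℂ)) := hf
  rwa [hcl.closure_eq] at this

theorem fn_mem (f : C(XX, ℂ)) : fn GG XX f ∈ SS := by
  have : f ∈ BB := by rw [BB_top]; trivial
  exact this.1

theorem gen : M.Gen := by
  refine gen_of M _ span_dense fun a ha => ?_
  have : Submodule.span ℂ {b : Red GG XX | ∃ (f : C(XX, ℂ)) (h : GG),
      b = fn GG XX f * u GG XX h} ≤ Subalgebra.toSubmodule SS := by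
    rw [Submodule.span_le]
    rintro b ⟨f, h, rfl⟩
    exact SS.mul_mem (fn_mem f) (u_mem h)
  exact this ha

end CARaux

theorem isCAR_red : IsCAR (Red (LampG ℕ Triv) (Cube ℕ)) := ⟨CARaux.M, CARaux.gen⟩

end

end MBS
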