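import Pool.Agent.MBS.CubeDef

/-!
# Cube : elementary properties of the coin measure and of the action

`mp_lamp`: use `Measure.eq_infinitePi` for the image measure: on a box `Set.pi s t` (`s` finite) the
preimage under `x ↦ (i ↦ xor (S i) (x (h⁻¹ • i)))` is again a box, over `h⁻¹ • s`, whose sides have the
same coin measure (the coin is invariant under `not`); `infinitePi_pi`.

`noAtoms`: `{x} ⊆ Set.pi s (fun i => {x i})` for every finite `s`, measure `2 ^ (-card s)`.

`open_pos`: a nonempty open set contains a box `{y | ∀ i ∈ s, y i = x i}` over a finite `s`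
(`isOpen_pi_iff`), of measure `2 ^ (-card s)`.

`minimal`: given `x` and a box around `y` over `s`, flip the finitely many coordinates `i ∈ s` with
`x i ≠ y i`.
-/

namespace MBS

open scoped ENNReal
open MeasureTheory TopologicalSpace

noncomputable section

variable (I H : Type) [Group H] [MulAction H I]

theorem coin_apply (t : Set Bool) :
    coin t = 2⁻¹ * (t.indicator 1 false + t.indicator 1 true) := by
  simp [coin, mul_add]

theorem coin_xor (b : Bool) (t : Set Bool) : coin ((fun c => xor b c) ⁻¹' t) = coin t := by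
  rw [coin_apply, coin_apply]
  cases b
  · rfl
  · rw [add_comm]
    rfl

theorem coin_singleton (b : Bool) : coin {b} = 2⁻¹ := by
  rw [coin_apply]
  cases b <;> simp

theorem mp_lamp [Countable I] (g : LampG I H) :
    MeasurePreserving (fun x : Cube I => g • x) (μc I) (μc I) := by
  classical
  obtain ⟨S, h, hS, hg⟩ := g.exists_eq
  have hm : Measurable (fun x : Cube I => g • x) := by
    refine measurable_pi_lambda _ fun i => ?_
    have h1 : (fun x : Cube I => (g • x) i) =
        (fun b => xor (S i) b) ∘ (fun x : Cube I => x (h⁻¹ • i)) := by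
      funext x
      exact hg x i
    rw [h1]
    exact (measurable_of_countable _).comp (measurable_pi_apply _)
  refine ⟨hm, ?_⟩
  refine Measure.eq_infinitePi _ fun s t ht => ?_
  rw [Measure.map_apply hm (MeasurableSet.pi s.countable_toSet fun i _ => ht i)]
  have hpre : (fun x : Cube I => g • x) ⁻¹' Set.pi s t =
      Set.pi (s.image (fun i => h⁻¹ • i) : Finset I)
        (fun j => (fun c => xor (S (h • j)) c) ⁻¹' t (h • j)) := by
    ext x
    simp only [Set.mem_preimage, Set.mem_pi, Finset.coe_image, Set.mem_image, Finset.mem_coe,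
      forall_exists_index, and_imp, forall_apply_eq_imp_iff₂, smul_inv_smul, hg]
  rw [hpre, μc, Measure.infinitePi_pi]
  · rw [Finset.prod_image (fun i _ j _ hij => MulAction.injective h⁻¹ hij)]
    refine Finset.prod_congr rfl fun i _ => ?_
    rw [coin_xor, smul_inv_smul]
  · intro i _
    exact MeasurableSet.of_discrete

theorem noAtoms [Countable I] [Infinite I] (x : Cube I) : μc I {x} = 0 := by
  have key : ∀ n : ℕ, μc I {x} ≤ (2⁻¹ : ℝ≥0∞) ^ n := by
    intro n
    obtain ⟨s, hs⟩ := Infinite.exists_subset_card_eq I n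
    have h1 : ({x} : Set (Cube I)) ⊆ Set.pi (s : Set I) (fun i => {x i}) := by
      rintro y rfl i _
      rfl
    refine (measure_mono h1).trans ?_
    rw [μc, Measure.infinitePi_pi _ (fun i _ => MeasurableSet.of_discrete)]
    rw [Finset.prod_congr rfl (fun i _ => coin_singleton (x i)), Finset.prod_const, hs]
  have h2 : Filter.Tendsto (fun n : ℕ => (2⁻¹ : ℝ≥0∞) ^ n) Filter.atTop (nhds 0) :=
    ENNReal.tendsto_pow_atTop_nhds_zero_of_lt_one (ENNReal.inv_lt_one.2 ENNReal.one_lt_two)
  exact le_antisymm (ge_of_tendsto' h2 key) bot_le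

theorem open_pos [Countable I] (U : Set (Cube I)) (hU : IsOpen U) (hne : U.Nonempty) :
    0 < μc I U := by
  obtain ⟨x, hx⟩ := hne
  obtain ⟨s, u, h1, h2⟩ := isOpen_pi_iff.1 hU x hx
  refine lt_of_lt_of_le ?_ (measure_mono h2)
  rw [μc, Measure.infinitePi_pi _ (fun i _ => MeasurableSet.of_discrete), pos_iff_ne_zero,
    Finset.prod_ne_zero_iff]
  intro i hi h0
  have h3 : coin {x i} ≤ coin (u i) := measure_mono (Set.singleton_subset_iff.2 (h1 i hi).2)
  rw [h0, coin_singleton] at h3
  simp at h3

theorem minimal (x : Cube I) : Dense (MulAction.orbit (LampG I H) x) := by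
  classical
  rw [dense_iff_inter_open]
  rintro U hU ⟨y, hy⟩
  obtain ⟨s, u, h1, h2⟩ := isOpen_pi_iff.1 hU y hy
  have hfin : {i | (decide (i ∈ s ∧ x i ≠ y i)) = true}.Finite := by
    refine s.finite_toSet.subset fun i hi => ?_
    simp only [Set.mem_ofPred_eq, decide_eq_true_eq] at hi
    exact hi.1
  refine ⟨lamp (H := H) (fun i => decide (i ∈ s ∧ x i ≠ y i)) hfin 1 • x, h2 ?_, _, rfl⟩
  intro i hi
  have h3 : (lamp (H := H) (fun i => decide (i ∈ s ∧ x i ≠ y i)) hfin 1 • x) i = y i := by
    rw [lamp_smul_apply, inv_one, one_smul]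
    have hi' : i ∈ s := hi
    cases hx : x i <;> cases hyy : y i <;> simp [hi']
  rw [h3]
  exact (h1 i hi).2

theorem infinite_lamp [Infinite I] : Infinite (LampG I H) := by
  refine Infinite.of_injective (fun k : I => flip H k) fun k k' hk => ?_
  by_contra hne
  have h1 := flip_smul_same (H := H) k (fun _ : I => false)
  have h2 := flip_smul_ne (H := H) k' k hne (fun _ : I => false)
  have hk' : flip H k = flip H k' := hk
  rw [hk', h2] at h1
  exact absurd h1 (by simp)

end

end MBS
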