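import Pool.Agent.MBS.Walsh
import Pool.Agent.MBS.Cube

/-!
# Erg : ergodicity of the finite flips, essential freeness

`erg`: let `f` be the indicator function of `V`. For `i ∈ S`, `f (flip i • x) = f x` a.e. and
`walsh S (flip i • x) = - walsh S x`, so `∫ f * walsh S = - ∫ f * walsh S = 0` for every `S ≠ ∅` by
`mp_lamp`. By Parseval `μ V = ∫ f ^ 2 = (∫ f) ^ 2 = (μ V) ^ 2`, so `μ V = 0` or `μ V = 1`.

`ae_free`: the group is countable, so it is enough that `Fix g = {x | g • x = x}` is null for every
`g ≠ 1`, `g = (S, h)` as in `LampG.exists_eq`. If `h = 1` then some `S i = true` and `Fix g = ∅`. If `h ≠ 1`: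
for all `i` with `S i = false`, `x i = x (h⁻¹ • i)` on `Fix g`, where `i ≠ h⁻¹ • i`, i.e.
`walsh {i, h⁻¹ • i} = 1` on `Fix g`. So with `f` = the indicator of `Fix g`,
`∫ f * walsh {i, h⁻¹ • i} = μ (Fix g)` for infinitely many different sets `{i, h⁻¹ • i}` (each set arises from at
most two `i`), and Parseval (summability) gives `μ (Fix g) = 0`.
-/

namespace MBS

open scoped ENNReal
open MeasureTheory TopologicalSpace

noncomputable section

variable (I H : Type) [Group H] [MulAction H I] [Countable I]

omit [Countable I] in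
theorem erg_walsh_flip (i : I) (S : Finset I) (hi : i ∈ S) (x : Cube I) :
    walsh S (flip H i • x) = - walsh S x := by
  classical
  unfold walsh
  rw [← Finset.mul_prod_erase S _ hi, ← Finset.mul_prod_erase S _ hi, flip_smul_same]
  have h1 : ∏ j ∈ S.erase i, (if (flip H i • x) j then (-1 : ℝ) else 1) =
      ∏ j ∈ S.erase i, (if x j then (-1 : ℝ) else 1) := by
    refine Finset.prod_congr rfl fun j hj => ?_
    rw [flip_smul_ne i j (Finset.ne_of_mem_erase hj)]
  rw [h1]
  cases x i <;> simp

/-- the indicator function of a set -/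
def ergInd (V : Set (Cube I)) (x : Cube I) : ℝ := V.indicator (fun _ => (1 : ℝ)) x

omit [Countable I] in
theorem ergInd_measurable {V : Set (Cube I)} (hV : MeasurableSet V) :
    Measurable (ergInd I V) :=
  (measurable_const (a := (1 : ℝ))).indicator hV

omit [Countable I] in
theorem ergInd_le (V : Set (Cube I)) (x : Cube I) : |ergInd I V x| ≤ 1 := by
  unfold ergInd
  by_cases hx : x ∈ V
  · rw [Set.indicator_of_mem hx]; simp
  · rw [Set.indicator_of_notMem hx]; simp

omit [Countable I] in
theorem ergInd_sq (V : Set (Cube I)) (x : Cube I) : ergInd I V x ^ 2 = ergInd I V x := by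
  unfold ergInd
  by_cases hx : x ∈ V
  · rw [Set.indicator_of_mem hx]; simp
  · rw [Set.indicator_of_notMem hx]; simp

omit [Countable I] in
theorem ergInd_integral {V : Set (Cube I)} (hV : MeasurableSet V) :
    ∫ x, ergInd I V x ∂(μc I) = (μc I).real V := by
  unfold ergInd
  rw [integral_indicator_const (1 : ℝ) hV]
  simp

theorem erg (V : Set (Cube I)) (hV : MeasurableSet V)
    (h : ∀ g : LampG I H, ∀ᵐ x ∂(μc I), (g • x ∈ V ↔ x ∈ V)) :
    μc I V = 0 ∨ μc I Vᶜ = 0 := by
  classical
  have h1 : ∀ S : Finset I, S ≠ ∅ → (∫ x, ergInd I V x * walsh S x ∂(μc I)) ^ 2 = 0 := by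
    intro S hS
    obtain ⟨i, hi⟩ := Finset.nonempty_iff_ne_empty.2 hS
    have hmp := mp_lamp I H (flip H i)
    have hmeas : Measurable (fun x => ergInd I V x * walsh S x) :=
      (ergInd_measurable I hV).mul (walsh_measurable S)
    have h2 : ∫ x, ergInd I V x * walsh S x ∂(μc I) =
        ∫ x, ergInd I V (flip H i • x) * walsh S (flip H i • x) ∂(μc I) := by
      conv_lhs => rw [← hmp.map_eq]
      rw [integral_map hmp.measurable.aemeasurable hmeas.aestronglyMeasurable]
    have h3 : ∫ x, ergInd I V (flip H i • x) * walsh S (flip H i • x) ∂(μc I) =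
        ∫ x, - (ergInd I V x * walsh S x) ∂(μc I) := by
      refine integral_congr_ae ?_
      filter_upwards [h (flip H i)] with x hx
      rw [erg_walsh_flip I H i S hi]
      have h4 : ergInd I V (flip H i • x) = ergInd I V x := by
        unfold ergInd
        by_cases hxV : x ∈ V
        · rw [Set.indicator_of_mem hxV, Set.indicator_of_mem (hx.2 hxV)]
        · rw [Set.indicator_of_notMem hxV, Set.indicator_of_notMem (fun h5 => hxV (hx.1 h5))]
      rw [h4]
      ring
    rw [h3, integral_neg] at h2
    have h5 : ∫ x, ergInd I V x * walsh S x ∂(μc I) = 0 := by linarith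
    rw [h5]
    ring
  have h2 := parseval (ergInd I V) (ergInd_measurable I hV) 1 (ergInd_le I V)
  have h3 := h2.unique (hasSum_single (∅ : Finset I) h1)
  simp only [walsh_empty, mul_one, ergInd_sq] at h3
  rw [ergInd_integral I hV] at h3
  have h4 : (μc I).real V = 0 ∨ (μc I).real V = 1 := by
    have h5 : (μc I).real V * ((μc I).real V - 1) = 0 := by
      rw [mul_sub, mul_one, ← sq, ← h3, sub_self]
    rcases mul_eq_zero.1 h5 with h6 | h6
    · exact Or.inl h6
    · exact Or.inr (by linarith)
  rcases h4 with h4 | h4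
  · left
    exact (measureReal_eq_zero_iff).1 h4
  · right
    rw [prob_compl_eq_zero_iff hV]
    have h5 := ENNReal.ofReal_toReal (measure_ne_top (μc I) V)
    have h6 : ((μc I) V).toReal = 1 := h4
    rw [← h5, h6, ENNReal.ofReal_one]

theorem erg_fix [Infinite I] (hfree : ∀ h : H, h ≠ 1 → ∀ i : I, h • i ≠ i)
    (g : LampG I H) (hg : g ≠ 1) : ∀ᵐ x ∂(μc I), g • x ≠ x := by
  classical
  obtain ⟨S, h, hS, hgx⟩ := g.exists_eq
  by_cases hh : h = 1
  · subst hh
    have h1 : ∃ i, S i = true := by
      by_contra hne
      push Not at hne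
      apply hg
      apply LampG.ext
      intro x
      funext i
      rw [hgx, one_smul]
      have h2 : S i = false := by simpa using hne i
      rw [h2]
      simp
    obtain ⟨i, hi⟩ := h1
    refine Filter.Eventually.of_forall fun x hx => ?_
    have h2 := congrFun hx i
    rw [hgx, hi] at h2
    simp at h2
  · have hcont : Continuous (fun x : Cube I => g • x) := continuous_const_smul g
    have hcl : IsClosed {x : Cube I | g • x = x} := isClosed_eq hcont continuous_id
    have hV : MeasurableSet {x : Cube I | g • x = x} := hcl.measurableSet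
    set V : Set (Cube I) := {x : Cube I | g • x = x} with hVdef
    have h1 : ∀ i, S i = false → ∫ x, ergInd I V x * walsh {i, h⁻¹ • i} x ∂(μc I) =
        (μc I).real V := by
      intro i hi
      rw [← ergInd_integral I hV]
      congr 1
      funext x
      unfold ergInd
      by_cases hx : x ∈ V
      · rw [Set.indicator_of_mem hx, one_mul]
        have h2 : g • x = x := hx
        have h3 := congrFun h2 i
        rw [hgx, hi, Bool.false_xor] at h3
        have hne : i ≠ h⁻¹ • i := (hfree h⁻¹ (inv_ne_one.2 hh) i).symm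
        unfold walsh
        rw [Finset.prod_pair hne, h3]
        cases x i <;> simp
      · rw [Set.indicator_of_notMem hx, zero_mul]
    have h2 := (parseval (ergInd I V) (ergInd_measurable I hV) 1 (ergInd_le I V)).summable
    have h3 := h2.tendsto_cofinite_zero
    have h4 : (μc I).real V = 0 := by
      by_contra hne
      have hpos : 0 < ((μc I).real V) ^ 2 := by positivity
      have h5 := h3.eventually (gt_mem_nhds hpos)
      have h6 : {A : Finset I | ¬ (∫ x, ergInd I V x * walsh A x ∂(μc I)) ^ 2 <
          ((μc I).real V) ^ 2}.Finite := Filter.eventually_cofinite.1 h5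
      have h7 : (Set.univ : Set I) ⊆ {i | S i = true} ∪
          ⋃ A ∈ {A : Finset I | ¬ (∫ x, ergInd I V x * walsh A x ∂(μc I)) ^ 2 <
          ((μc I).real V) ^ 2}, (A : Set I) := by
        intro i _
        by_cases hi : S i = true
        · exact Or.inl hi
        · right
          have hi' : S i = false := by simpa using hi
          refine Set.mem_biUnion (x := ({i, h⁻¹ • i} : Finset I)) ?_ (by simp)
          change ¬ (∫ x, ergInd I V x * walsh {i, h⁻¹ • i} x ∂(μc I)) ^ 2 <
            ((μc I).real V) ^ 2
          rw [h1 i hi']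
          exact lt_irrefl _
      have h8 := (hS.union (h6.biUnion fun A _ => A.finite_toSet)).subset h7
      exact Set.infinite_univ h8
    have h5 : μc I V = 0 := (measureReal_eq_zero_iff).1 h4
    rw [ae_iff]
    have h6 : {x : Cube I | ¬ g • x ≠ x} = V := by
      ext x
      simp [hVdef]
    rw [h6]
    exact h5

theorem ae_free [Countable H] [Infinite I] (hfree : ∀ h : H, h ≠ 1 → ∀ i : I, h • i ≠ i) :
    ∀ᵐ x ∂(μc I), x ∈ FreePts (LampG I H) (Cube I) := by
  have h1 : ∀ g : LampG I H, ∀ᵐ x ∂(μc I), g ≠ 1 → g • x ≠ x := by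
    intro g
    by_cases hg : g = 1
    · exact Filter.Eventually.of_forall fun x h => absurd hg h
    · filter_upwards [erg_fix I H hfree g hg] with x hx _
      exact hx
  filter_upwards [ae_all_iff.2 h1] with x hx
  exact fun g hgx => by_contra fun hg => hx g hg hgx

theorem dense_free [Countable H] [Infinite I] (hfree : ∀ h : H, h ≠ 1 → ∀ i : I, h • i ≠ i) :
    Dense (FreePts (LampG I H) (Cube I)) := by
  rw [dense_iff_inter_open]
  intro U hU hne
  by_contra hemp
  rw [Set.not_nonempty_iff_eq_empty] at hemp
  have h1 := open_pos I U hU hne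
  have h2 : μc I {x : Cube I | ¬ x ∈ FreePts (LampG I H) (Cube I)} = 0 :=
    ae_iff.1 (ae_free I H hfree)
  have h3 : U ⊆ {x : Cube I | ¬ x ∈ FreePts (LampG I H) (Cube I)} := by
    intro x hx hx2
    have h4 : x ∈ U ∩ FreePts (LampG I H) (Cube I) := ⟨hx, hx2⟩
    rw [hemp] at h4
    exact h4
  exact absurd (measure_mono_null h3 h2) h1.ne'

end

end MBS
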