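import Mathlib

/-!
# GapP : nonamenability of the free group, for functions in l^1

Let `a = of true`, `b = of false`, `W c` the set of reduced words beginning with the letter `c`
(`FreeGroup.startsWith`); the four sets are disjoint. If
`g ∉ W a` then `a⁻¹ * g ∈ W (a⁻¹)`. So for summable `m ≥ 0`:
`∑ m = ∑_{W a} m + ∑_{g ∉ W a} m g ≤ ∑_{W a} m + ∑_{g' ∈ W (a⁻¹)} m (a g')
  ≤ ∑_{W a} m + ∑_{W (a⁻¹)} m + ∑ |m (a g) - m g|` (substitute `g = a g'`), similarly for `b`; add the two
inequalities: `2 ∑ m ≤ ∑ m + δ_a + δ_b`.
-/

namespace MBS

noncomputable section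

open FreeGroup

open Classical in
theorem gapP_aux (m : FreeGroup Bool → ℝ) (hm : ∀ g, 0 ≤ m g) (hs : Summable m) (c : Bool) :
    ∑' g, m g ≤ ∑' g, (startsWith (c, true)).indicator m g +
      ∑' g, (startsWith (c, false)).indicator m g +
      ∑' g, |m (FreeGroup.of c * g) - m g| := by
  have hsa : Summable (fun g => m (FreeGroup.of c * g)) :=
    (Equiv.mulLeft (FreeGroup.of c)).summable_iff.2 hs
  have hsd : Summable (fun g => |m (FreeGroup.of c * g) - m g|) := (hsa.sub hs).abs
  have hsA := hs.indicator (startsWith (c, true))
  have hsA' := hs.indicator (startsWith (c, false))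
  have hsB := hs.indicator (startsWith (c, true))ᶜ
  have h1 : ∑' g, m g = ∑' g, (startsWith (c, true)).indicator m g +
      ∑' g, (startsWith (c, true))ᶜ.indicator m g := by
    rw [← hsA.tsum_add hsB]
    refine tsum_congr fun g => ?_
    by_cases hg : g ∈ startsWith (c, true) <;> simp [hg]
  have h2 : ∑' g, (startsWith (c, true))ᶜ.indicator m g =
      ∑' g, (startsWith (c, true))ᶜ.indicator m (FreeGroup.of c * g) :=
    ((Equiv.mulLeft (FreeGroup.of c)).tsum_eq _).symm
  have hsB' : Summable (fun g => (startsWith (c, true))ᶜ.indicator m (FreeGroup.of c * g)) :=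
    (Equiv.mulLeft (FreeGroup.of c)).summable_iff.2 hsB
  have h3 : ∑' g, (startsWith (c, true))ᶜ.indicator m (FreeGroup.of c * g) ≤
      ∑' g, ((startsWith (c, false)).indicator m g + |m (FreeGroup.of c * g) - m g|) := by
    refine hsB'.tsum_le_tsum (fun g => ?_) (hsA'.add hsd)
    by_cases hg : FreeGroup.of c * g ∈ startsWith (c, true)
    · rw [Set.indicator_of_notMem (by simpa using hg)]
      exact add_nonneg (Set.indicator_nonneg (fun x _ => hm x) g) (abs_nonneg _)
    · rw [Set.indicator_of_mem (by simpa using hg)]
      have h4 : g ∈ startsWith (c, false) := by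
        have h5 := startsWith_mk_mul (w := (c, false)) (FreeGroup.of c * g) (by simpa using hg)
        have h6 : (mk [(c, false)] : FreeGroup Bool) * (FreeGroup.of c * g) = g := by
          have h7 : (mk [(c, false)] : FreeGroup Bool) = (FreeGroup.of c)⁻¹ := by
            simp [FreeGroup.of, FreeGroup.inv_mk, FreeGroup.invRev]
          rw [h7]
          group
        rwa [h6] at h5
      rw [Set.indicator_of_mem h4]
      have := le_abs_self (m (FreeGroup.of c * g) - m g)
      linarith
  rw [hsA'.tsum_add hsd] at h3
  linarith

theorem gapP (m : FreeGroup Bool → ℝ) (hm : ∀ g, 0 ≤ m g) (hs : Summable m) :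
    ∑' g, m g ≤ ∑' g, |m (FreeGroup.of true * g) - m g| +
      ∑' g, |m (FreeGroup.of false * g) - m g| := by
  have ht := gapP_aux m hm hs true
  have hf := gapP_aux m hm hs false
  have h1 := hs.indicator (startsWith (true, true))
  have h2 := hs.indicator (startsWith (true, false))
  have h3 := hs.indicator (startsWith (false, true))
  have h4 := hs.indicator (startsWith (false, false))
  have key : ∑' g, (startsWith (true, true)).indicator m g +
      ∑' g, (startsWith (true, false)).indicator m g +
      (∑' g, (startsWith (false, true)).indicator m g +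
      ∑' g, (startsWith (false, false)).indicator m g) ≤ ∑' g, m g := by
    rw [← h1.tsum_add h2, ← h3.tsum_add h4, ← (h1.add h2).tsum_add (h3.add h4)]
    refine ((h1.add h2).add (h3.add h4)).tsum_le_tsum (fun g => ?_) hs
    have hd : ∀ w w' : Bool × Bool, w ≠ w' → g ∈ startsWith w → g ∉ startsWith w' := by
      intro w w' hww hg hg'
      exact (startsWith.disjoint_iff_ne.mpr hww).notMem_of_mem_left hg hg'
    have hmg := hm g
    by_cases g1 : g ∈ startsWith (true, true)
    · have e2 := hd _ (true, false) (by simp) g1
      have e3 := hd _ (false, true) (by simp) g1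
      have e4 := hd _ (false, false) (by simp) g1
      simp [g1, e2, e3, e4]
    by_cases g2 : g ∈ startsWith (true, false)
    · have e3 := hd _ (false, true) (by simp) g2
      have e4 := hd _ (false, false) (by simp) g2
      simp [g1, g2, e3, e4]
    by_cases g3 : g ∈ startsWith (false, true)
    · have e4 := hd _ (false, false) (by simp) g3
      simp [g1, g2, g3, e4]
    by_cases g4 : g ∈ startsWith (false, false)
    · simp [g1, g2, g3, g4]
    · simp [g1, g2, g3, g4, hmg]
  linarith

end

end MBS
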