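import Pool.Agent.MBS.Walsh
import Pool.Agent.MBS.Cube
import Pool.Agent.MBS.GapP

/-!
# Gap : the spectral gap of the shift of the free group on the cube

`F = FreeGroup Bool`, `c S = ∫ f * walsh S` for finite `S ⊂ F`. `V = ∫ (f - ∫ f) ^ 2 = ∑_{S ≠ ∅} c S ^ 2`
(Parseval and `∫ (f - ∫ f)^2 = ∫ f^2 - (∫ f)^2`, `c ∅ = ∫ f`).
`walsh S (s • x) = walsh (s⁻¹ • S) x` for the shift by `s`, hence (measure preserving)
`∫ f (s • x) * walsh S x = c (s • S)`, `s • S = S.image (s * ·)`, and by Parseval
`∫ (f (s • x) - f x) ^ 2 = ∑_S (c (s • S) - c S) ^ 2 =: n_s ^ 2`.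
Put `m g = ∑_{S ∋ g} c S ^ 2 / |S|`, for which `∑_g m g = V` (interchange, every `S ≠ ∅` is counted `|S|`
times with weight `1/|S|`), `m ≥ 0`. `m (s g) = ∑_{S ∋ g} c (s • S) ^ 2 / |S|`, so
`∑_g |m (s g) - m g| ≤ ∑_{S ≠ ∅} |c (s • S) ^ 2 - c S ^ 2| ≤ 4 n_s ^ 2 + V / 4`. `gapP`:
`V ≤ 4 (n_a ^ 2 + n_b ^ 2) + V / 2`.
-/

namespace MBS

open scoped ENNReal
open MeasureTheory TopologicalSpace

noncomputable section

namespace GapAux

open Classical in
/-- the kernel -/
def KK (w : Finset (FreeGroup Bool) → ℝ) (S : Finset (FreeGroup Bool)) (g : FreeGroup Bool) : ℝ :=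
  if g ∈ S then w S / S.card else 0

abbrev F2 : Type := FreeGroup Bool

theorem KK_nonneg {w : Finset F2 → ℝ} (hw : ∀ S, 0 ≤ w S) (S : Finset F2) (g : F2) :
    0 ≤ KK w S g := by
  unfold KK
  split_ifs
  · exact div_nonneg (hw S) (Nat.cast_nonneg _)
  · exact le_rfl

theorem hasSum_KK {w : Finset F2 → ℝ} (h0 : w ∅ = 0) (S : Finset F2) :
    HasSum (fun g => KK w S g) (w S) := by
  have h1 : HasSum (fun g => KK w S g) (∑ g ∈ S, KK w S g) := by
    refine hasSum_sum_of_ne_finset_zero fun g hg => ?_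
    unfold KK
    rw [if_neg hg]
  have h2 : ∑ g ∈ S, KK w S g = w S := by
    have : ∑ g ∈ S, KK w S g = ∑ _g ∈ S, w S / S.card := by
      refine Finset.sum_congr rfl fun g hg => ?_
      unfold KK
      rw [if_pos hg]
    rw [this, Finset.sum_const, nsmul_eq_mul]
    rcases S.eq_empty_or_nonempty with rfl | hne
    · simp [h0]
    · have : (S.card : ℝ) ≠ 0 := by
        have := hne.card_pos
        positivity
      field_simp
  rwa [h2] at h1

theorem summable_prod {w : Finset F2 → ℝ} (hw : ∀ S, 0 ≤ w S) (h0 : w ∅ = 0) (hs : Summable w) :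
    Summable (fun p : Finset F2 × F2 => KK w p.1 p.2) := by
  rw [summable_prod_of_nonneg (fun p => KK_nonneg hw p.1 p.2)]
  refine ⟨fun S => (hasSum_KK h0 S).summable, ?_⟩
  have : (fun S => ∑' g, KK w S g) = w := funext fun S => (hasSum_KK h0 S).tsum_eq
  rw [this]
  exact hs

/-- the function `m` -/
def mm (w : Finset F2 → ℝ) (g : F2) : ℝ := ∑' S, KK w S g

theorem summable_KK {w : Finset F2 → ℝ} (hw : ∀ S, 0 ≤ w S) (h0 : w ∅ = 0) (hs : Summable w)
    (g : F2) : Summable (fun S => KK w S g) :=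
  (summable_prod hw h0 hs).prod_symm.prod_factor g

theorem summable_mm {w : Finset F2 → ℝ} (hw : ∀ S, 0 ≤ w S) (h0 : w ∅ = 0) (hs : Summable w) :
    Summable (mm w) :=
  (summable_prod hw h0 hs).prod_symm.prod

theorem tsum_mm {w : Finset F2 → ℝ} (hw : ∀ S, 0 ≤ w S) (h0 : w ∅ = 0) (hs : Summable w) :
    ∑' g, mm w g = ∑' S, w S := by
  unfold mm
  have h1 : ∑' g, ∑' S, KK w S g = ∑' S, ∑' g, KK w S g :=
    Summable.tsum_comm (f := fun S g => KK w S g) (summable_prod hw h0 hs)
  rw [h1]
  exact tsum_congr fun S => (hasSum_KK h0 S).tsum_eq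

/-- left translation of finite sets -/
def act (s : F2) : Finset F2 ≃ Finset F2 := (Equiv.mulLeft s).finsetCongr

theorem mem_act (s g : F2) (S : Finset F2) : s * g ∈ act s S ↔ g ∈ S := by
  unfold act
  simp [Equiv.finsetCongr_apply, Finset.mem_map_equiv]

theorem card_act (s : F2) (S : Finset F2) : (act s S).card = S.card := by
  unfold act
  simp [Equiv.finsetCongr_apply]

theorem act_empty (s : F2) : act s ∅ = ∅ := by
  unfold act
  simp [Equiv.finsetCongr_apply]

theorem mm_mul (w : Finset F2 → ℝ) (s g : F2) : mm w (s * g) = mm (fun S => w (act s S)) g := by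
  unfold mm
  rw [← (act s).tsum_eq]
  refine tsum_congr fun S => ?_
  unfold KK
  simp only [mem_act, card_act]

theorem main_ineq {w w' : Finset F2 → ℝ} (hw : ∀ S, 0 ≤ w S) (h0 : w ∅ = 0) (hs : Summable w)
    (hw' : ∀ S, 0 ≤ w' S) (h0' : w' ∅ = 0) (hs' : Summable w') :
    ∑' g, |mm w' g - mm w g| ≤ ∑' S, |w' S - w S| := by
  have ha : ∀ S, 0 ≤ |w' S - w S| := fun S => abs_nonneg _
  have ha0 : |w' ∅ - w ∅| = 0 := by rw [h0, h0']; simp
  have hsum : Summable (fun S => |w' S - w S|) := (hs'.sub hs).abs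
  have h1 : ∀ g, |mm w' g - mm w g| ≤ mm (fun S => |w' S - w S|) g := by
    intro g
    unfold mm
    rw [← (summable_KK hw' h0' hs' g).tsum_sub (summable_KK hw h0 hs g)]
    have h2 : ∀ S, |KK w' S g - KK w S g| = KK (fun S => |w' S - w S|) S g := by
      intro S
      unfold KK
      split_ifs
      · rw [← sub_div, abs_div, abs_of_nonneg (Nat.cast_nonneg (α := ℝ) _)]
      · simp
    have h3 : Summable (fun S => |KK w' S g - KK w S g|) := by
      simp only [h2]
      exact summable_KK (w := fun S => |w' S - w S|) ha ha0 hsum g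
    calc |∑' S, (KK w' S g - KK w S g)| ≤ ∑' S, |KK w' S g - KK w S g| := by
          have := norm_tsum_le_tsum_norm (f := fun S => KK w' S g - KK w S g) (by simpa using h3)
          simpa using this
      _ = _ := tsum_congr h2
  have hm := summable_mm (w := fun S => |w' S - w S|) ha ha0 hsum
  calc ∑' g, |mm w' g - mm w g| ≤ ∑' g, mm (fun S => |w' S - w S|) g :=
        Summable.tsum_le_tsum h1 (Summable.of_nonneg_of_le (fun _ => abs_nonneg _) h1 hm) hm
    _ = _ := tsum_mm (w := fun S => |w' S - w S|) ha ha0 hsum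

theorem walsh_shift (s : F2) (S : Finset F2) (x : Cube F2) :
    walsh (act s S) (shift F2 s • x) = walsh S x := by
  unfold walsh act
  rw [Equiv.finsetCongr_apply, Finset.prod_map]
  refine Finset.prod_congr rfl fun i _ => ?_
  rw [shift_smul_apply]
  simp

/-- the Walsh coefficient -/
def cc (f : Cube F2 → ℝ) (S : Finset F2) : ℝ := ∫ x, f x * walsh S x ∂(μc F2)

theorem integrable_of_bdd {f : Cube F2 → ℝ} (hf : Measurable f) {C : ℝ} (hC : ∀ x, |f x| ≤ C) :
    Integrable f (μc F2) :=
  Integrable.of_bound hf.aestronglyMeasurable C (Filter.Eventually.of_forall fun x => by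
    simpa using hC x)

theorem cc_shift {f : Cube F2 → ℝ} (hf : Measurable f) {C : ℝ} (hC : ∀ x, |f x| ≤ C) (s : F2)
    (S : Finset F2) :
    ∫ x, f (shift F2 s • x) * walsh S x ∂(μc F2) = cc f (act s S) := by
  have hmp := mp_lamp F2 F2 (shift F2 s)
  have hg : Measurable (fun y => f y * walsh (act s S) y) := hf.mul (walsh_measurable _)
  have h1 : ∫ x, (fun y => f y * walsh (act s S) y) (shift F2 s • x) ∂(μc F2) =
      ∫ y, f y * walsh (act s S) y ∂(μc F2) := by
    have h := integral_map (μ := μc F2) hmp.measurable.aemeasurable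
      (hg.aestronglyMeasurable (μ := Measure.map (fun x => shift F2 s • x) (μc F2)))
    rw [hmp.map_eq] at h
    exact h.symm
  unfold cc
  rw [← h1]
  refine integral_congr_ae (Filter.Eventually.of_forall fun x => ?_)
  show _ = f (shift F2 s • x) * walsh (act s S) (shift F2 s • x)
  rw [walsh_shift]

theorem parseval_shift {f : Cube F2 → ℝ} (hf : Measurable f) {C : ℝ} (hC : ∀ x, |f x| ≤ C)
    (s : F2) :
    HasSum (fun S => (cc f (act s S) - cc f S) ^ 2)
      (∫ x, (f (shift F2 s • x) - f x) ^ 2 ∂(μc F2)) := by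
  have hmeas : Measurable (fun x => f (shift F2 s • x) - f x) :=
    (hf.comp (mp_lamp F2 F2 (shift F2 s)).measurable).sub hf
  have h := parseval (fun x => f (shift F2 s • x) - f x) hmeas (2 * C) (fun x => by
    have h1 := hC (shift F2 s • x)
    have h2 := hC x
    calc |f (shift F2 s • x) - f x| ≤ |f (shift F2 s • x)| + |f x| := abs_sub _ _
      _ ≤ 2 * C := by linarith)
  have e : ∀ S : Finset F2, ∫ x, (f (shift F2 s • x) - f x) * walsh S x ∂(μc F2) =
      cc f (act s S) - cc f S := by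
    intro S
    have hw : ∀ x, |walsh S x| ≤ 1 := fun x => (abs_walsh S x).le
    have i1 : Integrable (fun x => f (shift F2 s • x) * walsh S x) (μc F2) :=
      integrable_of_bdd ((hf.comp (mp_lamp F2 F2 (shift F2 s)).measurable).mul
        (walsh_measurable S)) (C := C) (fun x => by
          rw [abs_mul, abs_walsh, mul_one]; exact hC _)
    have i2 : Integrable (fun x => f x * walsh S x) (μc F2) :=
      integrable_of_bdd (hf.mul (walsh_measurable S)) (C := C) (fun x => by
          rw [abs_mul, abs_walsh, mul_one]; exact hC _)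
    rw [← cc_shift hf hC]
    unfold cc
    rw [← integral_sub i1 i2]
    refine integral_congr_ae (Filter.Eventually.of_forall fun x => ?_)
    show _ = f (shift F2 s • x) * walsh S x - f x * walsh S x
    ring
  simp only [e] at h
  exact h

end GapAux

open GapAux in
theorem gap : GapIneq (μc (FreeGroup Bool))
    (fun x => shift (FreeGroup Bool) (FreeGroup.of true) • x)
    (fun x => shift (FreeGroup Bool) (FreeGroup.of false) • x) := by
  classical
  rintro f hf ⟨C, hC⟩
  have hp := parseval f hf C hC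
  have hp' : HasSum (fun S : Finset F2 => (cc f S) ^ 2) (∫ x, f x ^ 2 ∂(μc F2)) := hp
  -- the variance
  have hint : Integrable f (μc F2) := integrable_of_bdd hf hC
  have hint2 : Integrable (fun x => f x ^ 2) (μc F2) :=
    integrable_of_bdd (hf.pow_const 2) (C := C ^ 2) (fun x => by
      rw [abs_pow]; exact pow_le_pow_left₀ (abs_nonneg _) (hC x) 2)
  have hc0 : cc f ∅ = ∫ y, f y ∂(μc F2) := by
    unfold cc walsh; simp
  have hV : ∫ x, (f x - ∫ y, f y ∂(μc F2)) ^ 2 ∂(μc F2) =
      ∫ x, f x ^ 2 ∂(μc F2) - (cc f ∅) ^ 2 := by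
    rw [hc0]
    set E := ∫ y, f y ∂(μc F2) with hE
    have e1 : ∀ x, (f x - E) ^ 2 = f x ^ 2 - 2 * E * f x + E ^ 2 := fun x => by ring
    simp only [e1]
    have i1 : Integrable (fun x => 2 * E * f x) (μc F2) := hint.const_mul _
    have a1 : ∫ x, (f x ^ 2 - 2 * E * f x + E ^ 2) ∂(μc F2) =
        ∫ x, (f x ^ 2 - 2 * E * f x) ∂(μc F2) + ∫ _x, E ^ 2 ∂(μc F2) :=
      integral_add (f := fun x => f x ^ 2 - 2 * E * f x) (g := fun _ => E ^ 2)
        (hint2.sub i1) (integrable_const _)
    have a2 : ∫ x, (f x ^ 2 - 2 * E * f x) ∂(μc F2) =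
        ∫ x, f x ^ 2 ∂(μc F2) - ∫ x, 2 * E * f x ∂(μc F2) := integral_sub hint2 i1
    have a3 : ∫ x, 2 * E * f x ∂(μc F2) = 2 * E * ∫ x, f x ∂(μc F2) := integral_const_mul _ _
    have a4 : ∫ _x, E ^ 2 ∂(μc F2) = E ^ 2 := by
      rw [integral_const]; simp
    rw [a1, a2, a3, a4, ← hE]; ring
  set w : Finset F2 → ℝ := fun S => if S = ∅ then 0 else (cc f S) ^ 2 with hw
  have hw0 : ∀ S, 0 ≤ w S := fun S => by
    simp only [hw]; split_ifs
    · exact le_rfl
    · positivity
  have hwe : w ∅ = 0 := by simp [hw]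
  have hwsum : HasSum w (∫ x, f x ^ 2 ∂(μc F2) - (cc f ∅) ^ 2) := by
    have h1 := hp'.sub (hasSum_ite_eq (∅ : Finset F2) ((cc f ∅) ^ 2))
    have h2 : w = fun S => cc f S ^ 2 - (if S = ∅ then (cc f ∅) ^ 2 else 0) := by
      funext S
      simp only [hw]
      split_ifs with h
      · rw [h]; ring
      · ring
    rw [h2]
    exact h1
  rw [hV]
  set V := ∫ x, f x ^ 2 ∂(μc F2) - (cc f ∅) ^ 2 with hVdef
  have hV0 : 0 ≤ V := hwsum.nonneg hw0
  have key : ∀ s : F2, ∑' g, |mm w (s * g) - mm w g| ≤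
      4 * ∫ x, (f (shift F2 s • x) - f x) ^ 2 ∂(μc F2) + V / 4 := by
    intro s
    set w' : Finset F2 → ℝ := fun S => w (act s S) with hw'
    have hw's : HasSum w' V := by
      have h := ((act s).hasSum_iff (f := w) (a := V)).2 hwsum
      exact h
    have h1 : ∀ g, mm w (s * g) = mm w' g := fun g => mm_mul w s g
    simp only [h1]
    refine (main_ineq hw0 hwe hwsum.summable (fun S => hw0 _) (by
      show w (act s ∅) = 0
      rw [act_empty]; exact hwe) hw's.summable).trans ?_
    have hN := parseval_shift hf hC s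
    have h2 : HasSum (fun S => 4 * (cc f (act s S) - cc f S) ^ 2 + (w' S + w S) / 8)
        (4 * ∫ x, (f (shift F2 s • x) - f x) ^ 2 ∂(μc F2) + (V + V) / 8) :=
      (hN.mul_left 4).add ((hw's.add hwsum).div_const 8)
    have h3 : ∀ S, |w' S - w S| ≤ 4 * (cc f (act s S) - cc f S) ^ 2 + (w' S + w S) / 8 := by
      intro S
      by_cases hS : S = ∅
      · subst hS
        have : w' ∅ = 0 := by
          show w (act s ∅) = 0
          rw [act_empty]; exact hwe
        rw [this, hwe]; simp; positivity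
      · have hS' : act s S ≠ ∅ := by
          intro h
          apply hS
          rw [← act_empty s] at h
          exact (act s).injective h
        have e1 : w' S = (cc f (act s S)) ^ 2 := by
          show w (act s S) = _
          simp only [hw]; rw [if_neg hS']
        have e2 : w S = (cc f S) ^ 2 := by
          simp only [hw]; rw [if_neg hS]
        rw [e1, e2]
        set a := cc f (act s S)
        set b := cc f S
        rw [abs_le]
        constructor <;> nlinarith [sq_nonneg (8 * (a - b) + (a + b)),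
          sq_nonneg (8 * (a - b) - (a + b)), sq_nonneg (a - b), sq_nonneg (a + b)]
    have h4 : Summable (fun S => |w' S - w S|) := (hw's.summable.sub hwsum.summable).abs
    calc ∑' S, |w' S - w S| ≤ ∑' S, (4 * (cc f (act s S) - cc f S) ^ 2 + (w' S + w S) / 8) :=
          Summable.tsum_le_tsum h3 h4 h2.summable
      _ = _ := by rw [h2.tsum_eq]; ring
  have hg := gapP (mm w) (fun g => tsum_nonneg fun S => KK_nonneg hw0 S g)
    (summable_mm hw0 hwe hwsum.summable)
  rw [tsum_mm hw0 hwe hwsum.summable, hwsum.tsum_eq] at hg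
  have k1 := key (FreeGroup.of true)
  have k2 := key (FreeGroup.of false)
  show V ≤ 8 * (∫ x, (f (shift F2 (FreeGroup.of true) • x) - f x) ^ 2 ∂(μc F2) +
    ∫ x, (f (shift F2 (FreeGroup.of false) • x) - f x) ^ 2 ∂(μc F2))
  linarith

end

end MBS
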