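import Pool.Agent.MBS.IndIrr

/-!
# Ind : the map from free points to irreducible representations

`ind_continuousOn`: on free points `Ind` is `Sigma.mk none` of the transported representation;
the coefficient `⟪v, W (ev x a (W⁻¹ w))⟫ = ⟪W⁻¹ v, ev x a (W⁻¹ w)⟫` is continuous in `x`
(`continuous_coeff`), so use `continuous_induced_rng`, `continuous_pi`, `continuous_sigmaMk`.

`ind_uequiv_iff`: if `g • x = y` then `perm (mulRight g)` is a unitary with
`ev x b (perm ξ) = perm (ev y b ξ)` (`ev_right`). If the orbits differ, `ev_disjoint` excludes a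
unitary intertwiner (`HSp none ≠ 0`).

`t2_irr`: the map into the product which induces the topology of `IrrN A n` is injective
(`StarAlgHom.ext`, `ContinuousLinearMap.ext`, `ext_inner_left`), so `IrrN A n` is Hausdorff
(`T2Space` of an embedding/injective inducing map), and the sigma type as well.

`measurableSet_freePts`: the complement is the countable union over `g ≠ 1` of the closed sets
`{x | g • x = x}`.
-/

namespace MBS

open scoped InnerProductSpace ENNReal BoundedContinuousFunction
open MeasureTheory TopologicalSpace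

noncomputable section

/-- transport of a representation along a unitary -/
def conjRep {A H K : Type*} [CStarAlgebra A] [NormedAddCommGroup H] [InnerProductSpace ℂ H]
    [CompleteSpace H] [NormedAddCommGroup K] [InnerProductSpace ℂ K] [CompleteSpace K]
    (W : H ≃ₗᵢ[ℂ] K) (π : A →⋆ₐ[ℂ] (H →L[ℂ] H)) : A →⋆ₐ[ℂ] (K →L[ℂ] K) :=
  (W.conjStarAlgEquiv : (H →L[ℂ] H) →⋆ₐ[ℂ] (K →L[ℂ] K)).comp π

theorem conjRep_apply {A H K : Type*} [CStarAlgebra A] [NormedAddCommGroup H]
    [InnerProductSpace ℂ H] [CompleteSpace H] [NormedAddCommGroup K] [InnerProductSpace ℂ K]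
    [CompleteSpace K] (W : H ≃ₗᵢ[ℂ] K) (π : A →⋆ₐ[ℂ] (H →L[ℂ] H)) (a : A) (y : K) :
    conjRep W π a y = W (π a (W.symm y)) := by
  rfl

theorem IsIrred.conj {A H K : Type*} [CStarAlgebra A] [NormedAddCommGroup H]
    [InnerProductSpace ℂ H] [CompleteSpace H] [NormedAddCommGroup K] [InnerProductSpace ℂ K]
    [CompleteSpace K] (W : H ≃ₗᵢ[ℂ] K) {π : A →⋆ₐ[ℂ] (H →L[ℂ] H)} (hπ : IsIrred π) :
    IsIrred (conjRep W π) := by
  intro L hL hinv
  have hcl : IsClosed ((L.comap (W.toLinearEquiv : H →ₗ[ℂ] K) : Submodule ℂ H) : Set H) :=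
    hL.preimage W.continuous
  have hmem : ∀ v : H, v ∈ L.comap (W.toLinearEquiv : H →ₗ[ℂ] K) ↔ W v ∈ L := fun v => Iff.rfl
  have hinv' : ∀ a, ∀ v ∈ L.comap (W.toLinearEquiv : H →ₗ[ℂ] K),
      π a v ∈ L.comap (W.toLinearEquiv : H →ₗ[ℂ] K) := by
    intro a v hv
    rw [hmem] at hv ⊢
    have h1 : conjRep W π a (W v) ∈ L := hinv a (W v) hv
    rw [conjRep_apply, W.symm_apply_apply] at h1
    exact h1
  rcases hπ _ hcl hinv' with h | h
  · left
    rw [Submodule.eq_bot_iff]
    intro y hy
    have h1 : W.symm y ∈ L.comap (W.toLinearEquiv : H →ₗ[ℂ] K) := by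
      rw [hmem, W.apply_symm_apply]
      exact hy
    rw [h, Submodule.mem_bot] at h1
    have h2 := congrArg W h1
    rwa [W.apply_symm_apply, map_zero] at h2
  · right
    rw [Submodule.eq_top_iff']
    intro y
    have h1 : W.symm y ∈ L.comap (W.toLinearEquiv : H →ₗ[ℂ] K) := by
      rw [h]; exact Submodule.mem_top
    rw [hmem, W.apply_symm_apply] at h1
    exact h1

theorem t2_irr (A : Type) [CStarAlgebra A] : T2Space (Irr A) := by
  have h : ∀ n : Dim, T2Space (IrrN A n) := by
    intro n
    refine T2Space.of_injective_continuous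
      (f := fun π : IrrN A n => fun p : A × HSp n × HSp n => ⟪p.2.1, π.1 p.1 p.2.2⟫_ℂ) ?_
      continuous_induced_dom
    intro π ρ hπ
    apply Subtype.ext
    refine StarAlgHom.ext fun a => ?_
    refine ContinuousLinearMap.ext fun v => ?_
    refine ext_inner_left ℂ fun w => ?_
    exact congrFun hπ (a, w, v)
  show T2Space (Σ n : Dim, IrrN A n)
  infer_instance

variable {G X : Type} [Group G] [TopologicalSpace X] [CompactSpace X] [T2Space X]
  [MulAction G X] [ContinuousConstSMul G X]

/-- The map `x ↦ ev x` from free points to `Irr`, with an arbitrary value `d` elsewhere;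
`e` is an enumeration of `G`. -/
def Ind (e : G ≃ Idx none) (d : Irr (Red G X)) (x : X) : Irr (Red G X) := by
  classical exact
    if h : x ∈ FreePts G X then ⟨none, ⟨conjRep (perm e) (ev G X x), (ev_irred x h).conj _⟩⟩ else d

theorem Ind_of_mem (e : G ≃ Idx none) (d : Irr (Red G X)) {x : X} (h : x ∈ FreePts G X) :
    Ind e d x = ⟨none, ⟨conjRep (perm e) (ev G X x), (ev_irred x h).conj _⟩⟩ := by
  classical
  unfold Ind
  exact dif_pos h

theorem ind_continuousOn (e : G ≃ Idx none) (d : Irr (Red G X)) :
    ContinuousOn (Ind e d) (FreePts G X) := by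
  rw [continuousOn_iff_continuous_domRestrict]
  have h1 : (FreePts G X).domRestrict (Ind e d) = fun x : FreePts G X =>
      (Sigma.mk none ⟨conjRep (perm e) (ev G X x.1), (ev_irred x.1 x.2).conj _⟩ :
        Σ n : Dim, IrrN (Red G X) n) := by
    funext x
    exact Ind_of_mem e d x.2
  rw [h1]
  refine (continuous_sigmaMk (σ := fun n : Dim => IrrN (Red G X) n) (i := none)).comp ?_
  refine continuous_induced_rng.2 (continuous_pi fun p => ?_)
  have h2 : ∀ x : FreePts G X, ⟪p.2.1, conjRep (perm e) (ev G X x.1) p.1 p.2.2⟫_ℂ =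
      ⟪(perm e).symm p.2.1, ev G X x.1 p.1 ((perm e).symm p.2.2)⟫_ℂ := by
    intro x
    rw [conjRep_apply]
    conv_lhs => rw [← (perm e).apply_symm_apply p.2.1]
    rw [LinearIsometryEquiv.inner_map_map]
  have h3 : Continuous fun x : FreePts G X =>
      ⟪(perm e).symm p.2.1, ev G X x.1 p.1 ((perm e).symm p.2.2)⟫_ℂ :=
    (continuous_coeff p.1 _ _).comp continuous_subtype_val
  exact h3.congr fun x => (h2 x).symm

theorem ind_uequiv_iff (e : G ≃ Idx none) (d : Irr (Red G X)) (x y : X)
    (hx : x ∈ FreePts G X) (hy : y ∈ FreePts G X) :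
    UEquiv (Ind e d x) (Ind e d y) ↔ ∃ g : G, g • x = y := by
  rw [Ind_of_mem e d hx, Ind_of_mem e d hy]
  constructor
  · rintro ⟨U, hU⟩
    by_contra hcon
    push Not at hcon
    have hU' : ∀ (a : Red G X) (v : L2 (Idx none)),
        U (conjRep (perm e) (ev G X x) a v) = conjRep (perm e) (ev G X y) a (U v) := hU
    let V : L2 G ≃ₗᵢ[ℂ] L2 G := ((perm e).trans U).trans (perm e).symm
    have hV : ∀ ξ, V ξ = (perm e).symm (U (perm e ξ)) := fun ξ => rfl
    have hT := ev_disjoint x y hcon (V.toContinuousLinearEquiv : L2 G →L[ℂ] L2 G) (by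
      intro b ξ
      show V (ev G X x b ξ) = ev G X y b (V ξ)
      have h1 := hU' b (perm e ξ)
      rw [conjRep_apply, conjRep_apply, LinearIsometryEquiv.symm_apply_apply] at h1
      rw [hV, hV, h1, LinearIsometryEquiv.symm_apply_apply])
    have h1 : V (δ (1 : G)) = 0 := by
      have := congrArg (fun T : L2 G →L[ℂ] L2 G => T (δ (1 : G))) hT
      exact this
    have h2 : (δ (1 : G) : L2 G) = 0 := by
      apply V.injective
      rw [h1, map_zero]
    have h3 : (δ (1 : G) : L2 G) 1 = 0 := by rw [h2]; rfl
    simp [δ] at h3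
  · rintro ⟨g, rfl⟩
    let R : L2 G ≃ₗᵢ[ℂ] L2 G := perm (Equiv.mulRight g)
    have hR : ∀ b η, R.symm (ev G X x b η) = ev G X (g • x) b (R.symm η) := by
      intro b η
      apply R.injective
      rw [LinearIsometryEquiv.apply_symm_apply]
      have h1 := ev_right x g b (R.symm η)
      have h2 : perm (Equiv.mulRight g) (R.symm η) = η := R.apply_symm_apply η
      rw [h2] at h1
      exact h1
    refine ⟨((perm e).symm.trans R.symm).trans (perm e), fun b v => ?_⟩
    show perm e (R.symm ((perm e).symm (conjRep (perm e) (ev G X x) b v))) =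
      conjRep (perm e) (ev G X (g • x)) b (perm e (R.symm ((perm e).symm v)))
    rw [conjRep_apply, conjRep_apply, LinearIsometryEquiv.symm_apply_apply,
      LinearIsometryEquiv.symm_apply_apply, hR]

theorem smul_mem_freePts (g : G) (x : X) : g • x ∈ FreePts G X ↔ x ∈ FreePts G X := by
  constructor
  · intro h k hk
    have h1 : (g * k * g⁻¹) • (g • x) = g • x := by
      rw [smul_smul, inv_mul_cancel_right, mul_smul, hk]
    have h2 := h _ h1
    have h3 : g * k = g := by
      have := congrArg (· * g) h2
      simpa using this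
    exact mul_eq_left.1 h3
  · intro h k hk
    have h1 : (g⁻¹ * k * g) • x = x := by
      rw [mul_smul, mul_smul, hk, inv_smul_smul]
    have h2 := h _ h1
    have h3 : k * g = g := by
      have := congrArg (g * ·) h2
      simpa [mul_assoc] using this
    exact mul_eq_right.1 h3

theorem measurableSet_freePts [Countable G] [MeasurableSpace X] [BorelSpace X] :
    MeasurableSet (FreePts G X) := by
  have h1 : FreePts G X = ⋂ g : G, {x | g • x = x → g = 1} := by
    ext x
    rw [Set.mem_iInter]
    exact Iff.rfl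
  rw [h1]
  refine MeasurableSet.iInter fun g => ?_
  by_cases hg : g = 1
  · have : {x : X | g • x = x → g = 1} = Set.univ := by
      ext x
      simp [hg]
    rw [this]
    exact MeasurableSet.univ
  · have : {x : X | g • x = x → g = 1} = {x : X | g • x = x}ᶜ := by
      ext x
      simp [hg]
    rw [this]
    exact (isClosed_eq (continuous_const_smul g) continuous_id).measurableSet.compl

theorem ind_measurable [Countable G] [MeasurableSpace X] [BorelSpace X] (e : G ≃ Idx none)
    (d : Irr (Red G X)) : Measurable (Ind e d) := by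
  classical
  have h1 : Ind e d = (FreePts G X).piecewise (Ind e d) (fun _ => d) := by
    funext x
    by_cases hx : x ∈ FreePts G X
    · rw [Set.piecewise_eq_of_mem _ _ _ hx]
    · rw [Set.piecewise_eq_of_notMem _ _ _ hx]
      unfold Ind
      exact dif_neg hx
  rw [h1]
  exact (ind_continuousOn e d).measurable_piecewise continuousOn_const measurableSet_freePts

end

end MBS
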