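import Pool.Agent.MBS.Defs

/-!
# NonStd : an ergodic nonatomic family of irreducible representations makes the spectrum nonstandard

Suppose `Spec B` is a standard Borel space, in particular countably separated: there are
measurable sets `E n` separating points. The map `q = toSpec ∘ F : X → Spec B` is measurable (the
quotient sigma algebra is the largest one making `toSpec` measurable). Each `V n = q ⁻¹' (E n)` is
almost invariant by `hinv` (`toSpec_eq_iff`), so null or conull by ergodicity. Hence
`q` is a.e. equal to one point `s`: the intersection `W` of those of the `V n`, `(V n)ᶜ` which are conull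
is conull, and any two points of `W` have the same `q` value. (Alternatively use
`Filter.exists_mem_singleton_mem_of_mem_of_nonempty_of_forall_mem_or_compl` and relatives.) So
`W ∩ X0` is conull, nonempty, and contained in one orbit by `hinj`, a countable set, which is null
because points are null; contradiction with `μ univ = 1`.
-/

namespace MBS

open scoped ENNReal
open MeasureTheory TopologicalSpace

noncomputable section

theorem nonstd {B : Type} [CStarAlgebra B] {X G : Type} [MeasurableSpace X] [Group G]
    [Countable G] [MulAction G X] (μ : Measure X) [IsProbabilityMeasure μ]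
    (hat : ∀ x, μ {x} = 0)
    (herg : ∀ V : Set X, MeasurableSet V → (∀ g : G, ∀ᵐ x ∂μ, (g • x ∈ V ↔ x ∈ V)) →
      μ V = 0 ∨ μ Vᶜ = 0)
    (X0 : Set X) (hX0 : ∀ᵐ x ∂μ, x ∈ X0)
    (F : X → Irr B) (hF : Measurable F)
    (hinv : ∀ g : G, ∀ᵐ x ∂μ, UEquiv (F (g • x)) (F x))
    (hinj : ∀ x ∈ X0, ∀ y ∈ X0, UEquiv (F x) (F y) → ∃ g : G, g • x = y) :
    ¬ StandardBorelSpace (Spec B) := by
  intro hstd
  have hne : Nonempty X := by
    by_contra h
    rw [not_nonempty_iff] at h
    have h1 : μ Set.univ = 1 := measure_univ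
    rw [Set.univ_eq_empty_iff.2 h, measure_empty] at h1
    exact zero_ne_one h1
  have : Nonempty (Spec B) := ⟨toSpec (F hne.some)⟩
  have hts : Measurable (toSpec : Irr B → Spec B) := fun E hE => hE
  have hq : Measurable (fun x => toSpec (F x)) := hts.comp hF
  obtain ⟨s, hs⟩ : ∃ s : Spec B, {s} ∈ Filter.map (fun x => toSpec (F x)) (ae μ) := by
    refine Filter.exists_singleton_mem_of_mem_of_forall_separating
      (l := Filter.map (fun x => toSpec (F x)) (ae μ)) (s := Set.univ)
      (fun U : Set (Spec B) => MeasurableSet U) Filter.univ_mem ?_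
    intro U hU
    have hV : MeasurableSet ((fun x => toSpec (F x)) ⁻¹' U) := hq hU
    have hinvV : ∀ g : G, ∀ᵐ x ∂μ, (g • x ∈ (fun x => toSpec (F x)) ⁻¹' U ↔
        x ∈ (fun x => toSpec (F x)) ⁻¹' U) := by
      intro g
      filter_upwards [hinv g] with x hx
      simp only [Set.mem_preimage]
      rw [(toSpec_eq_iff _ _).2 hx]
    rcases herg _ hV hinvV with h | h
    · right
      rw [Filter.mem_map, mem_ae_iff]
      rw [Set.preimage_compl, compl_compl]
      exact h
    · left
      rw [Filter.mem_map, mem_ae_iff]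
      exact h
  rw [Filter.mem_map] at hs
  have hW : ∀ᵐ x ∂μ, x ∈ X0 ∧ toSpec (F x) = s := by
    filter_upwards [hX0, hs] with x hx hx'
    exact ⟨hx, hx'⟩
  obtain ⟨x0, hx0, hx0s⟩ := hW.exists
  have hsub : {x | x ∈ X0 ∧ toSpec (F x) = s} ⊆ ⋃ g : G, {g • x0} := by
    rintro x ⟨hx, hxs⟩
    obtain ⟨g, hg⟩ := hinj x0 hx0 x hx ((toSpec_eq_iff _ _).1 (hx0s.trans hxs.symm))
    exact Set.mem_iUnion.2 ⟨g, hg.symm⟩
  have h0 : μ {x | x ∈ X0 ∧ toSpec (F x) = s} = 0 :=
    measure_mono_null hsub (measure_iUnion_null fun g => hat _)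
  have h1 : μ {x | x ∈ X0 ∧ toSpec (F x) = s}ᶜ = 0 := hW
  have h2 : μ Set.univ ≤ 0 := by
    rw [← Set.union_compl_self {x | x ∈ X0 ∧ toSpec (F x) = s}]
    exact (measure_union_le _ _).trans (by rw [h0, h1, add_zero])
  rw [measure_univ] at h2
  exact absurd h2 (by simp)

end

end MBS
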