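import Pool.Agent.MBS.Defs

/-!
# Sel : almost everywhere measurable selection (von Neumann)

Proof. Step 0: choose a Polish topology on `X` (upgradeStandardBorel) and one on `Z` for which `q` is
continuous (`Measurable.exists_continuous` in Mathlib: a finer Polish topology with the same Borel
sets). There is a continuous surjection `(ℕ → ℕ) → Z` (`exists_nat_nat_continuous_surjective`).
So it suffices (`sel_cont`): `X` a metric space (second countable, Borel), `h : (ℕ → ℕ) → X` continuous,
a.e. `x` in `range h`; then there is a measurable `s : X → (ℕ → ℕ)` with `h (s x) = x` a.e.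

Step 1: for a finite sequence `t : List ℕ` (or `Fin j → ℕ`) let `A t = h '' {z | z starts with t}`, and
`H t = toMeasurable μ (A t) ∩ closure (A t)`, a measurable set containing `A t` with
`μ (H t) = μ (A t)`. Since `A t = ⋃ k, A (t k)`, the set `H t \ ⋃ k, H (t k)` is null: it is measurable,
contained in `H t` and disjoint from `A t`, hence `μ (A t) ≤ μ (H t \ N) `, i.e. `μ N = 0`.
Also the complement of `H []` is null because a.e. `x` lies in `range h = A []`.

Step 2: define `s x` recursively: `s x j` = the least `k` with `x ∈ H (s x 0, ..., s x (j-1), k)`, if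
there is one, and `0` otherwise. By induction on the length, `{x | s x starts with t}` is
measurable, so `s` is measurable (coordinatewise).

Step 3: for a.e. `x`, `x ∈ H (s x | j) ⊆ closure (h '' {z | z starts with s x | j})` for all `j`.
Since `h` is continuous at `s x`, for every `ε` there is `j` with
`h '' {z | z starts with s x | j} ⊆ closedBall (h (s x)) ε`, so `dist x (h (s x)) ≤ ε`; `x = h (s x)`.
-/

namespace MBS

open scoped ENNReal
open MeasureTheory Set

noncomputable section

/-- the first `j` values -/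
def selTk (w : ℕ → ℕ) : ℕ → List ℕ
  | 0 => []
  | j + 1 => selTk w j ++ [w j]

theorem selTk_length (w : ℕ → ℕ) (j : ℕ) : (selTk w j).length = j := by
  induction j with
  | zero => rfl
  | succ j ih => simp [selTk, ih]

theorem selTk_eq_mem (w v : ℕ → ℕ) (j : ℕ) (h : selTk w j = selTk v j) :
    ∀ i < j, w i = v i := by
  induction j with
  | zero => intro i hi; omega
  | succ j ih =>
    simp only [selTk] at h
    have hl : (selTk w j).length = (selTk v j).length := by
      rw [selTk_length, selTk_length]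
    obtain ⟨h1, h2⟩ := List.append_inj h hl
    intro i hi
    rcases Nat.lt_succ_iff_lt_or_eq.1 hi with h3 | h3
    · exact ih h1 i h3
    · subst h3
      simpa using h2

theorem sel_cont {X : Type*} [MetricSpace X] [SecondCountableTopology X] [MeasurableSpace X]
    [BorelSpace X] (μ : Measure X) [IsFiniteMeasure μ] (h : (ℕ → ℕ) → X) (hc : Continuous h)
    (hr : ∀ᵐ x ∂μ, x ∈ range h) :
    ∃ s : X → (ℕ → ℕ), Measurable s ∧ ∀ᵐ x ∂μ, h (s x) = x := by
  classical
  let A : List ℕ → Set X := fun t => h '' {w | selTk w t.length = t}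
  let H : List ℕ → Set X := fun t => toMeasurable μ (A t) ∩ closure (A t)
  have hHm : ∀ t, MeasurableSet (H t) := fun t =>
    (measurableSet_toMeasurable _ _).inter isClosed_closure.measurableSet
  have hAH : ∀ t, A t ⊆ H t := fun t =>
    subset_inter (subset_toMeasurable _ _) subset_closure
  have hHA : ∀ t, μ (H t) ≤ μ (A t) := fun t =>
    (measure_mono inter_subset_left).trans (measure_toMeasurable _).le
  have hAU : ∀ t, A t ⊆ ⋃ k, A (t ++ [k]) := by
    rintro t x ⟨w, hw, rfl⟩
    refine mem_iUnion.2 ⟨w t.length, w, ?_, rfl⟩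
    have hw' : selTk w t.length = t := hw
    show selTk w (t ++ [w t.length]).length = t ++ [w t.length]
    rw [List.length_append, List.length_singleton]
    show selTk w t.length ++ [w t.length] = _
    rw [hw']
  have hN : ∀ t, μ (H t \ ⋃ k, H (t ++ [k])) = 0 := by
    intro t
    have hUm : MeasurableSet (⋃ k, H (t ++ [k])) := MeasurableSet.iUnion fun k => hHm _
    have h1 : A t ⊆ H t ∩ ⋃ k, H (t ++ [k]) :=
      subset_inter (hAH t) ((hAU t).trans (iUnion_mono fun k => hAH _))
    have h2 : μ (H t) ≤ μ (H t ∩ ⋃ k, H (t ++ [k])) := (hHA t).trans (measure_mono h1)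
    have h3 := measure_inter_add_sdiff (μ := μ) (H t) hUm
    have h4 : μ (H t ∩ ⋃ k, H (t ++ [k])) ≠ ⊤ := measure_ne_top _ _
    have h5 : μ (H t ∩ ⋃ k, H (t ++ [k])) + μ (H t \ ⋃ k, H (t ++ [k])) ≤
        μ (H t ∩ ⋃ k, H (t ++ [k])) + 0 := by
      rw [h3, add_zero]; exact h2
    have h6 := (ENNReal.add_le_add_iff_left h4).1 h5
    exact le_antisymm h6 bot_le
  have hgood : ∀ᵐ x ∂μ, x ∈ H [] ∧ ∀ t, x ∉ H t \ ⋃ k, H (t ++ [k]) := by
    have h1 : ∀ᵐ x ∂μ, ∀ t : List ℕ, x ∉ H t \ ⋃ k, H (t ++ [k]) := by
      rw [ae_all_iff]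
      intro t
      exact measure_eq_zero_iff_ae_notMem.1 (hN t)
    filter_upwards [hr, h1] with x hx hx1
    refine ⟨hAH [] ?_, hx1⟩
    obtain ⟨w, hw⟩ := hx
    exact ⟨w, rfl, hw⟩
  have hp : ∀ (p : List ℕ × X), ∃ k : ℕ, p.2 ∈ H (p.1 ++ [k]) ∨ ∀ k', p.2 ∉ H (p.1 ++ [k']) := by
    intro p
    by_cases hk : ∃ k, p.2 ∈ H (p.1 ++ [k])
    · obtain ⟨k, hk⟩ := hk
      exact ⟨k, Or.inl hk⟩
    · exact ⟨0, Or.inr (fun k' hk' => hk ⟨k', hk'⟩)⟩
  let kk : List ℕ × X → ℕ := fun p => Nat.find (hp p)
  let _ : MeasurableSpace (List ℕ) := ⊤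
  have hkk : Measurable kk := by
    refine measurable_from_prod_countable_right (fun t => ?_)
    show Measurable (fun x => Nat.find (hp (t, x)))
    refine measurable_find (fun x => hp (t, x)) (fun k => ?_)
    have hA1 : MeasurableSet {x | x ∈ H (t ++ [k])} := hHm _
    have hA2 : MeasurableSet {x | ∀ k', x ∉ H (t ++ [k'])} := by
      have : {x | ∀ k', x ∉ H (t ++ [k'])} = ⋂ k', (H (t ++ [k']))ᶜ := by
        ext x; simp
      rw [this]
      exact MeasurableSet.iInter fun k' => (hHm _).compl
    exact hA1.union hA2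
  let P : ℕ → X → List ℕ := fun j => Nat.rec (fun _ => []) (fun _ f x => f x ++ [kk (f x, x)]) j
  have hPs : ∀ j x, P (j + 1) x = P j x ++ [kk (P j x, x)] := fun j x => rfl
  have hPm : ∀ j, Measurable (P j) := by
    intro j
    induction j with
    | zero => exact measurable_const
    | succ j ih =>
      have h1 : Measurable (fun x => (P j x, kk (P j x, x))) :=
        ih.prodMk (hkk.comp (ih.prodMk measurable_id))
      have h2 : Measurable (fun q : List ℕ × ℕ => q.1 ++ [q.2]) := by
        refine measurable_from_prod_countable_right (fun t => ?_)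
        exact measurable_from_top
      exact h2.comp h1
  let s : X → ℕ → ℕ := fun x j => kk (P j x, x)
  have hPtk : ∀ x j, P j x = selTk (s x) j := by
    intro x j
    induction j with
    | zero => rfl
    | succ j ih => rw [hPs]; show _ = selTk (s x) j ++ [s x j]; rw [← ih]
  refine ⟨s, ?_, ?_⟩
  · exact measurable_pi_lambda _ fun j => hkk.comp ((hPm j).prodMk measurable_id)
  · filter_upwards [hgood] with x hx
    obtain ⟨hx0, hx1⟩ := hx
    have hmem : ∀ j, x ∈ H (P j x) := by
      intro j
      induction j with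
      | zero => exact hx0
      | succ j ih =>
        have h1 := hx1 (P j x)
        have h2 : x ∈ ⋃ k, H (P j x ++ [k]) := by
          by_contra h3
          exact h1 ⟨ih, h3⟩
        obtain ⟨k, hk⟩ := mem_iUnion.1 h2
        have h4 := Nat.find_spec (hp (P j x, x))
        rw [hPs]
        rcases h4 with h4 | h4
        · exact h4
        · exact absurd hk (h4 k)
    by_contra hne
    have hd : 0 < dist x (h (s x)) := dist_pos.2 (fun e => hne e.symm)
    set ε := dist x (h (s x)) / 2 with hε
    have hε0 : 0 < ε := by positivity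
    have hU : IsOpen (h ⁻¹' Metric.ball (h (s x)) ε) := Metric.isOpen_ball.preimage hc
    have hsU : s x ∈ h ⁻¹' Metric.ball (h (s x)) ε := by
      show h (s x) ∈ Metric.ball (h (s x)) ε
      exact Metric.mem_ball_self hε0
    obtain ⟨c, ⟨y, n, rfl⟩, hyc, hcU⟩ :=
      (PiNat.isTopologicalBasis_cylinders (fun _ : ℕ => ℕ)).exists_subset_of_mem_open hsU hU
    have hxn := hmem n
    have hxc : x ∈ closure (A (P n x)) := hxn.2
    have hsub : A (P n x) ⊆ Metric.closedBall (h (s x)) ε := by
      rintro z ⟨w, hw, rfl⟩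
      have hw' : selTk w (P n x).length = P n x := hw
      rw [hPtk, selTk_length] at hw'
      have h5 := selTk_eq_mem w (s x) n hw'
      have h6 : w ∈ PiNat.cylinder y n := by
        rw [PiNat.mem_cylinder_iff]
        intro i hi
        rw [h5 i hi]
        exact PiNat.mem_cylinder_iff.1 hyc i hi
      exact Metric.ball_subset_closedBall (hcU h6)
    have h7 : closure (A (P n x)) ⊆ Metric.closedBall (h (s x)) ε :=
      closure_minimal hsub Metric.isClosed_closedBall
    have h8 : dist x (h (s x)) ≤ ε := h7 hxc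
    linarith

theorem sel {X Z : Type*} [MeasurableSpace X] [StandardBorelSpace X] [MeasurableSpace Z]
    [StandardBorelSpace Z] [Nonempty Z] (μ : Measure X) [IsFiniteMeasure μ] (q : Z → X)
    (hq : Measurable q) (hr : ∀ᵐ x ∂μ, x ∈ range q) :
    ∃ s : X → Z, Measurable s ∧ ∀ᵐ x ∂μ, q (s x) = x := by
  obtain ⟨τX, hbX, hpX⟩ := StandardBorelSpace.polish (α := X)
  obtain ⟨τZ, hbZ, hpZ⟩ := StandardBorelSpace.polish (α := Z)
  let _ : MetricSpace X := TopologicalSpace.upgradeIsCompletelyMetrizable X |>.toMetricSpace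
  obtain ⟨t', hle, hqc, hp'⟩ := hq.exists_continuous
  have hbor : @borel Z t' = @borel Z τZ := (borel_eq_borel_of_le hp' hpZ hle)
  have hb' : @BorelSpace Z t' _ := @BorelSpace.mk Z t' _ (by rw [hbor]; exact hbZ.measurable_eq)
  obtain ⟨g, hg, hgs⟩ := @PolishSpace.exists_nat_nat_continuous_surjective Z t' hp' _
  have hgm : Measurable g := @Continuous.measurable _ _ _ _ _ t' _ hb' g hg
  have hcomp : Continuous (q ∘ g) := @Continuous.comp _ _ _ _ t' _ g q hqc hg
  obtain ⟨s, hs, hs'⟩ := sel_cont μ (q ∘ g) hcomp (by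
    filter_upwards [hr] with x hx
    rw [hgs.range_comp]
    exact hx)
  exact ⟨g ∘ s, hgm.comp hs, hs'⟩

end

end MBS
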