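import Pool.Agent.MBS.RedA

/-!
# Sep : separability

`C(X, ℂ)` is second countable (`ContinuousMap` instance for locally compact second countable `X`),
so `{fn f * u h}` is a countable union of images of a separable space under continuous maps
(`norm_fn_le`, linearity), so separable, its span is separable (`TopologicalSpace.IsSeparable.span`),
the closure as well, `span_dense`.
-/

namespace MBS

open scoped InnerProductSpace ENNReal BoundedContinuousFunction
open MeasureTheory TopologicalSpace

noncomputable section

theorem continuous_fn {G X : Type} [Group G] [TopologicalSpace X] [CompactSpace X]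
    [MulAction G X] : Continuous (fn G X) := by
  refine (LipschitzWith.of_dist_le_mul (K := 1) fun f g => ?_).continuous
  rw [dist_eq_norm, dist_eq_norm, ← fn_sub]
  simpa using norm_fn_le (f - g)

theorem red_separable {G X : Type} [Group G] [Countable G] [TopologicalSpace X] [CompactSpace X]
    [T2Space X] [SecondCountableTopology X] [MulAction G X] [ContinuousConstSMul G X] :
    SeparableSpace (Red G X) := by
  have h1 : IsSeparable {b : Red G X | ∃ (f : C(X, ℂ)) (h : G), b = fn G X f * u G X h} := by
    have h2 : {b : Red G X | ∃ (f : C(X, ℂ)) (h : G), b = fn G X f * u G X h} =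
        ⋃ h : G, Set.range (fun f : C(X, ℂ) => fn G X f * u G X h) := by
      ext b
      simp only [Set.mem_ofPred_eq, Set.mem_iUnion, Set.mem_range]
      constructor
      · rintro ⟨f, h, rfl⟩
        exact ⟨h, f, rfl⟩
      · rintro ⟨h, f, rfl⟩
        exact ⟨f, h, rfl⟩
    rw [h2]
    refine IsSeparable.iUnion fun h => isSeparable_range ?_
    exact continuous_fn.mul continuous_const
  have h3 := (h1.span (R := ℂ)).closure
  rw [(span_dense (G := G) (X := X)).closure_eq] at h3
  exact isSeparable_univ_iff.1 h3

end

end MBS
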