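import Pool.Agent.MBS.SimpA

/-!
# SimpB : simplicity of the reduced crossed product of a minimal, topologically free action

Let `J ≠ ⊥` be a two sided ideal, `h` as in `SimpA`. `U = {h > 0}` is open and nonempty, every orbit is
dense, so `X = ⋃ g, g • U`; by compactness there is a finite `F ⊂ G` such that
`k = ∑ g ∈ F, transl g h` is `> 0` everywhere, hence `k` is invertible in `C(X, ℂ)`. The closure of `J` is
closed under sums and under multiplication by elements of the algebra, and `fn (transl g h) =
u g * fn h * u g⁻¹`, so `fn k` and then `1 = fn k * fn k⁻¹` are in the closure of `J`. So there is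
`j ∈ J` with `‖1 - j‖ < 1`, `j` is invertible (`Units.oneSub`), so `J = ⊤`.
`IsSimpleRing` : `IsSimpleOrder (TwoSidedIdeal _)`, nontriviality of `Red G X` from `Nonempty X`
(`ev x 1 = 1 ≠ 0`).
-/

namespace MBS

open scoped InnerProductSpace ENNReal BoundedContinuousFunction
open MeasureTheory TopologicalSpace

noncomputable section

variable {G X : Type} [Group G] [TopologicalSpace X] [CompactSpace X] [T2Space X]
  [MulAction G X] [ContinuousConstSMul G X]

theorem red_nontrivial [Nonempty X] : Nontrivial (Red G X) := by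
  classical
  obtain ⟨x⟩ := ‹Nonempty X›
  refine nontrivial_of_ne (1 : Red G X) 0 fun h0 => ?_
  have h1 := congrArg (ev G X x) h0
  rw [map_one, map_zero] at h1
  have h2 : (δ (1 : G) : L2 G) = 0 := by
    have h3 := congrArg (fun T : L2 G →L[ℂ] L2 G => T (δ 1)) h1
    simpa using h3
  have h3 : (δ (1 : G) : L2 G) 1 = (0 : L2 G) 1 := by rw [h2]
  simp [δ] at h3

private theorem fn_transl_eq (g : G) (f : C(X, ℂ)) :
    fn G X (transl g f) = u G X g * fn G X f * u G X g⁻¹ := by
  rw [u_mul_fn, mul_assoc, ← u_mul, mul_inv_cancel, u_one, mul_one]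

theorem red_simple [Nonempty X] (hmin : ∀ x : X, Dense (MulAction.orbit G x))
    (hfree : Dense (FreePts G X)) : IsSimpleRing (Red G X) := by
  classical
  have : Nontrivial (Red G X) := red_nontrivial
  refine ⟨{ exists_pair_ne := ⟨⊥, ⊤, bot_ne_top⟩, eq_bot_or_eq_top := fun J => ?_ }⟩
  by_cases hJ : J = ⊥
  · exact Or.inl hJ
  right
  obtain ⟨h, hh0, ⟨x0, hx0⟩, hcl⟩ := simpA hfree J hJ
  set hc : C(X, ℂ) := (⟨Complex.ofReal, Complex.continuous_ofReal⟩ : C(ℝ, ℂ)).comp h with hcdef
  have hcapp : ∀ x, hc x = ((h x : ℝ) : ℂ) := fun x => rfl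
  have hadd : ∀ a b : Red G X, a ∈ closure (J : Set (Red G X)) →
      b ∈ closure (J : Set (Red G X)) → a + b ∈ closure (J : Set (Red G X)) := by
    intro a b ha hb
    exact map_mem_closure₂ continuous_add ha hb (fun a ha b hb => J.add_mem ha hb)
  have hmulL : ∀ a b : Red G X, b ∈ closure (J : Set (Red G X)) →
      a * b ∈ closure (J : Set (Red G X)) := by
    intro a b hb
    have hcont : Continuous (fun c : Red G X => a * c) := continuous_const.mul continuous_id
    exact map_mem_closure (f := fun c : Red G X => a * c) hcont hb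
      (fun c hc => J.mul_mem_left a c hc)
  have hmulR : ∀ a b : Red G X, a ∈ closure (J : Set (Red G X)) →
      a * b ∈ closure (J : Set (Red G X)) := by
    intro a b ha
    have hcont : Continuous (fun c : Red G X => c * b) := continuous_id.mul continuous_const
    exact map_mem_closure (f := fun c : Red G X => c * b) hcont ha
      (fun c hc => J.mul_mem_right c b hc)
  have hcov : (Set.univ : Set X) ⊆ ⋃ g : G, {x | 0 < h (g • x)} := by
    intro x _
    have hopen : IsOpen {y : X | 0 < h y} := isOpen_lt continuous_const h.continuous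
    obtain ⟨y, hy1, hy2⟩ := (hmin x).inter_open_nonempty _ hopen ⟨x0, hx0⟩
    obtain ⟨g, hg⟩ := hy2
    refine Set.mem_iUnion.2 ⟨g, ?_⟩
    show 0 < h (g • x)
    have hg' : g • x = y := hg
    rw [hg']
    exact hy1
  obtain ⟨t, ht⟩ := isCompact_univ.elim_finite_subcover (fun g : G => {x : X | 0 < h (g • x)})
    (fun g => isOpen_lt continuous_const (h.continuous.comp (continuous_const_smul g))) hcov
  have hsum : ∀ s : Finset G, fn G X (∑ g ∈ s, transl g⁻¹ hc) ∈ closure (J : Set (Red G X)) := by
    intro s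
    induction s using Finset.induction_on with
    | empty =>
      have h0 : fn G X (0 : C(X, ℂ)) = 0 := by
        have h1 := fn_sub (G := G) (0 : C(X, ℂ)) 0
        rwa [sub_self, sub_self] at h1
      rw [Finset.sum_empty, h0]
      exact subset_closure J.zero_mem
    | insert a s ha ih =>
      rw [Finset.sum_insert ha, fn_add]
      refine hadd _ _ ?_ ih
      rw [fn_transl_eq]
      exact hmulR _ _ (hmulL _ _ hcl)
  set k : C(X, ℂ) := ∑ g ∈ t, transl g⁻¹ hc with hk
  have hkapp : ∀ x, k x = ((∑ g ∈ t, h (g • x) : ℝ) : ℂ) := by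
    intro x
    rw [hk, ContinuousMap.sum_apply, Complex.ofReal_sum]
    refine Finset.sum_congr rfl fun g _ => ?_
    rw [transl_apply, inv_inv, hcapp]
  have hkne : ∀ x, k x ≠ 0 := by
    intro x
    rw [hkapp]
    have hpos : 0 < ∑ g ∈ t, h (g • x) := by
      have hx := ht (Set.mem_univ x)
      simp only [Set.mem_iUnion] at hx
      obtain ⟨g, hgt, hg⟩ := hx
      exact Finset.sum_pos' (fun g _ => hh0 _) ⟨g, hgt, hg⟩
    exact_mod_cast hpos.ne'
  let k' : C(X, ℂ) := ⟨fun x => (k x)⁻¹, k.continuous.inv₀ hkne⟩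
  have hkk : k * k' = 1 := by
    ext x
    show k x * (k x)⁻¹ = 1
    exact mul_inv_cancel₀ (hkne x)
  have h1 : (1 : Red G X) ∈ closure (J : Set (Red G X)) := by
    rw [← fn_one (G := G) (X := X), ← hkk, fn_mul]
    exact hmulR _ _ (hsum t)
  obtain ⟨j, hj, hj1⟩ := Metric.mem_closure_iff.1 h1 1 one_pos
  rw [dist_eq_norm] at hj1
  let w : (Red G X)ˣ := Units.oneSub (1 - j) hj1
  have hw : (w : Red G X) = j := by
    show 1 - (1 - j) = j
    abel
  rw [← TwoSidedIdeal.one_mem_iff]
  have h2 : j * ((w⁻¹ : (Red G X)ˣ) : Red G X) ∈ J := J.mul_mem_right _ _ hj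
  rw [← hw, Units.mul_inv] at h2
  exact h2

end

end MBS
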