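import Pool.Agent.MBS.Core
import Pool.Agent.MBS.Sel
import Pool.Agent.MBS.Ind
import Pool.Agent.MBS.NonStd
import Pool.Agent.MBS.CARstr
import Pool.Agent.MBS.SimpB
import Pool.Agent.MBS.Sep
import Pool.Agent.MBS.Erg
import Pool.Agent.MBS.Gap

/-!
# Main : assembly
-/

namespace MBS

open scoped ENNReal
open MeasureTheory TopologicalSpace Set

noncomputable section

/-- Abstract form of the argument: a measurable map `F` into `Irr A`, which is almost invariant under
an ergodic group action with spectral gap, is constant almost everywhere up to equivalence. -/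
theorem ae_const {A : Type} [CStarAlgebra A] (M : MU A) (hM : M.Gen) {X G : Type}
    [MeasurableSpace X] [Group G] [Countable G] [MulAction G X] (μ : Measure X)
    [IsProbabilityMeasure μ] (hmeas : ∀ g : G, Measurable (fun x : X => g • x)) (a b : G)
    (herg : ∀ V : Set X, MeasurableSet V → (∀ g : G, ∀ᵐ x ∂μ, (g • x ∈ V ↔ x ∈ V)) →
      μ V = 0 ∨ μ Vᶜ = 0)
    (hgap : GapIneq μ (fun x => a • x) (fun x => b • x))
    (F : X → Irr A) (hF : Measurable F)
    (hinv : ∀ g : G, ∀ᵐ x ∂μ, UEquiv (F (g • x)) (F x)) :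
    ∃ y : X, ∀ᵐ x ∂μ, UEquiv (F x) (F y) := by
  obtain ⟨y, V, hV, hVpos, hVe⟩ := core M hM μ (fun x => a • x) (fun x => b • x) (hmeas a)
    (hmeas b) hgap F hF (hinv a) (hinv b)
  refine ⟨y, ?_⟩
  let W : Set X := ⋃ g : G, (fun x => g • x) ⁻¹' V
  have hW : MeasurableSet W := MeasurableSet.iUnion fun g => hmeas g hV
  have hWinv : ∀ g : G, ∀ x, (g • x ∈ W ↔ x ∈ W) := by
    intro g x
    simp only [W, mem_iUnion, mem_preimage]
    constructor
    · rintro ⟨k, hk⟩
      exact ⟨k * g, by rwa [mul_smul]⟩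
    · rintro ⟨k, hk⟩
      exact ⟨k * g⁻¹, by rwa [mul_smul, inv_smul_smul]⟩
  have hWae : ∀ᵐ x ∂μ, x ∈ W := by
    rcases herg W hW (fun g => Filter.Eventually.of_forall (hWinv g)) with h | h
    · exfalso
      have h1 : μ V ≤ μ W := measure_mono fun x hx => mem_iUnion.2 ⟨1, by
        rw [mem_preimage, one_smul]; exact hx⟩
      rw [h] at h1
      exact absurd hVpos (not_lt.2 h1)
    · exact h
  have hall : ∀ᵐ x ∂μ, ∀ g : G, UEquiv (F (g • x)) (F x) := ae_all_iff.2 hinv
  filter_upwards [hWae, hall] with x hx hx'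
  obtain ⟨g, hg⟩ := mem_iUnion.1 hx
  exact (hx' g).symm.trans (hVe _ hg)

/-- The free group on two generators. -/
abbrev F2 : Type := FreeGroup Bool

/-- the acting group of the second example -/
abbrev GB : Type := LampG F2 F2

/-- the algebra of the second example -/
abbrev BAlg : Type := Red GB (Cube F2)

/-- the acting group of the first example -/
abbrev GA : Type := LampG ℕ Triv

/-- the algebra of the first example : the CAR algebra -/
abbrev AAlg : Type := Red GA (Cube ℕ)

theorem freeB : ∀ h : F2, h ≠ 1 → ∀ i : F2, h • i ≠ i := by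
  intro h hh i hi
  apply hh
  simpa using hi

theorem freeA : ∀ h : Triv, h ≠ 1 → ∀ i : ℕ, h • i ≠ i := fun _ hh => (hh rfl).elim

section gen

variable {I H : Type} [Group H] [MulAction H I] [Countable I] [Countable H] [Infinite I]

/-- enumeration of the group -/
theorem exists_enum (I H : Type) [Group H] [MulAction H I] [Countable I] [Countable H]
    [Infinite I] : Nonempty (LampG I H ≃ Idx none) := by
  have := infinite_lamp I H
  exact nonempty_equiv_of_countable (α := LampG I H) (β := ℕ)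

theorem exists_free (hfree : ∀ h : H, h ≠ 1 → ∀ i : I, h • i ≠ i) :
    ∃ x : Cube I, x ∈ FreePts (LampG I H) (Cube I) := by
  have h1 := ae_free I H hfree
  have h2 : μc I (FreePts (LampG I H) (Cube I)) ≠ 0 := by
    intro h0
    have h3 : μc I Set.univ ≤ μc I (FreePts (LampG I H) (Cube I)) +
        μc I (FreePts (LampG I H) (Cube I))ᶜ := by
      rw [← Set.union_compl_self (FreePts (LampG I H) (Cube I))]
      exact measure_union_le _ _
    have h4 : μc I (FreePts (LampG I H) (Cube I))ᶜ = 0 := h1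
    rw [h0, h4, measure_univ, add_zero] at h3
    exact absurd h3 (by norm_num)
  exact nonempty_of_measure_ne_zero h2

/-- a default irreducible representation -/
theorem exists_irr (hfree : ∀ h : H, h ≠ 1 → ∀ i : I, h • i ≠ i) :
    Nonempty (Irr (Red (LampG I H) (Cube I))) := by
  obtain ⟨e⟩ := exists_enum I H
  obtain ⟨x, hx⟩ := exists_free (I := I) (H := H) hfree
  exact ⟨⟨none, ⟨conjRep (perm e) (ev _ _ x), (ev_irred x hx).conj _⟩⟩⟩

theorem ind_inv (hfree : ∀ h : H, h ≠ 1 → ∀ i : I, h • i ≠ i) (e : LampG I H ≃ Idx none)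
    (d : Irr (Red (LampG I H) (Cube I))) (g : LampG I H) :
    ∀ᵐ x ∂(μc I), UEquiv (Ind e d (g • x)) (Ind e d x) := by
  filter_upwards [ae_free I H hfree] with x hx
  rw [ind_uequiv_iff e d _ _ ((smul_mem_freePts g x).2 hx) hx]
  exact ⟨g⁻¹, by simp⟩

theorem nonstd_red (hfree : ∀ h : H, h ≠ 1 → ∀ i : I, h • i ≠ i) :
    ¬ StandardBorelSpace (Spec (Red (LampG I H) (Cube I))) := by
  obtain ⟨e⟩ := exists_enum I H
  obtain ⟨d⟩ := exists_irr (I := I) (H := H) hfree
  exact nonstd (G := LampG I H) (μc I) (noAtoms I) (erg I H) (FreePts (LampG I H) (Cube I))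
    (ae_free I H hfree) (Ind e d) (ind_measurable e d) (ind_inv hfree e d)
    (fun x hx y hy h => (ind_uequiv_iff e d x y hx hy).1 h)

end gen

theorem measurable_smulB (g : GB) : Measurable (fun x : Cube F2 => g • x) :=
  (continuous_const_smul g).measurable

theorem toSpec_surj {A : Type} [CStarAlgebra A] (p : Spec A) : ∃ σ : Irr A, toSpec σ = p :=
  Quotient.exists_rep p

/-- The equivalence classes are null for the image of the coin measure. -/
theorem null_class (e : GB ≃ Idx none) (d : Irr BAlg) (σ : Irr BAlg) :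
    μc F2 {x | UEquiv (Ind e d x) σ} = 0 := by
  have hfree : μc F2 (FreePts GB (Cube F2))ᶜ = 0 := ae_free F2 F2 freeB
  by_cases h : ∃ x0 ∈ FreePts GB (Cube F2), UEquiv (Ind e d x0) σ
  · obtain ⟨x0, hx0, hx0σ⟩ := h
    refine measure_mono_null (t := (⋃ g : GB, {g • x0}) ∪ (FreePts GB (Cube F2))ᶜ) ?_
      (measure_union_null (measure_iUnion_null fun g => noAtoms F2 _) hfree)
    intro x hx
    by_cases hxf : x ∈ FreePts GB (Cube F2)
    · left
      obtain ⟨g, hg⟩ := (ind_uequiv_iff e d x0 x hx0 hxf).1 (hx0σ.trans (UEquiv.symm hx))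
      exact mem_iUnion.2 ⟨g, hg.symm⟩
    · exact Or.inr hxf
  · refine measure_mono_null (t := (FreePts GB (Cube F2))ᶜ) ?_ hfree
    intro x hx hxf
    exact h ⟨x, hxf, hx⟩

/-- Every homomorphism from equivalence on `Irr B` to equivalence on `Irr A`, measurable for the
measure in question, is essentially constant. -/
theorem strong1 (e : GB ≃ Idx none) (d : Irr BAlg) (f : Irr BAlg → Irr AAlg)
    (hf : AEMeasurable f ((μc F2).map (Ind e d)))
    (hom : ∀ σ τ, UEquiv σ τ → UEquiv (f σ) (f τ)) :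
    ∃ π, ∀ᵐ x ∂(μc F2), UEquiv (f (Ind e d x)) π := by
  obtain ⟨M, hM⟩ := isCAR_red
  have hI : Measurable (Ind e d) := ind_measurable e d
  obtain ⟨f', hf'm, hf'e⟩ := hf
  have h1 : ∀ᵐ x ∂(μc F2), f (Ind e d x) = f' (Ind e d x) :=
    ae_of_ae_map hI.aemeasurable hf'e
  have hmp := fun g : GB => mp_lamp F2 F2 g
  obtain ⟨y, hy⟩ := ae_const (G := GB) M hM (μc F2) measurable_smulB
    (shift F2 (FreeGroup.of true)) (shift F2 (FreeGroup.of false)) (erg F2 F2) gap
    (fun x => f' (Ind e d x)) (hf'm.comp hI) (by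
      intro g
      have h2 : ∀ᵐ x ∂(μc F2), f (Ind e d (g • x)) = f' (Ind e d (g • x)) :=
        (hmp g).quasiMeasurePreserving.ae h1
      filter_upwards [h1, h2, ind_inv freeB e d g] with x hx hx' hxx
      rw [← hx, ← hx']
      exact hom _ _ hxx)
  refine ⟨f' (Ind e d y), ?_⟩
  filter_upwards [h1, hy] with x hx hx'
  rw [hx]
  exact hx'

/-- Every map of the spectra with analytic graph is essentially constant. -/
theorem strong2 (e : GB ≃ Idx none) (d : Irr BAlg) (Φ : Spec BAlg → Spec AAlg)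
    (hR : AnalyticSet {p : Irr BAlg × Irr AAlg | Φ (toSpec p.1) = toSpec p.2}) :
    ∃ q, ∀ᵐ x ∂(μc F2), Φ (toSpec (Ind e d x)) = q := by
  obtain ⟨M, hM⟩ := isCAR_red
  have hT2 := t2_irr BAlg
  rw [AnalyticSet] at hR
  obtain ⟨π0, hπ0⟩ := toSpec_surj (Φ (toSpec d))
  rcases hR with h0 | ⟨uv, huv, hrange⟩
  · exfalso
    have : (d, π0) ∈ ({p : Irr BAlg × Irr AAlg | Φ (toSpec p.1) = toSpec p.2} : Set _) :=
      hπ0.symm
    rw [h0] at this
    exact this
  have hmem : ∀ z, Φ (toSpec (uv z).1) = toSpec (uv z).2 := fun z => by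
    have : uv z ∈ range uv := ⟨z, rfl⟩
    rw [hrange] at this
    exact this
  have hex : ∀ x, ∃ z, (uv z).1 = Ind e d x := by
    intro x
    obtain ⟨π, hπ⟩ := toSpec_surj (Φ (toSpec (Ind e d x)))
    have : (Ind e d x, π) ∈ range uv := by
      rw [hrange]; exact hπ.symm
    obtain ⟨z, hz⟩ := this
    exact ⟨z, by rw [hz]⟩
  let X1 : Set (Cube F2) := FreePts GB (Cube F2)
  have hX1 : MeasurableSet X1 := measurableSet_freePts
  let D : Set (Cube F2 × (ℕ → ℕ)) := {p | p.1 ∈ X1}
  have hD : MeasurableSet D := measurable_fst hX1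
  let E : Set ↥D := {p | (uv p.1.2).1 = Ind e d p.1.1}
  have hE : IsClosed E := by
    refine isClosed_eq ?_ ?_
    · exact (continuous_fst.comp huv).comp (continuous_snd.comp continuous_subtype_val)
    · have := (ind_continuousOn (G := GB) e d).comp_continuous
        (f := fun p : ↥D => p.1.1) (continuous_fst.comp continuous_subtype_val) (fun p => p.2)
      exact this
  let Zs : Set (Cube F2 × (ℕ → ℕ)) := Subtype.val '' E
  have hZs : MeasurableSet Zs := hD.subtype_image hE.measurableSet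
  have hZstd : StandardBorelSpace ↥Zs := hZs.standardBorel
  have hZmem : ∀ z : ↥Zs, (uv z.1.2).1 = Ind e d z.1.1 := by
    rintro ⟨p, ⟨q, hq, rfl⟩⟩
    exact hq
  have hran : ∀ x ∈ X1, x ∈ range (fun z : ↥Zs => z.1.1) := by
    intro x hx
    obtain ⟨z, hz⟩ := hex x
    exact ⟨⟨(x, z), ⟨⟨(x, z), hx⟩, hz, rfl⟩⟩, rfl⟩
  have hne : Nonempty ↥Zs := by
    obtain ⟨x, hx⟩ := exists_free (I := F2) (H := F2) freeB
    obtain ⟨z, _⟩ := hran x hx
    exact ⟨z⟩
  obtain ⟨s, hs, hqs⟩ := sel (μc F2) (fun z : ↥Zs => z.1.1)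
    (measurable_fst.comp measurable_subtype_coe) (by
      filter_upwards [ae_free F2 F2 freeB] with x hx using hran x hx)
  let F : Cube F2 → Irr AAlg := fun x => (uv (s x).1.2).2
  have hF : Measurable F :=
    (continuous_snd.comp huv).measurable.comp
      (measurable_snd.comp (measurable_subtype_coe.comp hs))
  have hX0 : ∀ᵐ x ∂(μc F2), Φ (toSpec (Ind e d x)) = toSpec (F x) := by
    filter_upwards [hqs] with x hx'
    have h1 := hZmem (s x)
    rw [hx'] at h1
    rw [← h1]
    exact hmem _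
  have hmp := fun g : GB => mp_lamp F2 F2 g
  obtain ⟨y, hy⟩ := ae_const (G := GB) M hM (μc F2) measurable_smulB
    (shift F2 (FreeGroup.of true)) (shift F2 (FreeGroup.of false)) (erg F2 F2) gap F hF (by
      intro g
      have h2 : ∀ᵐ x ∂(μc F2), Φ (toSpec (Ind e d (g • x))) = toSpec (F (g • x)) :=
        (hmp g).quasiMeasurePreserving.ae hX0
      filter_upwards [hX0, h2, ind_inv freeB e d g] with x hx hx' hxx
      rw [← toSpec_eq_iff, ← hx, ← hx', (toSpec_eq_iff _ _).2 hxx])
  refine ⟨toSpec (F y), ?_⟩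
  filter_upwards [hX0, hy] with x hx hx'
  rw [hx]
  exact (toSpec_eq_iff _ _).2 hx'

/-- Part (1): no universally measurable reduction. -/
theorem part1 (e : GB ≃ Idx none) (d : Irr BAlg) (f : Irr BAlg → Irr AAlg)
    (hf : ∀ ν : Measure (Irr BAlg), IsFiniteMeasure ν → AEMeasurable f ν) :
    ¬ ∀ σ τ, UEquiv σ τ ↔ UEquiv (f σ) (f τ) := by
  intro hred
  obtain ⟨π, hπ⟩ := strong1 e d f (hf _ inferInstance) (fun σ τ h => (hred σ τ).1 h)
  obtain ⟨x0, hx0⟩ := hπ.exists
  have h1 := null_class e d (Ind e d x0)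
  have h2 : ∀ᵐ x ∂(μc F2), x ∈ {x | UEquiv (Ind e d x) (Ind e d x0)} := by
    filter_upwards [hπ] with x hx
    exact (hred _ _).2 (hx.trans hx0.symm)
  have h3 : μc F2 {x | UEquiv (Ind e d x) (Ind e d x0)}ᶜ = 0 := h2
  have h4 := measure_union_null h1 h3
  rw [Set.union_compl_self, measure_univ] at h4
  exact one_ne_zero h4

/-- Part (2): no injection of the spectra with analytic graph. -/
theorem part2 (e : GB ≃ Idx none) (d : Irr BAlg) (Φ : Spec BAlg → Spec AAlg)
    (hΦ : Function.Injective Φ) :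
    ¬ AnalyticSet {p : Irr BAlg × Irr AAlg | Φ (toSpec p.1) = toSpec p.2} := by
  intro hR
  obtain ⟨q, hq⟩ := strong2 e d Φ hR
  obtain ⟨x0, hx0⟩ := hq.exists
  have h1 := null_class e d (Ind e d x0)
  have h2 : ∀ᵐ x ∂(μc F2), x ∈ {x | UEquiv (Ind e d x) (Ind e d x0)} := by
    filter_upwards [hq] with x hx
    exact (toSpec_eq_iff _ _).1 (hΦ (hx.trans hx0.symm))
  have h3 : μc F2 {x | UEquiv (Ind e d x) (Ind e d x0)}ᶜ = 0 := h2
  have h4 := measure_union_null h1 h3
  rw [Set.union_compl_self, measure_univ] at h4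
  exact one_ne_zero h4

/-- The main theorem. -/
theorem main : ∃ (A B : Type) (_ : CStarAlgebra A) (_ : CStarAlgebra B),
    SeparableSpace A ∧ SeparableSpace B ∧ IsSimpleRing A ∧ IsSimpleRing B ∧ IsCAR A ∧
    ¬ StandardBorelSpace (Spec A) ∧ ¬ StandardBorelSpace (Spec B) ∧
    (∀ f : Irr B → Irr A, (∀ ν : Measure (Irr B), IsFiniteMeasure ν → AEMeasurable f ν) →
      ¬ ∀ σ τ, UEquiv σ τ ↔ UEquiv (f σ) (f τ)) ∧
    (∀ Φ : Spec B → Spec A, Function.Injective Φ →
      ¬ AnalyticSet {p : Irr B × Irr A | Φ (toSpec p.1) = toSpec p.2}) ∧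
    ∃ (X : Type) (_ : MeasurableSpace X) (μ : Measure X) (I : X → Irr B),
      IsProbabilityMeasure μ ∧ Measurable I ∧ (∀ σ, μ {x | UEquiv (I x) σ} = 0) ∧
      (∀ f : Irr B → Irr A, AEMeasurable f (μ.map I) →
        (∀ σ τ, UEquiv σ τ → UEquiv (f σ) (f τ)) → ∃ π, ∀ᵐ x ∂μ, UEquiv (f (I x)) π) ∧
      (∀ Φ : Spec B → Spec A, AnalyticSet {p : Irr B × Irr A | Φ (toSpec p.1) = toSpec p.2} →
        ∃ q, ∀ᵐ x ∂μ, Φ (toSpec (I x)) = q) := by
  obtain ⟨e⟩ := exists_enum F2 F2
  obtain ⟨d⟩ := exists_irr (I := F2) (H := F2) freeB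
  exact ⟨AAlg, BAlg, inferInstance, inferInstance, red_separable, red_separable,
    red_simple (minimal ℕ Triv) (dense_free ℕ Triv freeA),
    red_simple (minimal F2 F2) (dense_free F2 F2 freeB), isCAR_red, nonstd_red freeA,
    nonstd_red freeB, part1 e d, part2 e d, Cube F2, inferInstance, μc F2, Ind e d,
    inferInstance, ind_measurable e d, null_class e d, strong1 e d, strong2 e d⟩

end

end MBS
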