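import Pool.Agent.MBS.CubeDef
import Pool.Agent.MBS.StateDef

/-!
# CoreB : the gap inequality for matrix valued functions

For a bounded measurable matrix valued function `P : X → Matrix ι ι ℂ` apply the scalar gap
inequality to the real and the imaginary parts of all entries and add up:
`∫ hs (P x - mean) ≤ 8 (∫ hs (P (S x) - P x) + ∫ hs (P (T x) - P x))`, with
`mean i j = ∫ P x i j`. Expanding, `∫ hs (P x - mean) = ∫ hs (P x) - hs mean`, and for Hermitian
values `hs mean = ∫∫ Re tr (P x * P y)` (Fubini, or bilinearity and integrals over a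
probability space: `∫∫ (P x i j) * (P y j i) = mean i j * mean j i = |mean i j| ^ 2`).
-/

namespace MBS

open scoped InnerProductSpace ENNReal ComplexOrder
open MeasureTheory

noncomputable section

/-- The real version: finitely many real functions. -/
theorem coreB_real {κ : Type} [Fintype κ] {X : Type} [MeasurableSpace X] (μ : Measure X)
    [IsProbabilityMeasure μ] (S T : X → X) (hS : Measurable S) (hT : Measurable T)
    (hgap : GapIneq μ S T) (f : κ → X → ℝ) (hf : ∀ k, Measurable (f k))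
    (hbd : ∀ k x, |f k x| ≤ 1) (hone : ∀ x, ∑ k, f k x ^ 2 = 1) (ε : ℝ)
    (h1 : ∫ x, ∑ k, (f k (S x) - f k x) ^ 2 ∂μ ≤ ε)
    (h2 : ∫ x, ∑ k, (f k (T x) - f k x) ^ 2 ∂μ ≤ ε) :
    1 - 16 * ε ≤ ∫ x, ∫ y, ∑ k, f k x * f k y ∂μ ∂μ := by
  have hint : ∀ g : X → ℝ, Measurable g → (∀ x, |g x| ≤ 4) → Integrable g μ := by
    intro g hg hb
    refine Integrable.of_bound hg.aestronglyMeasurable 4 (Filter.Eventually.of_forall fun x => ?_)
    rw [Real.norm_eq_abs]
    exact hb x
  have hsq : ∀ a b : ℝ, |a| ≤ 1 → |b| ≤ 1 → |(a - b) ^ 2| ≤ 4 := by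
    intro a b ha hb
    rw [abs_le] at ha hb
    rw [abs_of_nonneg (sq_nonneg _)]
    nlinarith
  have hsq1 : ∀ a : ℝ, |a| ≤ 1 → |a ^ 2| ≤ 4 := by
    intro a ha
    rw [abs_le] at ha
    rw [abs_of_nonneg (sq_nonneg _)]
    nlinarith
  have hif : ∀ k, Integrable (f k) μ := fun k => hint _ (hf k) fun x => (hbd k x).trans (by norm_num)
  have hif2 : ∀ k, Integrable (fun x => f k x ^ 2) μ := fun k =>
    hint _ ((hf k).pow_const 2) fun x => hsq1 _ (hbd k x)
  have hiS : ∀ k, Integrable (fun x => (f k (S x) - f k x) ^ 2) μ := fun k =>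
    hint _ ((((hf k).comp hS).sub (hf k)).pow_const 2) fun x => hsq _ _ (hbd k _) (hbd k _)
  have hiT : ∀ k, Integrable (fun x => (f k (T x) - f k x) ^ 2) μ := fun k =>
    hint _ ((((hf k).comp hT).sub (hf k)).pow_const 2) fun x => hsq _ _ (hbd k _) (hbd k _)
  rw [integral_finsetSum _ (fun k _ => hiS k)] at h1
  rw [integral_finsetSum _ (fun k _ => hiT k)] at h2
  -- variance
  have hvar : ∀ k, ∫ x, (f k x - ∫ y, f k y ∂μ) ^ 2 ∂μ =
      ∫ x, f k x ^ 2 ∂μ - (∫ y, f k y ∂μ) ^ 2 := by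
    intro k
    set m := ∫ y, f k y ∂μ with hm
    have h3 : ∀ x, (f k x - m) ^ 2 = f k x ^ 2 - (2 * m) * f k x + m ^ 2 := fun x => by ring
    simp only [h3]
    have hi1 : Integrable (fun x => f k x ^ 2 - 2 * m * f k x) μ :=
      (hif2 k).sub ((hif k).const_mul _)
    rw [integral_add hi1 (integrable_const _),
      integral_sub (hif2 k) ((hif k).const_mul _), integral_const_mul, ← hm, integral_const]
    simp only [probReal_univ, smul_eq_mul]
    ring
  have hgk : ∀ k, ∫ x, f k x ^ 2 ∂μ - (∫ y, f k y ∂μ) ^ 2 ≤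
      8 * (∫ x, (f k (S x) - f k x) ^ 2 ∂μ + ∫ x, (f k (T x) - f k x) ^ 2 ∂μ) := by
    intro k
    rw [← hvar k]
    exact hgap (f k) (hf k) ⟨1, hbd k⟩
  have hsum := Finset.sum_le_sum (s := (Finset.univ : Finset κ)) (fun k _ => hgk k)
  rw [Finset.sum_sub_distrib, ← Finset.mul_sum, Finset.sum_add_distrib,
    ← integral_finsetSum _ (fun k _ => hif2 k)] at hsum
  simp only [hone, integral_const, probReal_univ, smul_eq_mul, mul_one] at hsum
  have hRHS : ∫ x, ∫ y, ∑ k, f k x * f k y ∂μ ∂μ = ∑ k, (∫ y, f k y ∂μ) ^ 2 := by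
    have h3 : ∀ x, ∫ y, ∑ k, f k x * f k y ∂μ = ∑ k, f k x * ∫ y, f k y ∂μ := by
      intro x
      rw [integral_finsetSum _ (fun k _ => (hif k).const_mul _)]
      simp only [integral_const_mul]
    simp only [h3]
    rw [integral_finsetSum _ (fun k _ => (hif k).mul_const _)]
    simp only [integral_mul_const, sq]
  rw [hRHS]
  linarith

variable {ι : Type} [Fintype ι] [DecidableEq ι]

theorem coreB {X : Type} [MeasurableSpace X] (μ : Measure X) [IsProbabilityMeasure μ]
    (S T : X → X) (hS : Measurable S) (hT : Measurable T) (hgap : GapIneq μ S T)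
    (P : X → Matrix ι ι ℂ) (hP : ∀ i j, Measurable (fun x => P x i j))
    (hherm : ∀ x, (P x).IsHermitian) (hone : ∀ x, hs (P x) = 1) (ε : ℝ)
    (h1 : ∫ x, hs (P (S x) - P x) ∂μ ≤ ε) (h2 : ∫ x, hs (P (T x) - P x) ∂μ ≤ ε) :
    1 - 16 * ε ≤ ∫ x, ∫ y, ((P x * P y).trace).re ∂μ ∂μ := by
  -- the real coordinates
  let f : ι × ι × Bool → X → ℝ := fun p x => if p.2.2 then (P x p.1 p.2.1).re
    else (P x p.1 p.2.1).im
  have hsumf : ∀ g : ι × ι × Bool → ℝ, ∑ p, g p =
      ∑ i, ∑ j, (g (i, j, true) + g (i, j, false)) := by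
    intro g
    rw [Fintype.sum_prod_type]
    refine Finset.sum_congr rfl fun i _ => ?_
    rw [Fintype.sum_prod_type]
    refine Finset.sum_congr rfl fun j _ => ?_
    rw [Fintype.sum_bool]
  have hft : ∀ i j x, f (i, j, true) x = (P x i j).re := fun i j x => rfl
  have hff : ∀ i j x, f (i, j, false) x = (P x i j).im := fun i j x => rfl
  have hns : ∀ z : ℂ, ‖z‖ ^ 2 = z.re ^ 2 + z.im ^ 2 := by
    intro z
    rw [Complex.sq_norm, Complex.normSq_apply]
    ring
  have hf : ∀ k, Measurable (f k) := by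
    rintro ⟨i, j, b⟩
    cases b
    · exact Complex.measurable_im.comp (hP i j)
    · exact Complex.measurable_re.comp (hP i j)
  have hone' : ∀ x, ∑ k, f k x ^ 2 = 1 := by
    intro x
    rw [hsumf, ← hone x]
    simp only [hft, hff, hs, hns]
  have hbd : ∀ k x, |f k x| ≤ 1 := by
    intro k x
    have h3 : f k x ^ 2 ≤ ∑ k, f k x ^ 2 :=
      Finset.single_le_sum (f := fun k => f k x ^ 2) (fun _ _ => sq_nonneg _) (Finset.mem_univ k)
    rw [hone' x] at h3
    exact (sq_le_one_iff_abs_le_one _).1 h3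
  have hdiff : ∀ x y, ∑ k, (f k y - f k x) ^ 2 = hs (P y - P x) := by
    intro x y
    rw [hsumf]
    simp only [hft, hff, hs, hns, Matrix.sub_apply, Complex.sub_re, Complex.sub_im]
  have htr : ∀ x y, ((P x * P y).trace).re = ∑ k, f k x * f k y := by
    intro x y
    rw [hsumf]
    simp only [hft, hff, Matrix.trace, Matrix.diag_apply, Matrix.mul_apply, Complex.re_sum]
    refine Finset.sum_congr rfl fun i _ => Finset.sum_congr rfl fun j _ => ?_
    have h3 : P y j i = star (P y i j) := ((hherm y).apply j i).symm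
    rw [h3, Complex.mul_re]
    simp only [Complex.star_def, Complex.conj_re, Complex.conj_im]
    ring
  have h := coreB_real μ S T hS hT hgap f hf hbd hone' ε (by simpa only [hdiff] using h1)
    (by simpa only [hdiff] using h2)
  simpa only [htr] using h

end

end MBS
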