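import Pool.Agent.MBS.Units

/-!
# Dens : density matrices

`densV M π v n m t s = ⟪v, π (E s t) v⟫`.
-/

namespace MBS

open scoped InnerProductSpace ENNReal ComplexOrder

noncomputable section

variable {A : Type} [CStarAlgebra A] (M : MU A)
variable {H : Type*} [NormedAddCommGroup H] [InnerProductSpace ℂ H] [CompleteSpace H]
variable (π : A →⋆ₐ[ℂ] (H →L[ℂ] H)) (v : H)

/-- Gram matrix: with `E s t = E s r * E r t = star (E r s) * E r t` one has
`densV t s = ⟪π (E r s) v, π (E r t) v⟫`. -/
theorem densV_eq_inner (n m : ℕ) (r s t : Wd m) :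
    densV M π v n m t s = ⟪π (M.E n m r s) v, π (M.E n m r t) v⟫_ℂ := by
  have h1 : M.E n m s t = star (M.E n m r s) * M.E n m r t := by
    rw [star_E, E_mul, if_pos rfl]
  show ⟪v, π (M.E n m s t) v⟫_ℂ = _
  rw [h1, map_mul, map_star, ContinuousLinearMap.mul_apply, ContinuousLinearMap.star_eq_adjoint,
    ContinuousLinearMap.adjoint_inner_right]

/-- `∑ conj (c t) * D t s * c s = ‖∑ conj (c s) • π (E r s) v‖ ^ 2`-type computation, using
`densV_eq_inner`. (Or Mathlib's Gram matrices.) -/
theorem densV_posSemidef (n m : ℕ) : (densV M π v n m).PosSemidef := by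
  have h1 : densV M π v n m =
      (Matrix.gram ℂ (fun s : Wd m => π (M.E n m (fun _ => false) s) v)).transpose := by
    ext t s
    rw [Matrix.transpose_apply, Matrix.gram_apply]
    exact densV_eq_inner M π v n m _ s t
  rw [h1]
  exact (Matrix.posSemidef_gram ℂ _).transpose

theorem densV_trace (hv : ‖v‖ = 1) (n m : ℕ) : (densV M π v n m).trace = 1 := by
  have h1 : (densV M π v n m).trace = ⟪v, π (∑ s, M.E n m s s) v⟫_ℂ := by
    rw [map_sum, ContinuousLinearMap.sum_apply, inner_sum]
    rfl
  rw [h1, sum_E, map_one, ContinuousLinearMap.one_apply, inner_self_eq_norm_sq_to_K, hv]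
  norm_num

theorem trace_densV_mul (n m : ℕ) (c : Matrix (Wd m) (Wd m) ℂ) :
    (densV M π v n m * c).trace = ⟪v, π (M.mat n m c) v⟫_ℂ := by
  simp only [MU.mat, map_sum, map_smul, ContinuousLinearMap.sum_apply, inner_sum,
    ContinuousLinearMap.smul_apply, inner_smul_right, Matrix.trace, Matrix.diag_apply,
    Matrix.mul_apply]
  rw [Finset.sum_comm]
  refine Finset.sum_congr rfl fun s _ => Finset.sum_congr rfl fun t _ => ?_
  rw [mul_comm]
  rfl

end

end MBS
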