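import Pool.Agent.MBS.StateDef

/-!
# PS : the Powers-Stormer inequality for matrices

Proof of `powers_stormer`. Let `X = A - B` (Hermitian), `s` = a Hermitian unitary with
`s * X = X * s = |X| = P + N`, `X = P - N`, `P, N ≥ 0`, `P * N = 0` (diagonalize `X = U diag(x) U*`,
`s = U diag (if 0 ≤ x then 1 else -1) U*`, `P = U diag (max x 0) U*`, `N = U diag (max (-x) 0) U*`;
or the continuous functional calculus). Since `A*A - B*B = (X*(A+B) + (A+B)*X)/2`,
`Re tr((A*A - B*B) s) = Re tr(|X| (A+B))` (cyclicity of the trace). And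
`tr(P (A+B)) ≥ tr(P (A-B)) = tr(P*P)`, because `tr (P * 2B) ≥ 0` (the trace of a product of two
positive semidefinite matrices is `≥ 0`), likewise `tr(N (A+B)) ≥ tr(N (B-A)) = tr(N*N)`. So the
right side is `≥ tr(P*P + N*N) = tr(X*X) = hs X` for Hermitian `X`.

`msqrt` : existence of the square root of a PSD matrix: diagonalization or `CFC.sqrt`
(Mathlib.Analysis.Matrix.Order, `open scoped MatrixOrder Matrix.Norms.L2Operator`).
-/

namespace MBS

open scoped InnerProductSpace ENNReal ComplexOrder

noncomputable section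

variable {ι : Type} [Fintype ι] [DecidableEq ι]

/-- functional calculus of a Hermitian matrix on functions of the index of the eigenvalue -/
def psf {X : Matrix ι ι ℂ} (hX : X.IsHermitian) (f : ι → ℝ) : Matrix ι ι ℂ :=
  Unitary.conjStarAlgAut ℂ _ hX.eigenvectorUnitary (Matrix.diagonal (fun i => ((f i : ℝ) : ℂ)))

theorem psf_self {X : Matrix ι ι ℂ} (hX : X.IsHermitian) : psf hX hX.eigenvalues = X :=
  hX.spectral_theorem.symm

theorem psf_mul {X : Matrix ι ι ℂ} (hX : X.IsHermitian) (f g : ι → ℝ) :
    psf hX f * psf hX g = psf hX (fun i => f i * g i) := by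
  unfold psf
  rw [← map_mul, Matrix.diagonal_mul_diagonal]
  simp

theorem psf_sub {X : Matrix ι ι ℂ} (hX : X.IsHermitian) (f g : ι → ℝ) :
    psf hX f - psf hX g = psf hX (fun i => f i - g i) := by
  unfold psf
  rw [← map_sub, Matrix.diagonal_sub]
  simp

theorem psf_add {X : Matrix ι ι ℂ} (hX : X.IsHermitian) (f g : ι → ℝ) :
    psf hX f + psf hX g = psf hX (fun i => f i + g i) := by
  unfold psf
  rw [← map_add, Matrix.diagonal_add]
  simp

theorem psf_one {X : Matrix ι ι ℂ} (hX : X.IsHermitian) : psf hX (fun _ => 1) = 1 := by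
  unfold psf
  simp

theorem psf_zero {X : Matrix ι ι ℂ} (hX : X.IsHermitian) : psf hX (fun _ => 0) = 0 := by
  unfold psf
  simp

theorem psf_herm {X : Matrix ι ι ℂ} (hX : X.IsHermitian) (f : ι → ℝ) :
    (psf hX f).IsHermitian := by
  show star (psf hX f) = psf hX f
  unfold psf
  rw [← map_star]
  congr 1
  ext i j
  by_cases h : i = j
  · subst h; simp [Matrix.star_apply]
  · simp [Matrix.star_apply, Matrix.diagonal_apply_ne _ h, Matrix.diagonal_apply_ne _ (Ne.symm h)]

theorem psf_psd {X : Matrix ι ι ℂ} (hX : X.IsHermitian) (f : ι → ℝ) (hf : ∀ i, 0 ≤ f i) :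
    (psf hX f).PosSemidef := by
  have h := Matrix.posSemidef_conjTranspose_mul_self (psf hX (fun i => Real.sqrt (f i)))
  rw [(psf_herm hX _).eq, psf_mul] at h
  convert h using 2
  ext i
  rw [Real.mul_self_sqrt (hf i)]

theorem ps_exists_msqrt {D : Matrix ι ι ℂ} (hD : D.PosSemidef) :
    ∃ S : Matrix ι ι ℂ, S.PosSemidef ∧ S * S = D := by
  refine ⟨psf hD.1 (fun i => Real.sqrt (hD.1.eigenvalues i)),
    psf_psd _ _ (fun i => Real.sqrt_nonneg _), ?_⟩
  rw [psf_mul]
  conv_rhs => rw [← psf_self hD.1]
  congr 1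
  ext i
  rw [Real.mul_self_sqrt (hD.eigenvalues_nonneg i)]

theorem msqrt_posSemidef {D : Matrix ι ι ℂ} (hD : D.PosSemidef) : (msqrt D).PosSemidef := by
  unfold msqrt
  rw [dif_pos (ps_exists_msqrt hD)]
  exact (ps_exists_msqrt hD).choose_spec.1

theorem msqrt_mul_self {D : Matrix ι ι ℂ} (hD : D.PosSemidef) : msqrt D * msqrt D = D := by
  unfold msqrt
  rw [dif_pos (ps_exists_msqrt hD)]
  exact (ps_exists_msqrt hD).choose_spec.2

theorem hs_nonneg (X : Matrix ι ι ℂ) : 0 ≤ hs X := by
  unfold hs
  positivity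

/-- for Hermitian `X`, `hs X = tr (X * X)` -/
theorem hs_eq_trace {X : Matrix ι ι ℂ} (hX : X.IsHermitian) : ((X * X).trace).re = hs X := by
  unfold hs
  rw [Matrix.trace, Complex.re_sum]
  refine Finset.sum_congr rfl fun i _ => ?_
  rw [Matrix.diag_apply, Matrix.mul_apply, Complex.re_sum]
  refine Finset.sum_congr rfl fun j _ => ?_
  have hji : X j i = (starRingEnd ℂ) (X i j) := (hX.apply j i).symm
  rw [hji, Complex.mul_conj, Complex.normSq_eq_norm_sq, Complex.ofReal_re]

/-- the trace of the product of two PSD matrices is nonnegative -/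
theorem trace_mul_nonneg {P Q : Matrix ι ι ℂ} (hP : P.PosSemidef) (hQ : Q.PosSemidef) :
    0 ≤ ((P * Q).trace).re := by
  have h1 : P * Q = msqrt P * (msqrt P * Q) := by
    rw [← mul_assoc, msqrt_mul_self hP]
  rw [h1, Matrix.trace_mul_comm]
  have h2 := hQ.conjTranspose_mul_mul_same (msqrt P)
  rw [(msqrt_posSemidef hP).1.eq] at h2
  have h3 := h2.trace_nonneg
  rw [Complex.le_def] at h3
  simpa using h3.1

/-- Powers-Stormer -/
theorem powers_stormer {S T : Matrix ι ι ℂ} (hS : S.PosSemidef) (hT : T.PosSemidef) :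
    ∃ s : Matrix ι ι ℂ, s.IsHermitian ∧ s * s = 1 ∧
      hs (S - T) ≤ (((S * S - T * T) * s).trace).re := by
  have hX : (S - T).IsHermitian := hS.1.sub hT.1
  set lam := hX.eigenvalues with hlam
  set s := psf hX (fun i => if 0 ≤ lam i then 1 else -1) with hs'
  set P := psf hX (fun i => max (lam i) 0) with hP
  set N := psf hX (fun i => max (-lam i) 0) with hN
  have hXPN : S - T = P - N := by
    rw [hP, hN, psf_sub]
    conv_lhs => rw [← psf_self hX]
    congr 1
    ext i
    rcases le_total 0 (lam i) with h | h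
    · rw [max_eq_left h, max_eq_right (by linarith)]; simp [hlam]
    · rw [max_eq_right h, max_eq_left (by linarith)]; simp [hlam]
  have hPN : P * N = 0 := by
    rw [hP, hN, psf_mul, ← psf_zero hX]
    congr 1
    ext i
    rcases le_total 0 (lam i) with h | h
    · rw [max_eq_right (a := -lam i) (by linarith)]; simp
    · rw [max_eq_right h]; simp
  have hNP : N * P = 0 := by
    rw [hP, hN, psf_mul, ← psf_zero hX]
    congr 1
    ext i
    rcases le_total 0 (lam i) with h | h
    · rw [max_eq_right (a := -lam i) (by linarith)]; simp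
    · rw [max_eq_right h]; simp
  have hsX : s * (S - T) = P + N := by
    rw [hXPN, mul_sub, hs', hP, hN, psf_mul, psf_mul, psf_sub, psf_add]
    congr 1
    ext i
    by_cases h : 0 ≤ lam i
    · rw [if_pos h, max_eq_left h, max_eq_right (by linarith)]; ring
    · push Not at h
      rw [if_neg (not_le.2 h), max_eq_right h.le, max_eq_left (by linarith)]; ring
  have hXs : (S - T) * s = P + N := by
    rw [hXPN, sub_mul, hs', hP, hN, psf_mul, psf_mul, psf_sub, psf_add]
    congr 1
    ext i
    by_cases h : 0 ≤ lam i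
    · rw [if_pos h, max_eq_left h, max_eq_right (by linarith)]; ring
    · push Not at h
      rw [if_neg (not_le.2 h), max_eq_right h.le, max_eq_left (by linarith)]; ring
  have hPp : P.PosSemidef := psf_psd _ _ (fun i => le_max_right _ _)
  have hNp : N.PosSemidef := psf_psd _ _ (fun i => le_max_right _ _)
  refine ⟨s, psf_herm _ _, ?_, ?_⟩
  · rw [hs', psf_mul, ← psf_one hX]
    congr 1
    ext i
    by_cases h : 0 ≤ lam i <;> simp [h]
  · -- the main estimate
    have e1 : ((S * S - T * T) * s).trace = ((P + N) * (S + T)).trace := by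
      have e2 : (2 : ℂ) • ((S * S - T * T) * s) =
          ((S - T) * (S + T)) * s + (S + T) * ((S - T) * s) := by
        rw [two_smul]
        noncomm_ring
      have e3 : (2 : ℂ) * ((S * S - T * T) * s).trace = 2 * ((P + N) * (S + T)).trace := by
        rw [← smul_eq_mul, ← Matrix.trace_smul, e2, Matrix.trace_add, hXs,
          Matrix.trace_mul_comm _ s, ← mul_assoc, hsX, Matrix.trace_mul_comm (S + T)]
        ring
      exact mul_left_cancel₀ two_ne_zero e3
    rw [e1]
    have e4 : (P + N) * (S + T) = P * P + N * N + (2 : ℂ) • (P * T) + (2 : ℂ) • (N * S) := by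
      have a1 : P * S = P * T + P * P := by
        have : P * (S - T) = P * (P - N) := by rw [hXPN]
        rw [mul_sub, mul_sub, hPN, sub_zero] at this
        rw [← this]; abel
      have a2 : N * T = N * S + N * N := by
        have : N * (S - T) = N * (P - N) := by rw [hXPN]
        rw [mul_sub, mul_sub, hNP, zero_sub] at this
        have h3 : N * N = N * T - N * S := by
          rw [← neg_neg (N * N), ← this]; abel
        rw [h3]; abel
      rw [add_mul, mul_add, mul_add, a1, a2, two_smul, two_smul]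
      abel
    have e5 : (S - T) * (S - T) = P * P + N * N := by
      rw [hXPN, sub_mul, mul_sub, mul_sub, hPN, hNP]; abel
    rw [← hs_eq_trace hX, e5, e4]
    simp only [Matrix.trace_add, Matrix.trace_smul]
    have h1 := trace_mul_nonneg hPp hT
    have h2 := trace_mul_nonneg hNp hS
    simp only [Complex.add_re, smul_eq_mul, Complex.mul_re, Complex.re_ofNat, Complex.im_ofNat,
      zero_mul, sub_zero]
    linarith

theorem ps_norm_entry_le_one {s : Matrix ι ι ℂ} (hs1 : s.IsHermitian) (hs2 : s * s = 1) (i j : ι) :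
    ‖s i j‖ ≤ 1 := by
  have h1 : (s * s) i i = 1 := by rw [hs2]; simp
  rw [Matrix.mul_apply] at h1
  have h2 : ∑ k, ‖s i k‖ ^ 2 = 1 := by
    have h3 : ((∑ k, ‖s i k‖ ^ 2 : ℝ) : ℂ) = 1 := by
      rw [← h1]
      push_cast
      refine Finset.sum_congr rfl fun k _ => ?_
      rw [← hs1.apply i k, Complex.star_def]
      have : (starRingEnd ℂ) (s k i) = s i k := by
        have := hs1.apply i k
        simpa using this
      rw [this, ← this, mul_comm, Complex.mul_conj, Complex.normSq_eq_norm_sq]
      simp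
    exact_mod_cast h3
  have h4 : ‖s i j‖ ^ 2 ≤ 1 := by
    rw [← h2]
    exact Finset.single_le_sum (f := fun k => ‖s i k‖ ^ 2) (fun k _ => by positivity)
      (Finset.mem_univ j)
  nlinarith [norm_nonneg (s i j)]

/-- entries of a Hermitian unitary matrix have absolute value at most one, therefore
`hs (msqrt D - msqrt D') ≤ ∑ |D i j - D' i j|` and `msqrt` is continuous on PSD matrices. -/
theorem hs_msqrt_sub_le {D D' : Matrix ι ι ℂ} (hD : D.PosSemidef) (hD' : D'.PosSemidef) :
    hs (msqrt D - msqrt D') ≤ ∑ i, ∑ j, ‖D i j - D' i j‖ := by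
  obtain ⟨s, hs1, hs2, h⟩ := powers_stormer (msqrt_posSemidef hD) (msqrt_posSemidef hD')
  refine h.trans ?_
  rw [msqrt_mul_self hD, msqrt_mul_self hD', Matrix.trace, Complex.re_sum]
  refine Finset.sum_le_sum fun i _ => ?_
  rw [Matrix.diag_apply, Matrix.mul_apply, Complex.re_sum]
  refine Finset.sum_le_sum fun j _ => ?_
  refine (Complex.re_le_norm _).trans ?_
  rw [norm_mul, Matrix.sub_apply]
  exact mul_le_of_le_one_right (norm_nonneg _) (ps_norm_entry_le_one hs1 hs2 j i)

theorem msqrt_continuousOn : ContinuousOn (msqrt (ι := ι)) {D | D.PosSemidef} := by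
  intro D0 hD0
  refine tendsto_pi_nhds.2 fun i => ?_
  refine tendsto_pi_nhds.2 fun j => ?_
  rw [tendsto_iff_norm_sub_tendsto_zero]
  have hcont : Continuous (fun D : Matrix ι ι ℂ => Real.sqrt (∑ i, ∑ j, ‖D i j - D0 i j‖)) := by
    refine Real.continuous_sqrt.comp ?_
    refine continuous_finsetSum _ fun i _ => continuous_finsetSum _ fun j _ => ?_
    exact ((continuous_id.matrix_elem i j).sub continuous_const).norm
  have hlim : Filter.Tendsto (fun D : Matrix ι ι ℂ => Real.sqrt (∑ i, ∑ j, ‖D i j - D0 i j‖))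
      (nhdsWithin D0 {D | D.PosSemidef}) (nhds 0) := by
    have := (hcont.tendsto D0).mono_left (nhdsWithin_le_nhds (s := {D | D.PosSemidef}))
    simpa using this
  refine squeeze_zero' (Filter.Eventually.of_forall fun D => norm_nonneg _) ?_ hlim
  filter_upwards [self_mem_nhdsWithin] with D hD
  have h1 := hs_msqrt_sub_le hD hD0
  have h2 : ‖msqrt D i j - msqrt D0 i j‖ ^ 2 ≤ hs (msqrt D - msqrt D0) := by
    unfold hs
    have h3 : ‖(msqrt D - msqrt D0) i j‖ ^ 2 ≤ ∑ j, ‖(msqrt D - msqrt D0) i j‖ ^ 2 :=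
      Finset.single_le_sum (f := fun j => ‖(msqrt D - msqrt D0) i j‖ ^ 2)
        (fun k _ => by positivity) (Finset.mem_univ j)
    refine le_trans ?_ (Finset.single_le_sum
      (f := fun i => ∑ j, ‖(msqrt D - msqrt D0) i j‖ ^ 2)
        (fun k _ => by positivity) (Finset.mem_univ i))
    simpa using h3
  exact Real.le_sqrt_of_sq_le (h2.trans h1)

end

end MBS
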