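import Pool.Agent.MBS.StateDef

/-!
# Polar : a contraction realizing the trace of the product of two square roots

Let `v s ∈ H`, `w s ∈ K` be finite families with Gram matrices `G s t = ⟪v s, v t⟫`,
`G' s t = ⟪w s, w t⟫`, let `S, S'` be PSD with `S * S = G`, `S' * S' = G'`.

Pseudo-inverse (`exists_pinv`): for a Hermitian `S` there is a Hermitian `R` with `R * S = S * R`,
`S * R * S = S`, `R * S * R = R`
(diagonalize, `R = U diag(λ⁻¹) U*`; note that `0⁻¹ = 0` in Lean; or the functional calculus).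
Then `Q = S * R` is a Hermitian idempotent, `Q * S = S`, `Q * R = R`.

Define `T x = ∑ p, ∑ q, (N p q * ⟪v q, x⟫) • w p`, with `N = R' * R`. Then
* `∑ s, ⟪w s, T (v s)⟫ = ∑ G' s p * N p q * G q s = tr (G' * R' * R * G) = tr (S' * S)`;
* contraction: put `a x = (⟪v q, x⟫)_q ∈ ℂ^ι`, `y = R (a x)`. First `‖y‖ ≤ ‖x‖`: `‖y‖ ^ 2 =
  ⟪y, R a x⟫ = ⟪a* R y, x⟫ ≤ ‖∑ q, (R y) q • v q‖ ‖x‖` and `‖∑ q, (R y) q • v q‖ ^ 2 =
  ⟪R y, G R y⟫ = ⟪y, Q y⟫ ≤ ‖y‖ ^ 2`. Second `‖T x‖ ^ 2 = ⟪R' y, G' R' y⟫ = ⟪y, Q' y⟫ ≤ ‖y‖ ^ 2`.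
-/

namespace MBS

open scoped InnerProductSpace ENNReal ComplexOrder

noncomputable section

variable {ι : Type} [Fintype ι] [DecidableEq ι]

theorem exists_pinv {S : Matrix ι ι ℂ} (hS : S.IsHermitian) :
    ∃ R : Matrix ι ι ℂ, R.IsHermitian ∧ R * S = S * R ∧ S * R * S = S ∧ R * S * R = R := by
  classical
  have hsp := hS.spectral_theorem
  set φ := Unitary.conjStarAlgAut ℂ (Matrix ι ι ℂ) hS.eigenvectorUnitary with hφ
  set D : Matrix ι ι ℂ := Matrix.diagonal (RCLike.ofReal ∘ hS.eigenvalues) with hD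
  set D' : Matrix ι ι ℂ := Matrix.diagonal (fun i => ((hS.eigenvalues i : ℂ))⁻¹) with hD'
  have key : ∀ z : ℂ, z * z⁻¹ * z = z := by
    intro z
    by_cases h : z = 0
    · simp [h]
    · rw [mul_inv_cancel₀ h, one_mul]
  have key' : ∀ z : ℂ, z⁻¹ * z * z⁻¹ = z⁻¹ := by
    intro z
    by_cases h : z = 0
    · simp [h]
    · rw [inv_mul_cancel₀ h, one_mul]
  have h1 : D' * D = D * D' := by
    rw [hD, hD', Matrix.diagonal_mul_diagonal, Matrix.diagonal_mul_diagonal]
    congr 1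
    funext i
    exact mul_comm _ _
  have h2 : D * D' * D = D := by
    rw [hD, hD', Matrix.diagonal_mul_diagonal, Matrix.diagonal_mul_diagonal]
    congr 1
    funext i
    exact key _
  have h3 : D' * D * D' = D' := by
    rw [hD, hD', Matrix.diagonal_mul_diagonal, Matrix.diagonal_mul_diagonal]
    congr 1
    funext i
    exact key' _
  have h4 : star D' = D' := by
    rw [hD', Matrix.star_eq_conjTranspose, Matrix.diagonal_conjTranspose]
    congr 1
    funext i
    simp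
  refine ⟨φ D', ?_, ?_, ?_, ?_⟩
  · show (φ D').conjTranspose = φ D'
    rw [← Matrix.star_eq_conjTranspose, ← map_star, h4]
  · rw [hsp, ← map_mul, ← map_mul, h1]
  · rw [hsp, ← map_mul, ← map_mul, h2]
  · rw [hsp, ← map_mul, ← map_mul, h3]

open Matrix in
theorem herm_idem_le {Q : Matrix ι ι ℂ} (h1 : Q.IsHermitian) (h2 : Q * Q = Q) (y : ι → ℂ) :
    (star y ⬝ᵥ Q *ᵥ y).re ≤ (star y ⬝ᵥ y).re := by
  have h3 : (1 - Q).IsHermitian := Matrix.isHermitian_one.sub h1
  have h4 : (1 - Q) * (1 - Q) = 1 - Q := by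
    rw [Matrix.mul_sub, Matrix.sub_mul, Matrix.sub_mul, h2]; simp
  have h5 : star ((1 - Q) *ᵥ y) ⬝ᵥ ((1 - Q) *ᵥ y) = star y ⬝ᵥ y - star y ⬝ᵥ Q *ᵥ y := by
    rw [Matrix.star_mulVec, Matrix.dotProduct_mulVec, Matrix.vecMul_vecMul,
      h3.eq, h4, ← Matrix.dotProduct_mulVec, Matrix.sub_mulVec, Matrix.one_mulVec,
      dotProduct_sub]
  have h6 : 0 ≤ (star ((1 - Q) *ᵥ y) ⬝ᵥ ((1 - Q) *ᵥ y)).re := by
    exact (Complex.le_def.1 (dotProduct_star_self_nonneg ((1 - Q) *ᵥ y))).1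
  rw [h5, Complex.sub_re] at h6
  linarith

omit [DecidableEq ι] in
open Matrix in
theorem gram_norm {K : Type*} [NormedAddCommGroup K] [InnerProductSpace ℂ K] (w : ι → K)
    {G : Matrix ι ι ℂ} (hw : ∀ s t, G s t = ⟪w s, w t⟫_ℂ) (c : ι → ℂ) :
    ‖∑ p, c p • w p‖ ^ 2 = (star c ⬝ᵥ G *ᵥ c).re := by
  have h : star c ⬝ᵥ G *ᵥ c = ⟪∑ p, c p • w p, ∑ p, c p • w p⟫_ℂ := by
    rw [sum_inner]
    simp only [dotProduct, Matrix.mulVec, inner_sum, inner_smul_left, inner_smul_right, hw]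
    refine Finset.sum_congr rfl fun i _ => ?_
    rw [Finset.mul_sum]
    refine Finset.sum_congr rfl fun j _ => ?_
    simp only [Pi.star_apply, RCLike.star_def]
    ring
  rw [h, inner_self_eq_norm_sq_to_K]
  norm_cast

open Matrix in
theorem polar {H K : Type*} [NormedAddCommGroup H] [InnerProductSpace ℂ H] [CompleteSpace H]
    [NormedAddCommGroup K] [InnerProductSpace ℂ K] [CompleteSpace K] (v : ι → H) (w : ι → K)
    (S S' : Matrix ι ι ℂ) (hS : S.PosSemidef) (hS' : S'.PosSemidef)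
    (hv : ∀ s t, (S * S) s t = ⟪v s, v t⟫_ℂ) (hw : ∀ s t, (S' * S') s t = ⟪w s, w t⟫_ℂ) :
    ∃ T : H →L[ℂ] K, ‖T‖ ≤ 1 ∧ ∑ s, ⟪w s, T (v s)⟫_ℂ = (S' * S).trace := by
  obtain ⟨R, r1, r2, r3, r4⟩ := exists_pinv hS.isHermitian
  obtain ⟨R', r1', r2', r3', r4'⟩ := exists_pinv hS'.isHermitian
  set N := R' * R with hN
  have qh : ∀ {A B : Matrix ι ι ℂ}, A.IsHermitian → B.IsHermitian → B * A = A * B →
      (A * B).IsHermitian := by
    intro A B ha hb hab
    show (A * B).conjTranspose = A * B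
    rw [Matrix.conjTranspose_mul, ha.eq, hb.eq, hab]
  let T : H →L[ℂ] K := ∑ p, ∑ q, N p q • (innerSL ℂ (v q)).smulRight (w p)
  have hT : ∀ x, T x = ∑ p, (∑ q, N p q * ⟪v q, x⟫_ℂ) • w p := by
    intro x
    simp only [T, _root_.sum_apply, _root_.smul_apply,
      ContinuousLinearMap.smulRight_apply, innerSL_apply_apply, smul_smul, Finset.sum_smul]
  refine ⟨T, ?_, ?_⟩
  · refine ContinuousLinearMap.opNorm_le_bound _ zero_le_one fun x => ?_
    rw [one_mul]
    set a : ι → ℂ := fun q => ⟪v q, x⟫_ℂ with ha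
    set y : ι → ℂ := R *ᵥ a with hy
    have e1 : T x = ∑ p, (R' *ᵥ y) p • w p := by
      rw [hT]
      refine Finset.sum_congr rfl fun p _ => ?_
      congr 1
      show (N *ᵥ a) p = _
      rw [hN, hy, Matrix.mulVec_mulVec]
    -- the norm of `y`
    have n0 : 0 ≤ (star y ⬝ᵥ y).re := by
      exact (Complex.le_def.1 (dotProduct_star_self_nonneg y)).1
    have e2 : ‖T x‖ ^ 2 ≤ (star y ⬝ᵥ y).re := by
      rw [e1, gram_norm w hw]
      have e3 : star (R' *ᵥ y) ⬝ᵥ (S' * S') *ᵥ (R' *ᵥ y) = star y ⬝ᵥ (S' * R') *ᵥ y := by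
        rw [Matrix.star_mulVec, Matrix.mulVec_mulVec, ← Matrix.dotProduct_mulVec,
          Matrix.mulVec_mulVec, r1'.eq]
        congr 2
        calc R' * (S' * S' * R') = R' * S' * (S' * R') := by simp only [Matrix.mul_assoc]
          _ = S' * R' * (S' * R') := by rw [r2']
          _ = S' * R' * S' * R' := by simp only [Matrix.mul_assoc]
          _ = S' * R' := by rw [r3']
      rw [e3]
      refine herm_idem_le (qh hS'.isHermitian r1' r2') ?_ y
      calc S' * R' * (S' * R') = S' * R' * S' * R' := by simp only [Matrix.mul_assoc]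
        _ = S' * R' := by rw [r3']
    have e4 : (star y ⬝ᵥ y).re ≤ ‖x‖ ^ 2 := by
      have e5 : star y ⬝ᵥ y = ⟪∑ q, (R *ᵥ y) q • v q, x⟫_ℂ := by
        rw [sum_inner]
        simp only [inner_smul_left]
        have : star y ⬝ᵥ y = star (R *ᵥ y) ⬝ᵥ a := by
          calc star y ⬝ᵥ y = star y ⬝ᵥ (R *ᵥ a) := by rw [← hy]
            _ = (star y ᵥ* R) ⬝ᵥ a := Matrix.dotProduct_mulVec _ _ _
            _ = star (R *ᵥ y) ⬝ᵥ a := by rw [Matrix.star_mulVec R y, r1.eq]
        rw [this]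
        rfl
      have e6 : ‖∑ q, (R *ᵥ y) q • v q‖ ^ 2 ≤ (star y ⬝ᵥ y).re := by
        rw [gram_norm v hv]
        have e3 : star (R *ᵥ y) ⬝ᵥ (S * S) *ᵥ (R *ᵥ y) = star y ⬝ᵥ (S * R) *ᵥ y := by
          rw [Matrix.star_mulVec, Matrix.mulVec_mulVec, ← Matrix.dotProduct_mulVec,
            Matrix.mulVec_mulVec, r1.eq]
          congr 2
          calc R * (S * S * R) = R * S * (S * R) := by simp only [Matrix.mul_assoc]
            _ = S * R * (S * R) := by rw [r2]
            _ = S * R * S * R := by simp only [Matrix.mul_assoc]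
            _ = S * R := by rw [r3]
        rw [e3]
        refine herm_idem_le (qh hS.isHermitian r1 r2) ?_ y
        calc S * R * (S * R) = S * R * S * R := by simp only [Matrix.mul_assoc]
          _ = S * R := by rw [r3]
      have e7 : (star y ⬝ᵥ y).re ≤ ‖∑ q, (R *ᵥ y) q • v q‖ * ‖x‖ := by
        rw [e5]
        exact (Complex.re_le_norm _).trans (norm_inner_le_norm _ _)
      set m := ‖∑ q, (R *ᵥ y) q • v q‖ with hm
      have m0 : 0 ≤ m := norm_nonneg _
      have x0 := norm_nonneg x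
      nlinarith [sq_nonneg (m - ‖x‖)]
    have := e2.trans e4
    exact le_of_sq_le_sq this (norm_nonneg _)
  · have e1 : ∀ s, ⟪w s, T (v s)⟫_ℂ = ((S' * S') * N * (S * S)) s s := by
      intro s
      rw [hT, inner_sum, Matrix.mul_assoc, Matrix.mul_apply]
      refine Finset.sum_congr rfl fun p _ => ?_
      rw [inner_smul_right, ← hw, Matrix.mul_apply, mul_comm]
      congr 1
      refine Finset.sum_congr rfl fun q _ => ?_
      rw [← hv]
    rw [Finset.sum_congr rfl fun s _ => e1 s]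
    show ((S' * S') * N * (S * S)).trace = _
    congr 1
    calc (S' * S') * N * (S * S) = S' * (S' * R') * (R * S) * S := by
          rw [hN]; simp only [Matrix.mul_assoc]
      _ = S' * (R' * S') * (S * R) * S := by rw [r2, r2']
      _ = (S' * R' * S') * (S * R * S) := by simp only [Matrix.mul_assoc]
      _ = S' * S := by rw [r3, r3']

end

end MBS
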