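import Pool.Agent.MBS.Tail
import Pool.Agent.MBS.Dens
import Pool.Agent.MBS.PS
import Pool.Agent.MBS.Polar

/-!
# Kernel : overlap of square roots of density matrices forces unitary equivalence

Step 1 (`block_intertwiner`). Fix `n, m`, an index `r`. Put `v_s = π (E r s) v`,
`w_s = ρ (E r s) w`. By `densV_eq_inner`, `⟪v_s, v_t⟫ = densV t s`, so the Gram matrix of `(v_s)` is the
transpose of `D = densV M π v n m`; with `S = (msqrt D).transpose` (PSD) we have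
`S * S = D.transpose` = Gram; similarly for `w`. `Polar.polar` gives a contraction `T0 : H → K` with
`∑ s, ⟪w_s, T0 v_s⟫ = tr (S' S) = tr (msqrt D * msqrt D')`. Put
`T = ∑ s, ρ (E s r) T0 π (E r s)`. Then `⟪w, T v⟫ = ∑ ⟪w_s, T0 v_s⟫` and
`ρ (E s t) T = ρ (E s r) T0 π (E r t) = T π (E s t)`. Norm: `‖T x‖ ^ 2 = ∑ ‖ρ (E r r) T0 π (E r s) x‖ ^ 2`
(orthogonal ranges: `⟪ρ (E s r) y, ρ (E t r) z⟫ = ⟪y, ρ (E r s * E t r) z⟫ = 0` for `s ≠ t`)
`≤ ∑ ‖π (E r s) x‖ ^ 2 = ∑ ⟪x, π (E s s) x⟫ = ‖x‖ ^ 2`.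

Step 2 (`tail_intertwiner`). For infinitely many `m` there is a contraction `T m` as in step 1 with
`Re ⟪w, T m v⟫ ≥ κ`. Choose an ultrafilter `U ≤ atTop` containing the infinite set of these `m`
(`Filter.Frequently` gives `NeBot (atTop ⊓ 𝓟 S)`, `Ultrafilter.of`) and let `T` be the weak
operator limit (put `T m = 0` for other `m`). `e k i j` with `n ≤ k` is in the block of `n, m` for
`m > k - n` (`e_eq_mat`), so `T π (e k i j) = ρ (e k i j) T` for all `k ≥ n`. `Re ⟪w, T v⟫ ≥ κ > 0`.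

Step 3 (`kernel`). With the matrix units `F s t = E 0 n s t` of the first `n` factors put
`T_{r,r'} = ∑ s, ρ (F s r) T π (F r' s)`. It intertwines the `F s t`, so the `e k i j` with `k < n`
(`e_eq_mat`), and also the `e k i j`, `k ≥ n`, because these commute with `F s t`. If all
`T_{r,r'} = 0` then `0 = ρ (F r t) T_{r,r'} π (F t r') = ρ (F r r) T π (F r' r')`, and the sum over
`r, r'` is `T = 0`, a contradiction. So some `T_{r,r'} ≠ 0` intertwines `π` and `ρ`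
(`intertwine_of_gen`) and Schur's lemma finishes.
-/

namespace MBS

open scoped InnerProductSpace ENNReal ComplexOrder

noncomputable section

variable {A : Type} [CStarAlgebra A] (M : MU A)
variable {H K : Type*} [NormedAddCommGroup H] [InnerProductSpace ℂ H] [CompleteSpace H]
  [NormedAddCommGroup K] [InnerProductSpace ℂ K] [CompleteSpace K]

theorem ker_mul (π : A →⋆ₐ[ℂ] (H →L[ℂ] H)) (a b : A) (x : H) : π (a * b) x = π a (π b x) := by
  rw [map_mul]; rfl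

theorem ker_adj (π : A →⋆ₐ[ℂ] (H →L[ℂ] H)) (a : A) (x y : H) :
    ⟪x, π a y⟫_ℂ = ⟪π (star a) x, y⟫_ℂ := by
  rw [map_star, ContinuousLinearMap.star_eq_adjoint, ContinuousLinearMap.adjoint_inner_left]

theorem ker_E_mul (π : A →⋆ₐ[ℂ] (H →L[ℂ] H)) (n m : ℕ) (s t s' t' : Wd m) (x : H) :
    π (M.E n m s t) (π (M.E n m s' t') x) = if t = s' then π (M.E n m s t') x else 0 := by
  rw [← ker_mul, E_mul]
  split_ifs <;> simp

/-- the averaged operator -/
def kerAv (π : A →⋆ₐ[ℂ] (H →L[ℂ] H)) (ρ : A →⋆ₐ[ℂ] (K →L[ℂ] K)) (n m : ℕ) (r r' : Wd m)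
    (T : H →L[ℂ] K) : H →L[ℂ] K :=
  ∑ s, (ρ (M.E n m s r)).comp (T.comp (π (M.E n m r' s)))

theorem kerAv_apply (π : A →⋆ₐ[ℂ] (H →L[ℂ] H)) (ρ : A →⋆ₐ[ℂ] (K →L[ℂ] K)) (n m : ℕ)
    (r r' : Wd m) (T : H →L[ℂ] K) (x : H) :
    kerAv M π ρ n m r r' T x = ∑ s, ρ (M.E n m s r) (T (π (M.E n m r' s) x)) := by
  simp [kerAv, ContinuousLinearMap.sum_apply]

theorem kerAv_right (π : A →⋆ₐ[ℂ] (H →L[ℂ] H)) (ρ : A →⋆ₐ[ℂ] (K →L[ℂ] K)) (n m : ℕ)
    (r r' : Wd m) (T : H →L[ℂ] K) (s t : Wd m) (x : H) :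
    kerAv M π ρ n m r r' T (π (M.E n m s t) x) =
      ρ (M.E n m s r) (T (π (M.E n m r' t) x)) := by
  rw [kerAv_apply, Finset.sum_eq_single s]
  · rw [ker_E_mul]; simp
  · intro u _ hu
    rw [ker_E_mul, if_neg hu]; simp
  · simp

theorem kerAv_left (π : A →⋆ₐ[ℂ] (H →L[ℂ] H)) (ρ : A →⋆ₐ[ℂ] (K →L[ℂ] K)) (n m : ℕ)
    (r r' : Wd m) (T : H →L[ℂ] K) (s t : Wd m) (x : H) :
    ρ (M.E n m s t) (kerAv M π ρ n m r r' T x) =
      ρ (M.E n m s r) (T (π (M.E n m r' t) x)) := by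
  rw [kerAv_apply, map_sum, Finset.sum_eq_single t]
  · rw [ker_E_mul]; simp
  · intro u _ hu
    rw [ker_E_mul, if_neg (Ne.symm hu)]
  · simp

theorem ker_sum_norm (π : A →⋆ₐ[ℂ] (H →L[ℂ] H)) (n m : ℕ) (r : Wd m) (x : H) :
    ∑ s, ‖π (M.E n m r s) x‖ ^ 2 = ‖x‖ ^ 2 := by
  have h : ∀ s, ((‖π (M.E n m r s) x‖ ^ 2 : ℝ) : ℂ) = ⟪x, π (M.E n m s s) x⟫_ℂ := by
    intro s
    have h1 : (⟪π (M.E n m r s) x, π (M.E n m r s) x⟫_ℂ) = ((‖π (M.E n m r s) x‖ ^ 2 : ℝ) : ℂ) := by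
      rw [inner_self_eq_norm_sq_to_K]; norm_cast
    rw [← h1, ker_adj π (M.E n m r s), star_E, ← ker_mul, E_mul, if_pos rfl]
    have h2 := ker_adj π (M.E n m s s) x x
    rw [star_E] at h2
    exact h2.symm
  have h3 : ((∑ s, ‖π (M.E n m r s) x‖ ^ 2 : ℝ) : ℂ) = ((‖x‖ ^ 2 : ℝ) : ℂ) := by
    rw [Complex.ofReal_sum]
    rw [Finset.sum_congr rfl fun s _ => h s]
    rw [← inner_sum, ← ContinuousLinearMap.sum_apply, ← map_sum, sum_E, map_one]
    rw [ContinuousLinearMap.one_apply, inner_self_eq_norm_sq_to_K]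
    norm_cast
  exact_mod_cast h3

theorem kerAv_norm (π : A →⋆ₐ[ℂ] (H →L[ℂ] H)) (ρ : A →⋆ₐ[ℂ] (K →L[ℂ] K)) (n m : ℕ)
    (r : Wd m) (T : H →L[ℂ] K) (hT : ‖T‖ ≤ 1) : ‖kerAv M π ρ n m r r T‖ ≤ 1 := by
  refine ContinuousLinearMap.opNorm_le_bound _ zero_le_one fun x => ?_
  rw [one_mul]
  have hp : ∀ y : K, ‖ρ (M.E n m r r) y‖ ≤ ‖y‖ := by
    intro y
    have h1 := ker_sum_norm M ρ n m r y
    have h2 : ‖ρ (M.E n m r r) y‖ ^ 2 ≤ ∑ s, ‖ρ (M.E n m r s) y‖ ^ 2 :=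
      Finset.single_le_sum (f := fun s => ‖ρ (M.E n m r s) y‖ ^ 2) (fun _ _ => by positivity)
        (Finset.mem_univ r)
    rw [h1] at h2
    exact le_of_sq_le_sq h2 (norm_nonneg _)
  have key : ‖kerAv M π ρ n m r r T x‖ ^ 2 ≤ ‖x‖ ^ 2 := by
    rw [← ker_sum_norm M ρ n m r (kerAv M π ρ n m r r T x), ← ker_sum_norm M π n m r x]
    refine Finset.sum_le_sum fun s _ => ?_
    rw [kerAv_left]
    gcongr
    refine (hp _).trans ?_
    exact (T.le_opNorm _).trans (mul_le_of_le_one_left (norm_nonneg _) hT)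
  exact le_of_sq_le_sq key (norm_nonneg _)

theorem block_intertwiner (π : A →⋆ₐ[ℂ] (H →L[ℂ] H)) (ρ : A →⋆ₐ[ℂ] (K →L[ℂ] K)) (v : H) (w : K)
    (n m : ℕ) :
    ∃ T : H →L[ℂ] K, ‖T‖ ≤ 1 ∧
      (∀ s t x, T (π (M.E n m s t) x) = ρ (M.E n m s t) (T x)) ∧
      ⟪w, T v⟫_ℂ = (msqrt (densV M π v n m) * msqrt (densV M ρ w n m)).trace := by
  set r : Wd m := fun _ => false
  have hD := densV_posSemidef M π v n m
  have hD' := densV_posSemidef M ρ w n m
  obtain ⟨T0, hT0, hsum⟩ := polar (fun s => π (M.E n m r s) v) (fun s => ρ (M.E n m r s) w)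
    (msqrt (densV M π v n m)).transpose (msqrt (densV M ρ w n m)).transpose
    (msqrt_posSemidef hD).transpose (msqrt_posSemidef hD').transpose
    (by
      intro s t
      rw [← Matrix.transpose_mul, msqrt_mul_self hD, Matrix.transpose_apply,
        densV_eq_inner M π v n m r])
    (by
      intro s t
      rw [← Matrix.transpose_mul, msqrt_mul_self hD', Matrix.transpose_apply,
        densV_eq_inner M ρ w n m r])
  refine ⟨kerAv M π ρ n m r r T0, kerAv_norm M π ρ n m r T0 hT0, ?_, ?_⟩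
  · intro s t x
    rw [kerAv_right, kerAv_left]
  · rw [kerAv_apply, inner_sum]
    rw [← Matrix.transpose_mul, Matrix.trace_transpose] at hsum
    rw [← hsum]
    refine Finset.sum_congr rfl fun s _ => ?_
    rw [ker_adj, star_E]

theorem ker_mat (π : A →⋆ₐ[ℂ] (H →L[ℂ] H)) (ρ : A →⋆ₐ[ℂ] (K →L[ℂ] K)) (n m : ℕ)
    (T : H →L[ℂ] K) (hT : ∀ s t x, T (π (M.E n m s t) x) = ρ (M.E n m s t) (T x))
    (c : Matrix (Wd m) (Wd m) ℂ) (x : H) :
    T (π (M.mat n m c) x) = ρ (M.mat n m c) (T x) := by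
  unfold MU.mat
  simp only [map_sum, map_smul, ContinuousLinearMap.sum_apply, ContinuousLinearMap.smul_apply, hT]

theorem tail_intertwiner (π : A →⋆ₐ[ℂ] (H →L[ℂ] H)) (ρ : A →⋆ₐ[ℂ] (K →L[ℂ] K)) (v : H) (w : K)
    (n : ℕ) (κ : ℝ) (hκ : 0 < κ)
    (hinf : ∃ᶠ m in Filter.atTop,
      κ ≤ ((msqrt (densV M π v n m) * msqrt (densV M ρ w n m)).trace).re) :
    ∃ T : H →L[ℂ] K, T ≠ 0 ∧
      ∀ k, n ≤ k → ∀ i j x, T (π (M.e k i j) x) = ρ (M.e k i j) (T x) := by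
  choose T hT1 hT2 hT3 using block_intertwiner M π ρ v w n
  set S : Set ℕ := {m | κ ≤ ((msqrt (densV M π v n m) * msqrt (densV M ρ w n m)).trace).re}
  have hne : Filter.NeBot (Filter.atTop ⊓ Filter.principal S) :=
    Filter.frequently_mem_iff_neBot.1 hinf
  set U : Ultrafilter ℕ := @Ultrafilter.of ℕ (Filter.atTop ⊓ Filter.principal S) hne
  have hU : (U : Filter ℕ) ≤ Filter.atTop ⊓ Filter.principal S := Ultrafilter.of_le _
  obtain ⟨T', hT'⟩ := exists_wot_lim U T 1 hT1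
  refine ⟨T', ?_, ?_⟩
  · intro h0
    have h1 := hT' v w
    rw [h0] at h1
    simp only [ContinuousLinearMap.zero_apply, inner_zero_right] at h1
    have h2 : Filter.Tendsto (fun m => (⟪w, T m v⟫_ℂ).re) (U : Filter ℕ) (nhds (0 : ℂ).re) :=
      (Complex.continuous_re.tendsto _).comp h1
    have h3 : ∀ᶠ m in (U : Filter ℕ), κ ≤ (⟪w, T m v⟫_ℂ).re := by
      have hS : S ∈ (U : Filter ℕ) := hU (Filter.mem_inf_of_right (Filter.mem_principal_self S))
      filter_upwards [hS] with m hm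
      rw [hT3]
      exact hm
    have h4 := ge_of_tendsto h2 h3
    simp at h4
    linarith
  · intro k hk i j x
    refine ext_inner_left ℂ fun y => ?_
    have h1 := hT' (π (M.e k i j) x) y
    have h2 := hT' x (ρ (star (M.e k i j)) y)
    rw [← ker_adj] at h2
    refine tendsto_nhds_unique h1 (h2.congr' ?_)
    have h3 : ∀ᶠ m in (U : Filter ℕ), k < n + m := by
      have : ∀ᶠ m in Filter.atTop, k < n + m := by
        filter_upwards [Filter.eventually_gt_atTop k] with m hm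
        omega
      exact (hU.trans inf_le_left) this
    filter_upwards [h3] with m hm
    obtain ⟨c, hc⟩ := e_eq_mat M n m k hk hm i j
    rw [← ker_adj, hc, ker_mat M π ρ n m (T m) (hT2 m)]

theorem kernel (hM : M.Gen) {π : A →⋆ₐ[ℂ] (H →L[ℂ] H)} {ρ : A →⋆ₐ[ℂ] (K →L[ℂ] K)}
    (hπ : IsIrred π) (hρ : IsIrred ρ) (v : H) (w : K) (n : ℕ) (κ : ℝ) (hκ : 0 < κ)
    (hinf : ∃ᶠ m in Filter.atTop,
      κ ≤ ((msqrt (densV M π v n m) * msqrt (densV M ρ w n m)).trace).re) :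
    ∃ U : H ≃ₗᵢ[ℂ] K, ∀ a x, U (π a x) = ρ a (U x) := by
  obtain ⟨T, hT0, hT⟩ := tail_intertwiner M π ρ v w n κ hκ hinf
  have hex : ∃ r r' : Wd n, kerAv M π ρ 0 n r r' T ≠ 0 := by
    by_contra hcon
    push Not at hcon
    apply hT0
    have h1 : ∀ (r r' : Wd n) (x : H), ρ (M.E 0 n r r) (T (π (M.E 0 n r' r') x)) = 0 := by
      intro r r' x
      have h2 := kerAv_left M π ρ 0 n r r' T r r' x
      rw [hcon r r'] at h2
      simpa using h2.symm
    ext x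
    have h2 : ∑ r, ∑ r', ρ (M.E 0 n r r) (T (π (M.E 0 n r' r') x)) = T x := by
      have h3 : ∀ r : Wd n, ∑ r', ρ (M.E 0 n r r) (T (π (M.E 0 n r' r') x)) =
          ρ (M.E 0 n r r) (T x) := by
        intro r
        rw [← map_sum, ← map_sum, ← ContinuousLinearMap.sum_apply, ← map_sum, sum_E, map_one]
        rfl
      rw [Finset.sum_congr rfl fun r _ => h3 r, ← ContinuousLinearMap.sum_apply, ← map_sum, sum_E,
        map_one]
      rfl
    rw [← h2]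
    simp [h1]
  obtain ⟨r, r', hne⟩ := hex
  refine schur_equiv hπ hρ (kerAv M π ρ 0 n r r' T) hne ?_
  refine intertwine_of_gen M hM π ρ _ ?_
  intro k i j x
  by_cases hk : k < n
  · obtain ⟨c, hc⟩ := e_eq_mat M 0 n k (Nat.zero_le _) (by omega) i j
    rw [hc]
    refine ker_mat M π ρ 0 n _ ?_ c x
    intro s t y
    rw [kerAv_right, kerAv_left]
  · push Not at hk
    rw [kerAv_apply, kerAv_apply, map_sum]
    refine Finset.sum_congr rfl fun s _ => ?_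
    have hc := fun (s t : Wd n) => E_comm_e M 0 n s t k (Or.inr (by omega)) i j
    rw [← ker_mul, hc, ker_mul, hT k hk, ← ker_mul, hc, ker_mul]

end

end MBS
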