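import Pool.Agent.MBS.CoreA
import Pool.Agent.MBS.CoreB
import Pool.Agent.MBS.Kernel

/-!
# Core : a measurable almost invariant map into `Irr A` is constant on a set of positive measure,
up to unitary equivalence

Take `n` from `coreA` (for `S` and `T`) with `ε = 1/64`. `coreB` for `P x = Phi M n m (F x)`:
`3/4 ≤ ∫∫ κ m x y`, `κ m x y = Re tr (Phi n m (F x) * Phi n m (F y)) ∈ [0, 1]`, for every `m`. So the
measurable set `V m = {(x, y) | 1/4 ≤ κ m x y}` has `(μ.prod μ) (V m) ≥ 1/2`
(`∫∫ κ ≤ 1/4 + (μ.prod μ) (V m)`, `integral_prod`). The set `V = {(x, y) | infinitely many m with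
(x, y) ∈ V m} = ⋂ k, ⋃ m ≥ k, V m` has measure `≥ 1/2` (continuity from above of the finite measure).
So some section `{x | (x, y) ∈ V}` has positive measure (`Measure.measure_prod_null` or
`ae`-version), and for its points `kernel` gives `UEquiv (F x) (F y)`.
-/

namespace MBS

open scoped InnerProductSpace ENNReal ComplexOrder
open MeasureTheory

noncomputable section

/-- the general measure theory part of `core` -/
theorem core_measure {X : Type} [MeasurableSpace X] (μ : Measure X) [IsProbabilityMeasure μ]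
    (κ : ℕ → X × X → ℝ) (hκ : ∀ m, Measurable (κ m)) (h0 : ∀ m p, 0 ≤ κ m p)
    (h1 : ∀ m p, κ m p ≤ 1) (hint : ∀ m, (3 / 4 : ℝ) ≤ ∫ x, ∫ y, κ m (x, y) ∂μ ∂μ) :
    ∃ y : X, ∃ V : Set X, MeasurableSet V ∧ 0 < μ V ∧
      ∀ x ∈ V, ∃ᶠ m in Filter.atTop, (1 / 4 : ℝ) ≤ κ m (x, y) := by
  set W : ℕ → Set (X × X) := fun m => {p | (1 / 4 : ℝ) ≤ κ m p} with hW
  have hWm : ∀ m, MeasurableSet (W m) := fun m => measurableSet_le measurable_const (hκ m)
  have hWi : ∀ m, ENNReal.ofReal (1 / 2) ≤ (μ.prod μ) (W m) := by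
    intro m
    have hi : Integrable (κ m) (μ.prod μ) := by
      refine Integrable.of_bound (hκ m).aestronglyMeasurable 1
        (Filter.Eventually.of_forall fun p => ?_)
      rw [Real.norm_eq_abs, abs_of_nonneg (h0 m p)]
      exact h1 m p
    have h2 : ∫ p, κ m p ∂(μ.prod μ) = ∫ x, ∫ y, κ m (x, y) ∂μ ∂μ := integral_prod _ hi
    have h3 : ∫ p, κ m p ∂(μ.prod μ) ≤
        ∫ p, ((1 / 4 : ℝ) + (W m).indicator (fun _ => (1 : ℝ)) p) ∂(μ.prod μ) := by
      refine integral_mono hi ?_ fun p => ?_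
      · exact (integrable_const _).add ((integrable_const _).indicator (hWm m))
      · by_cases hp : p ∈ W m
        · simp only [Set.indicator_of_mem hp]
          linarith [h1 m p]
        · simp only [Set.indicator_of_notMem hp]
          have : κ m p < 1 / 4 := not_le.1 hp
          linarith
    rw [integral_add (integrable_const _) ((integrable_const _).indicator (hWm m)),
      integral_const, integral_indicator (hWm m), setIntegral_const] at h3
    simp only [probReal_univ, smul_eq_mul, one_mul, mul_one] at h3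
    have h4 : (1 / 2 : ℝ) ≤ (μ.prod μ).real (W m) := by
      have := hint m
      linarith
    rw [Measure.real] at h4
    exact (ENNReal.ofReal_le_iff_le_toReal (measure_ne_top _ _)).2 h4
  set V : Set (X × X) := Filter.limsup W Filter.atTop with hV
  have hVm : MeasurableSet V := MeasurableSet.measurableSet_limsup hWm
  have hVpos : ENNReal.ofReal (1 / 2) ≤ (μ.prod μ) V := by
    have hV2 : V = ⋂ k, ⋃ i, ⋃ _ : k ≤ i, W i := by
      rw [hV, Filter.limsup_eq_iInf_iSup_of_nat]
      rfl
    rw [hV2]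
    have hanti : Antitone (fun k => ⋃ i, ⋃ _ : k ≤ i, W i) := by
      intro a b hab
      refine Set.iUnion_mono fun i => ?_
      exact Set.iUnion_subset fun hi => Set.subset_iUnion_of_subset (hab.trans hi) subset_rfl
    rw [hanti.measure_iInter (fun k => (MeasurableSet.iUnion fun i =>
      MeasurableSet.iUnion fun _ => hWm i).nullMeasurableSet) ⟨0, measure_ne_top _ _⟩]
    refine le_iInf fun k => (hWi k).trans (measure_mono ?_)
    exact Set.subset_iUnion₂_of_subset k le_rfl subset_rfl
  have hVne : (μ.prod μ) V ≠ 0 := by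
    intro h
    rw [h] at hVpos
    have : (0 : ℝ≥0∞) < ENNReal.ofReal (1 / 2) := ENNReal.ofReal_pos.2 (by norm_num)
    exact absurd hVpos (not_le.2 this)
  rw [Measure.prod_apply_symm hVm] at hVne
  have hex : ∃ y, μ ((fun x => (x, y)) ⁻¹' V) ≠ 0 := by
    by_contra hcon
    push Not at hcon
    apply hVne
    simp [hcon]
  obtain ⟨y, hy⟩ := hex
  refine ⟨y, (fun x => (x, y)) ⁻¹' V, measurable_prodMk_right hVm, pos_iff_ne_zero.2 hy, ?_⟩
  intro x hx
  have hx' : (x, y) ∈ Filter.limsup W Filter.atTop := hx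
  rw [Filter.mem_limsup_iff_frequently_mem] at hx'
  exact hx'

variable {A : Type} [CStarAlgebra A] (M : MU A)

theorem core (hM : M.Gen) {X : Type} [MeasurableSpace X] (μ : Measure X)
    [IsProbabilityMeasure μ] (S T : X → X) (hS : Measurable S) (hT : Measurable T)
    (hgap : GapIneq μ S T) (F : X → Irr A) (hF : Measurable F)
    (hFS : ∀ᵐ x ∂μ, UEquiv (F (S x)) (F x)) (hFT : ∀ᵐ x ∂μ, UEquiv (F (T x)) (F x)) :
    ∃ y : X, ∃ V : Set X, MeasurableSet V ∧ 0 < μ V ∧ ∀ x ∈ V, UEquiv (F x) (F y) := by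
  obtain ⟨N1, hN1⟩ := coreA M hM μ S hS F hF hFS (1 / 64) (by norm_num)
  obtain ⟨N2, hN2⟩ := coreA M hM μ T hT F hF hFT (1 / 64) (by norm_num)
  set n := max N1 N2 with hn
  have hPm : ∀ m i j, Measurable (fun x => Phi M n m (F x) i j) := fun m i j =>
    (Phi_continuous M n m i j).measurable.comp hF
  have hκm : ∀ m, Measurable (fun p : X × X =>
      ((Phi M n m (F p.1) * Phi M n m (F p.2)).trace).re) := by
    intro m
    simp only [Matrix.trace, Matrix.diag, Matrix.mul_apply]
    refine Complex.measurable_re.comp ?_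
    refine Finset.measurable_sum _ fun i _ => Finset.measurable_sum _ fun j _ => ?_
    exact ((hPm m i j).comp measurable_fst).mul ((hPm m j i).comp measurable_snd)
  have hint : ∀ m, (3 / 4 : ℝ) ≤
      ∫ x, ∫ y, ((Phi M n m (F x) * Phi M n m (F y)).trace).re ∂μ ∂μ := by
    intro m
    have h1 := coreB μ S T hS hT hgap (fun x => Phi M n m (F x)) (hPm m)
      (fun x => (Phi_posSemidef M n m (F x)).1) (fun x => hs_Phi M n m (F x)) (1 / 64)
      (hN1 n (le_max_left _ _) m) (hN2 n (le_max_right _ _) m)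
    norm_num at h1 ⊢
    exact h1
  obtain ⟨y, V, hV1, hV2, hV3⟩ := core_measure μ
    (fun m p => ((Phi M n m (F p.1) * Phi M n m (F p.2)).trace).re) hκm
    (fun m p => overlap_nonneg M n m _ _) (fun m p => overlap_le_one M n m _ _) hint
  exact ⟨y, V, hV1, hV2, fun x hx => kernel M hM (F x).2.2 (F y).2.2 (vac (F x).1) (vac (F y).1)
    n (1 / 4) (by norm_num) (hV3 x hx)⟩

end

end MBS
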