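import Pool.Agent.MBS.PhiCont
import Pool.Agent.MBS.CubeDef

/-!
# CoreA : almost invariance in the mean, uniformly in the length of the block

`g n x = ⨆ m, ENNReal.ofReal (hs (Phi n m (F (S x)) - Phi n m (F x)))` is measurable
(`Phi_continuous`, `hF`, a countable supremum), bounded by `4` (`hs (X - Y) ≤ 2 hs X + 2 hs Y`,
`hs_Phi`), and `g n x → 0` a.e. (`phi_small`). Dominated convergence
(`tendsto_lintegral_of_dominated_convergence`): `∫⁻ g n → 0`.
-/

namespace MBS

open scoped InnerProductSpace ENNReal ComplexOrder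
open MeasureTheory

noncomputable section

variable {A : Type} [CStarAlgebra A] (M : MU A)

theorem coreA_hs_nonneg {ι : Type} [Fintype ι] (P : Matrix ι ι ℂ) : 0 ≤ hs P :=
  Finset.sum_nonneg fun _ _ => Finset.sum_nonneg fun _ _ => sq_nonneg _

theorem hs_sub_le_four (n m : ℕ) (σ τ : Irr A) : hs (Phi M n m σ - Phi M n m τ) ≤ 4 := by
  have h1 := hs_Phi M n m σ
  have h2 := hs_Phi M n m τ
  have h3 : hs (Phi M n m σ - Phi M n m τ) ≤ 2 * hs (Phi M n m σ) + 2 * hs (Phi M n m τ) := by
    simp only [hs]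
    rw [Finset.mul_sum, Finset.mul_sum, ← Finset.sum_add_distrib]
    refine Finset.sum_le_sum fun i _ => ?_
    rw [Finset.mul_sum, Finset.mul_sum, ← Finset.sum_add_distrib]
    refine Finset.sum_le_sum fun j _ => ?_
    rw [Matrix.sub_apply]
    have h4 := norm_sub_le (Phi M n m σ i j) (Phi M n m τ i j)
    have h5 := norm_nonneg (Phi M n m σ i j - Phi M n m τ i j)
    nlinarith [sq_nonneg (‖Phi M n m σ i j‖ - ‖Phi M n m τ i j‖),
      norm_nonneg (Phi M n m σ i j), norm_nonneg (Phi M n m τ i j)]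
  linarith

theorem measurable_hs_sub (n m : ℕ) {X : Type} [MeasurableSpace X] (F G : X → Irr A)
    (hF : Measurable F) (hG : Measurable G) :
    Measurable (fun x => hs (Phi M n m (F x) - Phi M n m (G x))) := by
  simp only [hs, Matrix.sub_apply]
  refine Finset.measurable_sum _ fun i _ => Finset.measurable_sum _ fun j _ => ?_
  have h1 : Measurable (fun x => Phi M n m (F x) i j) :=
    (Phi_continuous M n m i j).measurable.comp hF
  have h2 : Measurable (fun x => Phi M n m (G x) i j) :=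
    (Phi_continuous M n m i j).measurable.comp hG
  exact ((h1.sub h2).norm).pow_const 2

theorem coreA (hM : M.Gen) {X : Type} [MeasurableSpace X] (μ : Measure X)
    [IsProbabilityMeasure μ] (S : X → X) (hS : Measurable S) (F : X → Irr A) (hF : Measurable F)
    (hFS : ∀ᵐ x ∂μ, UEquiv (F (S x)) (F x)) (ε : ℝ) (hε : 0 < ε) :
    ∃ N : ℕ, ∀ n, N ≤ n → ∀ m, ∫ x, hs (Phi M n m (F (S x)) - Phi M n m (F x)) ∂μ ≤ ε := by
  have hmeas : ∀ n m, Measurable (fun x => hs (Phi M n m (F (S x)) - Phi M n m (F x))) :=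
    fun n m => measurable_hs_sub M n m (fun x => F (S x)) F (hF.comp hS) hF
  set g : ℕ → X → ℝ≥0∞ := fun n x =>
    ⨆ m, ENNReal.ofReal (hs (Phi M n m (F (S x)) - Phi M n m (F x))) with hg
  have hgm : ∀ n, Measurable (g n) := fun n =>
    Measurable.iSup fun m => (hmeas n m).ennreal_ofReal
  have hlim : ∀ᵐ x ∂μ, Filter.Tendsto (fun n => g n x) Filter.atTop (nhds 0) := by
    filter_upwards [hFS] with x hx
    rw [ENNReal.tendsto_atTop_zero]
    intro δ hδ
    by_cases htop : δ = ⊤
    · exact ⟨0, fun n _ => by rw [htop]; exact le_top⟩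
    have hδ' : 0 < δ.toReal := ENNReal.toReal_pos hδ.ne' htop
    obtain ⟨N, hN⟩ := phi_small M hM (F (S x)) (F x) hx δ.toReal hδ'
    refine ⟨N, fun n hn => iSup_le fun m => ?_⟩
    rw [← ENNReal.ofReal_toReal htop]
    exact ENNReal.ofReal_le_ofReal (hN n hn m)
  have hdc : Filter.Tendsto (fun n => ∫⁻ x, g n x ∂μ) Filter.atTop
      (nhds (∫⁻ _, (0 : ℝ≥0∞) ∂μ)) := by
    refine tendsto_lintegral_of_dominated_convergence (fun _ => ENNReal.ofReal 4) hgm
      (fun n => Filter.Eventually.of_forall fun x => iSup_le fun m =>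
        ENNReal.ofReal_le_ofReal (hs_sub_le_four M n m _ _)) ?_ hlim
    rw [lintegral_const, measure_univ, mul_one]
    exact ENNReal.ofReal_ne_top
  rw [lintegral_zero, ENNReal.tendsto_atTop_zero] at hdc
  obtain ⟨N, hN⟩ := hdc (ENNReal.ofReal ε) (ENNReal.ofReal_pos.2 hε)
  refine ⟨N, fun n hn m => ?_⟩
  rw [integral_eq_lintegral_of_nonneg_ae (Filter.Eventually.of_forall fun x => coreA_hs_nonneg _)
    (hmeas n m).aestronglyMeasurable]
  refine ENNReal.toReal_le_of_le_ofReal hε.le (le_trans (lintegral_mono fun x => ?_) (hN n hn))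
  exact le_iSup (fun m => ENNReal.ofReal (hs (Phi M n m (F (S x)) - Phi M n m (F x)))) m

end

end MBS
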