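import Mathlib

/-!
# MP_1ac9dc_an : Mackey Borel spectra, definitions

* `IsIrred`, `IrrN A n`, `Irr A`, `UEquiv`, `Spec A` : irreducible representations, the Mackey
  Borel structure.
* `MU A`, `IsCAR A` : commuting systems of 2x2 matrix units.
* `L2 G`, `perm`, `mulOp` : the Hilbert space l^2(G), permutation unitaries, multiplication
  operators.
* `Big G X`, `Red G X` : the reduced crossed product C(X) x_r G, as the closed *-algebra of
  bounded functions on (discrete) X with values in B(l^2 G), generated by functions and by the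
  left translations.
-/

namespace MBS

open scoped InnerProductSpace ENNReal
open MeasureTheory TopologicalSpace

noncomputable section

/-! ## Representations -/

/-- The possible (Hilbert space) dimensions `1, 2, ..., ∞` : `some n` is `n + 1`, `none` is the
countably infinite dimension. -/
abbrev Dim := Option ℕ

/-- index set of the standard basis -/
def Idx : Dim → Type
  | some n => Fin (n + 1)
  | none => ℕ

instance (n : Dim) : Countable (Idx n) := by
  cases n with
  | none => exact inferInstanceAs (Countable ℕ)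
  | some n => exact inferInstanceAs (Countable (Fin (n + 1)))

/-- the first basis index -/
def idx0 : (n : Dim) → Idx n
  | some _ => (0 : Fin (_ + 1))
  | none => (0 : ℕ)

/-- The fixed Hilbert space of dimension `n` : square summable functions on `Idx n`. -/
abbrev HSp (n : Dim) : Type := lp (fun _ : Idx n => ℂ) 2

/-- The (unital *-) representations of `A` on the Hilbert space `H`. -/
abbrev Rep (A H : Type*) [CStarAlgebra A] [NormedAddCommGroup H] [InnerProductSpace ℂ H]
    [CompleteSpace H] : Type _ := A →⋆ₐ[ℂ] (H →L[ℂ] H)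

section Rep

variable {A H K : Type*} [CStarAlgebra A] [NormedAddCommGroup H] [InnerProductSpace ℂ H]
    [CompleteSpace H] [NormedAddCommGroup K] [InnerProductSpace ℂ K] [CompleteSpace K]

/-- The operator `π(a)`, applied to the vector `v`. -/
def opr (π : Rep A H) (a : A) (v : H) : H := π a v

/-- The representation `π` of `A` on the Hilbert space `H` is irreducible: there are no closed
invariant subspaces besides `0` and `H`. -/
def IsIrred (π : Rep A H) : Prop :=
  ∀ K : Submodule ℂ H, IsClosed (K : Set H) → (∀ a, ∀ v ∈ K, opr π a v ∈ K) → K = ⊥ ∨ K = ⊤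

/-- The matrix coefficient `⟪v, π(a) w⟫` at the triple `(a, v, w)`. -/
def coeff (π : Rep A H) (p : A × H × H) : ℂ := ⟪p.2.1, opr π p.1 p.2.2⟫_ℂ

/-- Unitary equivalence of two representations. -/
def RepEquiv (π : Rep A H) (ρ : Rep A K) : Prop :=
  ∃ U : H ≃ₗᵢ[ℂ] K, ∀ (a : A) (v : H), U (opr π a v) = opr ρ a (U v)

end Rep

/-- The representations of `A` on the fixed Hilbert space of dimension `n`. -/
abbrev RepN (A : Type) [CStarAlgebra A] (n : Dim) : Type := Rep A (HSp n)

/-- Irreducibility of a representation on the fixed Hilbert space of dimension `n`. -/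
def IsIrredN {A : Type} [CStarAlgebra A] (n : Dim) (π : RepN A n) : Prop := IsIrred π

/-- Unitary equivalence of representations on the fixed Hilbert spaces. -/
def RepEquivN {A : Type} [CStarAlgebra A] (n m : Dim) (π : RepN A n) (ρ : RepN A m) : Prop :=
  RepEquiv π ρ

/-- The matrix coefficients of a representation on a fixed Hilbert space. -/
def coeffN {A : Type} [CStarAlgebra A] (n : Dim) (π : RepN A n) : A × HSp n × HSp n → ℂ :=
  coeff π

/-- `Irr_n(A)` -/
def IrrN (A : Type) [CStarAlgebra A] (n : Dim) : Type := {π : RepN A n // IsIrredN n π}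

/-- The topology of pointwise weak operator convergence on `Irr_n(A)`, the weakest topology for
which all matrix coefficients are continuous. -/
instance (A : Type) [CStarAlgebra A] (n : Dim) : TopologicalSpace (IrrN A n) :=
  TopologicalSpace.induced (fun π : IrrN A n => coeffN n π.1) Pi.topologicalSpace

/-- `Irr(A)`, the disjoint union of the `Irr_n(A)`. -/
def Irr (A : Type) [CStarAlgebra A] : Type := Σ n : Dim, IrrN A n

instance (A : Type) [CStarAlgebra A] : TopologicalSpace (Irr A) :=
  inferInstanceAs (TopologicalSpace (Σ n : Dim, IrrN A n))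

instance (A : Type) [CStarAlgebra A] : MeasurableSpace (Irr A) := borel _

instance (A : Type) [CStarAlgebra A] : BorelSpace (Irr A) := ⟨rfl⟩

/-- unitary equivalence of irreducible representations -/
def UEquiv {A : Type} [CStarAlgebra A] (σ τ : Irr A) : Prop := RepEquivN σ.1 τ.1 σ.2.1 τ.2.1

theorem UEquiv.refl {A : Type} [CStarAlgebra A] (σ : Irr A) : UEquiv σ σ :=
  ⟨LinearIsometryEquiv.refl ℂ _, fun _ _ => rfl⟩

theorem UEquiv.symm {A : Type} [CStarAlgebra A] {σ τ : Irr A} (h : UEquiv σ τ) :
    UEquiv τ σ := by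
  obtain ⟨U, hU⟩ := h
  refine ⟨U.symm, fun a v => ?_⟩
  apply U.injective
  rw [hU]; simp

theorem UEquiv.trans {A : Type} [CStarAlgebra A] {σ τ ρ : Irr A} (h : UEquiv σ τ)
    (h' : UEquiv τ ρ) : UEquiv σ ρ := by
  obtain ⟨U, hU⟩ := h
  obtain ⟨V, hV⟩ := h'
  refine ⟨U.trans V, fun a v => ?_⟩
  simp [hU, hV]

/-- unitary equivalence as a setoid -/
def irrSetoid (A : Type) [CStarAlgebra A] : Setoid (Irr A) where
  r := UEquiv
  iseqv := ⟨UEquiv.refl, UEquiv.symm, UEquiv.trans⟩

/-- The spectrum of `A` : the set of unitary equivalence classes of irreducible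
representations. -/
def Spec (A : Type) [CStarAlgebra A] : Type := Quotient (irrSetoid A)

/-- the class of an irreducible representation -/
def toSpec {A : Type} [CStarAlgebra A] (σ : Irr A) : Spec A := Quotient.mk (irrSetoid A) σ

/-- The Mackey Borel structure: `E` is measurable iff its preimage in `Irr A` is Borel. -/
instance (A : Type) [CStarAlgebra A] : MeasurableSpace (Spec A) :=
  MeasurableSpace.map toSpec inferInstance

theorem toSpec_eq_iff {A : Type} [CStarAlgebra A] (σ τ : Irr A) :
    toSpec σ = toSpec τ ↔ UEquiv σ τ :=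
  Quotient.eq (r := irrSetoid A)

theorem measurableSet_spec_iff {A : Type} [CStarAlgebra A] (E : Set (Spec A)) :
    MeasurableSet E ↔ MeasurableSet (toSpec ⁻¹' E) := Iff.rfl

/-! ## Matrix units, the CAR algebra -/

/-- A sequence of commuting unital copies of the algebra of 2x2 matrices. -/
structure MU (A : Type) [CStarAlgebra A] where
  /-- the matrix units of the `k`-th copy -/
  e : ℕ → Bool → Bool → A
  mul_same : ∀ k i j l m, e k i j * e k l m = if j = l then e k i m else 0
  star_e : ∀ k i j, star (e k i j) = e k j i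
  sum_one : ∀ k, e k false false + e k true true = 1
  comm : ∀ k l, k ≠ l → ∀ i j m n, e k i j * e l m n = e l m n * e k i j

/-- The copies of the 2x2 matrices generate `A`. -/
def MU.Gen {A : Type} [CStarAlgebra A] (M : MU A) : Prop :=
  Dense (Algebra.adjoin ℂ {a : A | ∃ k i j, a = M.e k i j} : Set A)

/-- `A` is the CAR algebra (the UHF algebra of type 2^∞): it is generated by a sequence of
commuting copies of the algebra of 2x2 matrices (with the same unit). -/
def IsCAR (A : Type) [CStarAlgebra A] : Prop := ∃ M : MU A, M.Gen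

/-- The matrix units of the tensor product of the copies `n, ..., n + m - 1`. -/
def MU.E {A : Type} [CStarAlgebra A] (M : MU A) (n : ℕ) :
    (m : ℕ) → (Fin m → Bool) → (Fin m → Bool) → A
  | 0, _, _ => 1
  | m + 1, s, t => M.E n m (fun i => s i.castSucc) (fun i => t i.castSucc) *
      M.e (n + m) (s (Fin.last m)) (t (Fin.last m))

/-! ## Hilbert space l^2(G) -/

/-- l^2(G) -/
abbrev L2 (G : Type) : Type := lp (fun _ : G => ℂ) 2

/-- standard basis vector -/
def δ {G : Type} (g : G) : L2 G := by
  classical exact lp.single 2 g (1 : ℂ)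

theorem memlp_comp {G G' : Type} (e : G' ≃ G) (ξ : L2 G) :
    Memℓp (fun g' : G' => (ξ (e g') : ℂ)) 2 := by
  have h := lp.memℓp ξ
  have h2 : (0 : ℝ) < (2 : ℝ≥0∞).toReal := by norm_num
  rw [memℓp_gen_iff h2] at h ⊢
  exact (e.summable_iff (f := fun g => ‖(ξ g : ℂ)‖ ^ (2 : ℝ≥0∞).toReal)).2 h

/-- The unitary of l^2 which permutes the basis vectors: `δ g ↦ δ (e g)`. -/
def perm {G G' : Type} (e : G ≃ G') : L2 G ≃ₗᵢ[ℂ] L2 G' where
  toFun ξ := ⟨fun g' => ξ (e.symm g'), memlp_comp e.symm ξ⟩
  invFun ξ := ⟨fun g => ξ (e g), memlp_comp e ξ⟩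
  left_inv ξ := by ext g; simp
  right_inv ξ := by ext g; simp
  map_add' ξ η := by ext g; simp
  map_smul' c ξ := by ext g; simp
  norm_map' ξ := by
    have h2 : (0 : ℝ) < (2 : ℝ≥0∞).toReal := by norm_num
    rw [lp.norm_eq_tsum_rpow h2, lp.norm_eq_tsum_rpow h2]
    congr 1
    exact e.symm.tsum_eq (f := fun g => ‖(ξ g : ℂ)‖ ^ (2 : ℝ≥0∞).toReal)

@[simp] theorem perm_apply {G G' : Type} (e : G ≃ G') (ξ : L2 G) (g' : G') :
    (perm e ξ : L2 G') g' = ξ (e.symm g') := rfl

theorem perm_δ {G G' : Type} (e : G ≃ G') (g : G) : perm e (δ g) = δ (e g) := by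
  classical
  ext g'
  rw [perm_apply]
  simp only [δ, lp.single_apply, Pi.single_apply]
  by_cases h : g' = e g
  · subst h; simp
  · have : e.symm g' ≠ g := fun hh => h (by rw [← hh]; simp)
    simp [h, this]

theorem memlp_mul {G : Type} (m : G → ℂ) (C : ℝ) (hC : ∀ g, ‖m g‖ ≤ C) (ξ : L2 G) :
    Memℓp (fun g : G => m g * (ξ g : ℂ)) 2 := by
  have h := lp.memℓp ξ
  have h2 : (0 : ℝ) < (2 : ℝ≥0∞).toReal := by norm_num
  rw [memℓp_gen_iff h2] at h ⊢
  refine Summable.of_nonneg_of_le (fun g => by positivity) (fun g => ?_)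
    (h.mul_left (|C| ^ (2 : ℝ≥0∞).toReal))
  rw [← Real.mul_rpow (abs_nonneg _) (norm_nonneg _)]
  refine Real.rpow_le_rpow (norm_nonneg _) ?_ h2.le
  rw [norm_mul]
  exact mul_le_mul_of_nonneg_right ((hC g).trans (le_abs_self C)) (norm_nonneg _)

/-- multiplication operator by a bounded function -/
def mulOp {G : Type} (m : G → ℂ) (C : ℝ) (hC : ∀ g, ‖m g‖ ≤ C) : L2 G →L[ℂ] L2 G :=
  LinearMap.mkContinuous
    { toFun := fun ξ => ⟨fun g => m g * ξ g, memlp_mul m C hC ξ⟩
      map_add' := fun ξ η => by ext g; simp [mul_add]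
      map_smul' := fun c ξ => by ext g; simp [mul_left_comm] } |C| (by
    intro ξ
    have h2 : (0 : ℝ) < (2 : ℝ≥0∞).toReal := by norm_num
    refine lp.norm_le_of_tsum_le h2 (by positivity) ?_
    rw [Real.mul_rpow (abs_nonneg _) (norm_nonneg _), lp.norm_rpow_eq_tsum h2, ← tsum_mul_left]
    refine Summable.tsum_le_tsum (fun g => ?_) ((memℓp_gen_iff h2).1 (memlp_mul m C hC ξ))
      (((memℓp_gen_iff h2).1 (lp.memℓp ξ)).mul_left _)
    rw [← Real.mul_rpow (abs_nonneg _) (norm_nonneg _)]
    refine Real.rpow_le_rpow (norm_nonneg _) ?_ h2.le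
    show ‖m g * ξ g‖ ≤ _
    rw [norm_mul]
    exact mul_le_mul_of_nonneg_right ((hC g).trans (le_abs_self C)) (norm_nonneg _))

@[simp] theorem mulOp_apply {G : Type} (m : G → ℂ) (C : ℝ) (hC : ∀ g, ‖m g‖ ≤ C) (ξ : L2 G)
    (g : G) : (mulOp m C hC ξ : L2 G) g = m g * ξ g := rfl

theorem norm_mulOp_le {G : Type} (m : G → ℂ) (C : ℝ) (hC : ∀ g, ‖m g‖ ≤ C) :
    ‖mulOp m C hC‖ ≤ |C| :=
  LinearMap.mkContinuous_norm_le _ (abs_nonneg _) _

end

end MBS
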