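import Pool.Agent.MBS.RedE

/-!
# IndIrr : irreducibility of `ev x` at free points, disjointness for different orbits

`exists_sep`: for `y ≠ z` in a compact Hausdorff space there is `f : C(X, ℂ)` with `f y = 1`, `f z = 0`.

`ev_irred`: let `K` be closed and invariant, `P` the orthogonal projection onto `K`. It commutes with
all `ev x b` (`K` and `Kᗮ` are invariant, because the image of `ev x` is *-closed). For `g ≠ h` in `G`
the points `g • x ≠ h • x` differ (`x` free), take `f` with `f (g • x) = 1`, `f (h • x) = 0`: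
`⟪δ h, P (δ g)⟫ = ⟪δ h, P (ev x (fn f) (δ g))⟫ = ⟪δ h, ev x (fn f) (P (δ g))⟫ = f (h • x) * ... = 0`.
So `P (δ g) = c g • δ g`, and `c g = c 1` because `P` commutes with `ev x (u g)`. Hence `P = c • 1`, and
`P * P = P` gives `c = 0` or `c = 1`.

`ev_disjoint`: similarly `⟪δ h, T (δ g)⟫ = ⟪δ h, T (ev x (fn f) (δ g))⟫ = f (h • y) ⟪δ h, T (δ g)⟫ = 0` for `f`
with `f (g • x) = 1`, `f (h • y) = 0`, which exists because `g • x ≠ h • y`.
-/

namespace MBS

open scoped InnerProductSpace ENNReal BoundedContinuousFunction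
open MeasureTheory TopologicalSpace

noncomputable section

theorem exists_sep {X : Type} [TopologicalSpace X] [CompactSpace X] [T2Space X] {y z : X}
    (h : y ≠ z) : ∃ f : C(X, ℂ), f y = 1 ∧ f z = 0 := by
  obtain ⟨f, h0, h1, -⟩ := exists_continuous_zero_one_of_isClosed (isClosed_singleton (x := z))
    (isClosed_singleton (x := y)) (by simpa using h.symm)
  refine ⟨⟨fun x => (f x : ℂ), by fun_prop⟩, ?_, ?_⟩
  · have := h1 (Set.mem_singleton y)
    simp at this
    simp [this]
  · have := h0 (Set.mem_singleton z)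
    simp at this
    simp [this]

variable {G X : Type} [Group G] [TopologicalSpace X] [CompactSpace X] [T2Space X]
  [MulAction G X] [ContinuousConstSMul G X]

theorem ev_irred (x : X) (hx : x ∈ FreePts G X) : IsIrred (ev G X x) := by
  intro K hKc hK
  haveI : CompleteSpace K := hKc.completeSpace_coe
  set P : L2 G →L[ℂ] L2 G := K.starProjection with hP
  -- `P` commutes with the representation
  have hcomm : ∀ (b : Red G X) (v : L2 G), P (ev G X x b v) = ev G X x b (P v) := by
    intro b v
    have h1 : ev G X x b (P v) ∈ K := hK b _ (K.starProjection_apply_mem v)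
    have h2 : ev G X x b (v - P v) ∈ Kᗮ := by
      rw [Submodule.mem_orthogonal]
      intro w hw
      have h3 : ev G X x (star b) w ∈ K := hK _ _ hw
      have h4 : v - P v ∈ Kᗮ := K.sub_starProjection_mem_orthogonal v
      have h5 : ⟪ev G X x (star b) w, v - P v⟫_ℂ = 0 := (Submodule.mem_orthogonal _ _).1 h4 _ h3
      rw [map_star, ContinuousLinearMap.star_eq_adjoint,
        ContinuousLinearMap.adjoint_inner_left] at h5
      exact h5
    have h6 : ev G X x b v = ev G X x b (P v) + ev G X x b (v - P v) := by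
      rw [← map_add, add_sub_cancel]
    rw [h6, map_add]
    have h7 : P (ev G X x b (P v)) = ev G X x b (P v) :=
      Submodule.starProjection_eq_self_iff.2 h1
    have h8 : P (ev G X x b (v - P v)) = 0 :=
      (Submodule.starProjection_apply_eq_zero_iff K).2 h2
    rw [h7, h8, add_zero]
  -- off diagonal coefficients vanish
  have hoff : ∀ g h : G, h ≠ g → (P (δ g) : L2 G) h = 0 := by
    intro g h hne
    have hpt : g • x ≠ h • x := by
      intro he
      apply hne
      have h1 : (h⁻¹ * g) • x = x := by rw [mul_smul, he, inv_smul_smul]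
      have h2 := hx _ h1
      rw [inv_mul_eq_one] at h2
      exact h2
    obtain ⟨f, hf1, hf0⟩ := exists_sep hpt
    have h3 : P (ev G X x (fn G X f) (δ g)) = ev G X x (fn G X f) (P (δ g)) := hcomm _ _
    rw [ev_fn_δ, hf1, one_smul] at h3
    rw [h3, ev_fn_apply, hf0, zero_mul]
  have hdiag : ∀ g : G, P (δ g) = (P (δ g) : L2 G) g • δ g := by
    intro g
    classical
    ext h
    by_cases hh : h = g
    · subst hh; simp [δ]
    · rw [hoff g h hh]; simp [δ, hh]
  have hconst : ∀ g : G, P (δ g) = (P (δ (1 : G)) : L2 G) 1 • δ g := by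
    intro g
    have h1 : P (ev G X x (u G X g) (δ 1)) = ev G X x (u G X g) (P (δ 1)) := hcomm _ _
    rw [ev_u_δ, mul_one] at h1
    rw [h1]
    conv_lhs => rw [hdiag 1]
    rw [map_smul, ev_u_δ, mul_one]
  set c : ℂ := (P (δ (1 : G)) : L2 G) 1 with hc
  have hPc : P = c • ContinuousLinearMap.id ℂ (L2 G) := clm_ext_δ fun g => by
    rw [hconst g]; simp
  have hidem : ∀ v, P (P v) = P v := fun v =>
    Submodule.starProjection_eq_self_iff.2 (K.starProjection_apply_mem v)
  have hcc : c * c = c := by
    have h1 := hidem (δ 1)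
    rw [hconst 1, map_smul, hconst 1, smul_smul] at h1
    have h2 := congrArg (fun ξ : L2 G => ξ 1) h1
    simpa [δ] using h2
  have hc01 : c = 0 ∨ c = 1 := by
    have : c * (c - 1) = 0 := by rw [mul_sub, hcc, mul_one, sub_self]
    rcases mul_eq_zero.1 this with h | h
    · exact Or.inl h
    · exact Or.inr (sub_eq_zero.1 h)
  rcases hc01 with h0 | h1
  · left
    rw [eq_bot_iff]
    intro v hv
    have h2 : P v = v := Submodule.starProjection_eq_self_iff.2 hv
    rw [hPc, h0] at h2
    simpa using h2.symm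
  · right
    rw [eq_top_iff]
    intro v _
    have h2 : P v ∈ K := K.starProjection_apply_mem v
    rw [hPc, h1] at h2
    simpa using h2

theorem ev_disjoint (x y : X) (hxy : ∀ g : G, g • x ≠ y) (T : L2 G →L[ℂ] L2 G)
    (hT : ∀ b ξ, T (ev G X x b ξ) = ev G X y b (T ξ)) : T = 0 := by
  refine clm_ext_δ fun g => ?_
  rw [ContinuousLinearMap.zero_apply]
  ext h
  have hpt : g • x ≠ h • y := by
    intro he
    apply hxy (h⁻¹ * g)
    rw [mul_smul, he, inv_smul_smul]
  obtain ⟨f, hf1, hf0⟩ := exists_sep hpt
  have h3 := hT (fn G X f) (δ g)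
  rw [ev_fn_δ, hf1, one_smul] at h3
  rw [h3, ev_fn_apply, hf0, zero_mul]
  rfl

end

end MBS
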