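import Pool.Agent.MBS.Defs

/-!
# Ultra : weak operator limits along an ultrafilter

For `x, y` the bounded sequence `⟪T n x, y⟫` converges along `U` (closed balls of `ℂ` are compact);
the limit `L x y` is linear in `y`, conjugate linear in `x` and `|L x y| ≤ C ‖x‖ ‖y‖`. Riesz
(`InnerProductSpace.toDual`) gives `T x` with `⟪T x, y⟫ = L x y`, linear and bounded in `x`.
-/

namespace MBS

open scoped InnerProductSpace ENNReal Topology
open Filter

noncomputable section

variable {H K : Type*} [NormedAddCommGroup H] [InnerProductSpace ℂ H] [CompleteSpace H]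
  [NormedAddCommGroup K] [InnerProductSpace ℂ K] [CompleteSpace K]

private theorem exists_lim_aux (U : Ultrafilter ℕ) (a : ℕ → ℂ) (R : ℝ) (h : ∀ n, ‖a n‖ ≤ R) :
    ∃ z, Tendsto a (U : Filter ℕ) (𝓝 z) := by
  have hc : IsCompact (Metric.closedBall (0 : ℂ) R) := isCompact_closedBall _ _
  have hle : ((U.map a : Ultrafilter ℂ) : Filter ℂ) ≤ 𝓟 (Metric.closedBall (0 : ℂ) R) := by
    rw [Ultrafilter.coe_map, le_principal_iff, Filter.mem_map]
    refine Filter.univ_mem' fun n => ?_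
    show a n ∈ Metric.closedBall (0 : ℂ) R
    rw [mem_closedBall_zero_iff]
    exact h n
  obtain ⟨z, _, hz⟩ := hc.ultrafilter_le_nhds (U.map a) hle
  exact ⟨z, hz⟩

theorem exists_wot_lim (U : Ultrafilter ℕ) (T : ℕ → H →L[ℂ] K) (C : ℝ) (hC : ∀ n, ‖T n‖ ≤ C) :
    ∃ T' : H →L[ℂ] K, ∀ x y,
      Tendsto (fun n => ⟪y, T n x⟫_ℂ) (U : Filter ℕ) (𝓝 ⟪y, T' x⟫_ℂ) := by
  have hb : ∀ x y n, ‖⟪T n x, y⟫_ℂ‖ ≤ C * ‖x‖ * ‖y‖ := by
    intro x y n
    refine (norm_inner_le_norm _ _).trans ?_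
    refine mul_le_mul_of_nonneg_right ?_ (norm_nonneg _)
    exact (T n).le_of_opNorm_le (hC n) x
  have hex : ∀ x y, ∃ z, Tendsto (fun n => ⟪T n x, y⟫_ℂ) (U : Filter ℕ) (𝓝 z) := fun x y =>
    exists_lim_aux U _ _ (hb x y)
  choose L hL using hex
  have hLb : ∀ x y, ‖L x y‖ ≤ C * ‖x‖ * ‖y‖ := by
    intro x y
    exact le_of_tendsto (hL x y).norm (Filter.Eventually.of_forall (hb x y))
  have hadd2 : ∀ x y y', L x (y + y') = L x y + L x y' := by
    intro x y y'
    refine tendsto_nhds_unique (hL x (y + y')) ?_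
    refine ((hL x y).add (hL x y')).congr fun n => ?_
    rw [inner_add_right]
  have hsmul2 : ∀ x (c : ℂ) y, L x (c • y) = c * L x y := by
    intro x c y
    refine tendsto_nhds_unique (hL x (c • y)) ?_
    refine ((hL x y).const_mul c).congr fun n => ?_
    rw [inner_smul_right]
  have hadd1 : ∀ x x' y, L (x + x') y = L x y + L x' y := by
    intro x x' y
    refine tendsto_nhds_unique (hL (x + x') y) ?_
    refine ((hL x y).add (hL x' y)).congr fun n => ?_
    rw [map_add, inner_add_left]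
  have hsmul1 : ∀ (c : ℂ) x y, L (c • x) y = (starRingEnd ℂ) c * L x y := by
    intro c x y
    refine tendsto_nhds_unique (hL (c • x) y) ?_
    refine ((hL x y).const_mul ((starRingEnd ℂ) c)).congr fun n => ?_
    rw [map_smul, inner_smul_left]
  let f : H → K →L[ℂ] ℂ := fun x =>
    LinearMap.mkContinuous
      { toFun := L x
        map_add' := hadd2 x
        map_smul' := fun c y => hsmul2 x c y } (C * ‖x‖) (hLb x)
  have hf : ∀ x y, f x y = L x y := fun _ _ => rfl
  let t : H → K := fun x => (InnerProductSpace.toDual ℂ K).symm (f x)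
  have ht : ∀ x y, ⟪t x, y⟫_ℂ = L x y := by
    intro x y
    show ⟪(InnerProductSpace.toDual ℂ K).symm (f x), y⟫_ℂ = L x y
    rw [InnerProductSpace.toDual_symm_apply, hf]
  have htadd : ∀ x x', t (x + x') = t x + t x' := by
    intro x x'
    refine ext_inner_right ℂ fun y => ?_
    rw [inner_add_left, ht, ht, ht, hadd1]
  have htsmul : ∀ (c : ℂ) x, t (c • x) = c • t x := by
    intro c x
    refine ext_inner_right ℂ fun y => ?_
    rw [inner_smul_left, ht, ht, hsmul1]
  have htb : ∀ x, ‖t x‖ ≤ C * ‖x‖ := by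
    intro x
    rcases eq_or_ne (t x) 0 with h0 | h0
    · rw [h0, norm_zero]
      have hC0 : 0 ≤ C := (norm_nonneg _).trans (hC 0)
      positivity
    · have h1 := hLb x (t x)
      rw [← ht, inner_self_eq_norm_sq_to_K] at h1
      have h2 : ‖((‖t x‖ : ℂ)) ^ 2‖ = ‖t x‖ * ‖t x‖ := by
        rw [norm_pow, Complex.norm_real, norm_norm, sq]
      have h3 : ‖t x‖ * ‖t x‖ ≤ C * ‖x‖ * ‖t x‖ := by
        rw [← h2]
        exact h1
      exact le_of_mul_le_mul_right h3 (norm_pos_iff.2 h0)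
  refine ⟨LinearMap.mkContinuous
      { toFun := t
        map_add' := htadd
        map_smul' := fun c x => htsmul c x } C htb, fun x y => ?_⟩
  show Tendsto (fun n => ⟪y, T n x⟫_ℂ) (U : Filter ℕ) (𝓝 ⟪y, t x⟫_ℂ)
  have h1 : ⟪y, t x⟫_ℂ = (starRingEnd ℂ) (L x y) := by
    rw [← ht, inner_conj_symm]
  rw [h1]
  have h2 := (Complex.continuous_conj.tendsto (L x y)).comp (hL x y)
  refine h2.congr fun n => ?_
  show (starRingEnd ℂ) ⟪T n x, y⟫_ℂ = ⟪y, T n x⟫_ℂ
  rw [inner_conj_symm]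

end

end MBS
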