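import Pool.Agent.MBS.Schur
import Pool.Agent.MBS.Ultra

/-!
# Tail : vector states of an irreducible representation agree asymptotically on the tail

Otherwise there is `ε > 0` and for every `n` a contraction `c n ∈ A` commuting with `e k i j`,
`k < n`, and `‖⟪v, π (c n) v⟫ - ⟪w, π (c n) w⟫‖ ≥ ε`. Let `T` be the weak operator limit of
`π (c n)` along a nonprincipal ultrafilter (`hyperfilter ℕ`). `T` commutes with all `π (e k i j)`
(since `π (c n)` does for `n > k`), so with the norm closure of the algebra generated by them,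
i.e. with all of `π A` (`M.Gen`). By Schur `T = λ`, so `⟪v, π (c n) v⟫ → λ`, `⟪w, π (c n) w⟫ → λ`
along the ultrafilter, contradiction. (`*-homomorphisms of C*-algebras are contractive`.)
-/

namespace MBS

open scoped InnerProductSpace ENNReal

noncomputable section

variable {A : Type} [CStarAlgebra A] (M : MU A) (hM : M.Gen)
variable {H K : Type*} [NormedAddCommGroup H] [InnerProductSpace ℂ H] [CompleteSpace H]
  [NormedAddCommGroup K] [InnerProductSpace ℂ K] [CompleteSpace K]

include hM in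
/-- an operator intertwining the generators intertwines everything -/
theorem intertwine_of_gen (π : A →⋆ₐ[ℂ] (H →L[ℂ] H)) (ρ : A →⋆ₐ[ℂ] (K →L[ℂ] K))
    (T : H →L[ℂ] K) (hT : ∀ k i j x, T (π (M.e k i j) x) = ρ (M.e k i j) (T x)) (a : A) (x : H) :
    T (π a x) = ρ a (T x) := by
  have hπc : Continuous π :=
    AddMonoidHomClass.continuous_of_bound π 1
      (fun a => by simpa only [one_mul] using NonUnitalStarAlgHom.norm_apply_le π a)
  have hρc : Continuous ρ :=
    AddMonoidHomClass.continuous_of_bound ρ 1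
      (fun a => by simpa only [one_mul] using NonUnitalStarAlgHom.norm_apply_le ρ a)
  have hadj : ∀ b ∈ Algebra.adjoin ℂ {a : A | ∃ k i j, a = M.e k i j},
      ∀ y : H, T (π b y) = ρ b (T y) := by
    intro b hb
    induction hb using Algebra.adjoin_induction with
    | mem b hb =>
      obtain ⟨k, i, j, rfl⟩ := hb
      exact hT k i j
    | algebraMap r =>
      intro y
      rw [AlgHomClass.commutes, AlgHomClass.commutes]
      simp [Algebra.algebraMap_eq_smul_one]
    | add b c _ _ hb hc =>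
      intro y
      rw [map_add, map_add]
      change T (π b y + π c y) = ρ b (T y) + ρ c (T y)
      rw [map_add, hb y, hc y]
    | mul b c _ _ hb hc =>
      intro y
      rw [map_mul, map_mul]
      change T (π b (π c y)) = ρ b (ρ c (T y))
      rw [hb (π c y), hc y]
  have hcl : IsClosed {b : A | T (π b x) = ρ b (T x)} := by
    refine isClosed_eq ?_ ?_
    · exact T.continuous.comp ((ContinuousLinearMap.apply ℂ H x).continuous.comp hπc)
    · exact (ContinuousLinearMap.apply ℂ K (T x)).continuous.comp hρc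
  have hsub : (Algebra.adjoin ℂ {a : A | ∃ k i j, a = M.e k i j} : Set A) ⊆
      {b : A | T (π b x) = ρ b (T x)} := fun b hb => hadj b hb x
  exact hcl.closure_subset_iff.mpr hsub (hM a)

include hM in
theorem tail {π : A →⋆ₐ[ℂ] (H →L[ℂ] H)} (hπ : IsIrred π) (v w : H) (hv : ‖v‖ = 1)
    (hw : ‖w‖ = 1) (ε : ℝ) (hε : 0 < ε) :
    ∃ N : ℕ, ∀ n, N ≤ n → ∀ c : A, ‖c‖ ≤ 1 →
      (∀ k, k < n → ∀ i j, c * M.e k i j = M.e k i j * c) →
      ‖⟪v, π c v⟫_ℂ - ⟪w, π c w⟫_ℂ‖ < ε := by
  by_contra hcon
  push Not at hcon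
  choose n hn c hc1 hc2 hc3 using hcon
  have hnorm : ∀ N, ‖π (c N)‖ ≤ 1 := fun N =>
    (NonUnitalStarAlgHom.norm_apply_le π (c N)).trans (hc1 N)
  obtain ⟨T, hT⟩ := exists_wot_lim (Filter.hyperfilter ℕ) (fun N => π (c N)) 1 hnorm
  have hTe : ∀ k i j x, T (π (M.e k i j) x) = π (M.e k i j) (T x) := by
    intro k i j x
    refine ext_inner_left ℂ fun y => ?_
    have h1 := hT (π (M.e k i j) x) y
    have h2 := hT x (ContinuousLinearMap.adjoint (π (M.e k i j)) y)
    rw [ContinuousLinearMap.adjoint_inner_left] at h2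
    refine tendsto_nhds_unique h1 (h2.congr' ?_)
    have h3 : ∀ᶠ N in (Filter.hyperfilter ℕ : Filter ℕ), k < N :=
      Nat.hyperfilter_le_atTop (Filter.eventually_gt_atTop k)
    filter_upwards [h3] with N hN
    rw [ContinuousLinearMap.adjoint_inner_left]
    have h4 := hc2 N k (lt_of_lt_of_le hN (hn N)) i j
    have h5 : π (c N) (π (M.e k i j) x) = π (M.e k i j) (π (c N) x) := by
      have h6 := congrArg (fun b => π b x) h4
      simpa only [map_mul, mul_apply_eq_comp] using h6
    rw [h5]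
  obtain ⟨l, hl⟩ := schur hπ T (intertwine_of_gen M hM π π T hTe)
  have hlim : ∀ u : H, ‖u‖ = 1 →
      Filter.Tendsto (fun N => ⟪u, π (c N) u⟫_ℂ) (Filter.hyperfilter ℕ : Filter ℕ) (nhds l) := by
    intro u hu
    have h1 := hT u u
    rw [hl u, inner_smul_right, inner_self_eq_norm_sq_to_K, hu] at h1
    simpa using h1
  have h1 := ((hlim v hv).sub (hlim w hw)).norm
  rw [sub_self, norm_zero] at h1
  have h2 : ∀ᶠ N in (Filter.hyperfilter ℕ : Filter ℕ),
      ‖⟪v, π (c N) v⟫_ℂ - ⟪w, π (c N) w⟫_ℂ‖ < ε := h1.eventually (gt_mem_nhds hε)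
  obtain ⟨N, hN⟩ := h2.exists
  exact absurd hN (not_lt.mpr (hc3 N))

end

end MBS
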