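import Pool.Agent.MBS.Dens
import Pool.Agent.MBS.PS
import Pool.Agent.MBS.Tail

/-!
# PhiCont : properties of `Phi M n m : Irr A → matrices`

* `Phi M n m σ` is PSD, `hs (Phi M n m σ) = tr D = 1`, the overlap `Re tr (Phi σ * Phi τ)` lies in
  `[0, 1]` (`trace_mul_nonneg`; `hs (Phi σ - Phi τ) = 2 - 2 Re tr (Phi σ * Phi τ) ≥ 0`).
* `σ ↦ D σ t s = ⟪vac, σ (E s t) vac⟫` is continuous: on each summand of the sigma type by the
  definition of the topology (`continuous_sigma_iff`, `continuous_induced_dom`,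
  `continuous_apply`). With `msqrt_continuousOn` each entry of `Phi` is continuous.
* `phi_small`: for unitarily equivalent `σ, τ` : `hs (Phi M n m σ - Phi M n m τ) → 0` as `n → ∞`,
  uniformly in `m`. Let `U` implement the equivalence, `v = vac σ.1`, `w = U⁻¹ (vac τ.1)`, both unit
  vectors of `HSp σ.1`, `⟪vac, τ c vac⟫ = ⟪w, σ c w⟫`. Powers-Stormer gives a Hermitian unitary matrix
  `s` with `hs (Phi σ - Phi τ) ≤ Re tr ((D σ - D τ) s) = Re (⟪v, σ c v⟫ - ⟪w, σ c w⟫)` for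
  `c = M.mat n m s`, `‖c‖ ≤ 1` (`norm_mat_le`) and `c` commutes with `e k i j`, `k < n` (`mat_comm_e`).
  Now `tail`.
-/

namespace MBS

open scoped InnerProductSpace ENNReal ComplexOrder

noncomputable section

variable {A : Type} [CStarAlgebra A] (M : MU A)

theorem Phi_posSemidef (n m : ℕ) (σ : Irr A) : (Phi M n m σ).PosSemidef :=
  msqrt_posSemidef (densV_posSemidef M σ.2.1 (vac σ.1) n m)

theorem phiCont_mul_self (n m : ℕ) (σ : Irr A) :
    Phi M n m σ * Phi M n m σ = densV M σ.2.1 (vac σ.1) n m :=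
  msqrt_mul_self (densV_posSemidef M σ.2.1 (vac σ.1) n m)

theorem hs_Phi (n m : ℕ) (σ : Irr A) : hs (Phi M n m σ) = 1 := by
  rw [← hs_eq_trace (Phi_posSemidef M n m σ).1, phiCont_mul_self,
    densV_trace M σ.2.1 (vac σ.1) (norm_vac _)]
  simp

theorem overlap_le_one (n m : ℕ) (σ τ : Irr A) :
    ((Phi M n m σ * Phi M n m τ).trace).re ≤ 1 := by
  have h0 := hs_nonneg (Phi M n m σ - Phi M n m τ)
  have hS := (Phi_posSemidef M n m σ).1
  have hT := (Phi_posSemidef M n m τ).1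
  have h1 := hs_Phi M n m σ
  have h2 := hs_Phi M n m τ
  rw [← hs_eq_trace (hS.sub hT)] at h0
  rw [← hs_eq_trace hS] at h1
  rw [← hs_eq_trace hT] at h2
  have h3 : (Phi M n m σ - Phi M n m τ) * (Phi M n m σ - Phi M n m τ) =
      Phi M n m σ * Phi M n m σ - Phi M n m σ * Phi M n m τ -
        (Phi M n m τ * Phi M n m σ - Phi M n m τ * Phi M n m τ) := by
    rw [sub_mul, mul_sub, mul_sub]
  rw [h3, Matrix.trace_sub, Matrix.trace_sub, Matrix.trace_sub, Complex.sub_re, Complex.sub_re,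
    Complex.sub_re, Matrix.trace_mul_comm (Phi M n m τ) (Phi M n m σ)] at h0
  linarith

theorem overlap_nonneg (n m : ℕ) (σ τ : Irr A) :
    0 ≤ ((Phi M n m σ * Phi M n m τ).trace).re :=
  trace_mul_nonneg (Phi_posSemidef M n m σ) (Phi_posSemidef M n m τ)

theorem phiCont_densV (n m : ℕ) :
    Continuous (fun σ : Irr A => densV M σ.2.1 (vac σ.1) n m) := by
  refine continuous_pi fun t => continuous_pi fun s => ?_
  have h : ∀ k : Dim, Continuous (fun π : IrrN A k =>
      ⟪vac k, π.1 (M.E n m s t) (vac k)⟫_ℂ) := by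
    intro k
    have h1 : Continuous (fun π : IrrN A k => fun p : A × HSp k × HSp k =>
        ⟪p.2.1, π.1 p.1 p.2.2⟫_ℂ) := continuous_induced_dom
    exact (continuous_apply ((M.E n m s t), vac k, vac k)).comp h1
  exact continuous_sigma (fun k => h k)

theorem Phi_continuous (n m : ℕ) (i j : Wd m) : Continuous (fun σ : Irr A => Phi M n m σ i j) := by
  have h1 : Continuous (fun σ : Irr A => msqrt (densV M σ.2.1 (vac σ.1) n m)) :=
    msqrt_continuousOn.comp_continuous (phiCont_densV M n m)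
      (fun σ => densV_posSemidef M σ.2.1 (vac σ.1) n m)
  exact (continuous_apply j).comp ((continuous_apply i).comp h1)

theorem phi_small (hM : M.Gen) (σ τ : Irr A) (h : UEquiv σ τ) (ε : ℝ) (hε : 0 < ε) :
    ∃ N : ℕ, ∀ n, N ≤ n → ∀ m, hs (Phi M n m σ - Phi M n m τ) ≤ ε := by
  obtain ⟨U, hU⟩ := h
  replace hU : ∀ (a : A) (v : HSp σ.1), U (σ.2.1 a v) = τ.2.1 a (U v) := hU
  have hw : ‖U.symm (vac τ.1)‖ = 1 := by
    rw [LinearIsometryEquiv.norm_map, norm_vac]
  obtain ⟨N, hN⟩ := tail M hM σ.2.2 (vac σ.1) (U.symm (vac τ.1)) (norm_vac _) hw ε hε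
  refine ⟨N, fun n hn m => ?_⟩
  obtain ⟨s, hs1, hs2, hs3⟩ := powers_stormer (Phi_posSemidef M n m σ) (Phi_posSemidef M n m τ)
  refine hs3.trans ?_
  rw [phiCont_mul_self, phiCont_mul_self, sub_mul, Matrix.trace_sub, trace_densV_mul,
    trace_densV_mul]
  have h1 : ⟪vac τ.1, τ.2.1 (M.mat n m s) (vac τ.1)⟫_ℂ =
      ⟪U.symm (vac τ.1), σ.2.1 (M.mat n m s) (U.symm (vac τ.1))⟫_ℂ := by
    rw [← LinearIsometryEquiv.inner_map_map U, hU, LinearIsometryEquiv.apply_symm_apply]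
  rw [h1]
  have h2 := hN n hn (M.mat n m s) (norm_mat_le M n m s hs1 hs2)
    (fun k hk i j => mat_comm_e M n m s k hk i j)
  exact (Complex.re_le_norm _).trans h2.le

end

end MBS
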