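import Pool.Agent.MBS.RedDef

/-!
# RedA : basic rules in the reduced crossed product

`Red.val` is injective (a subtype); two elements of `Big G X` are equal iff they agree at all
points. `ev G X x (fn G X f)` is by definition the multiplication operator by `g ↦ f (g • x)` and
`ev G X x (u G X h)` the permutation operator of `g ↦ h * g`, whose adjoint is the one of `h⁻¹`.
The norm of `Big G X` is the supremum norm (`BoundedContinuousFunction.norm_le`).

`span_dense`: the linear span of the `fn f * u h` is a star subalgebra (by `u_mul_fn`, `star_fn`,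
`star_u`) containing all `fn f` (`h = 1`) and `u h` (`f = 1`), so it contains the adjoin, whose
closure is everything.
-/

namespace MBS

open scoped InnerProductSpace ENNReal BoundedContinuousFunction
open MeasureTheory TopologicalSpace

noncomputable section

section A

variable (G X : Type) [Group G] [TopologicalSpace X] [CompactSpace X] [MulAction G X]

theorem ev_fn_apply (x : X) (f : C(X, ℂ)) (ξ : L2 G) (g : G) :
    (ev G X x (fn G X f) ξ : L2 G) g = f (g • x) * ξ g := rfl

theorem ev_u (x : X) (h : G) (ξ : L2 G) :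
    ev G X x (u G X h) ξ = perm (Equiv.mulLeft h) ξ := rfl

theorem ev_u_apply (x : X) (h : G) (ξ : L2 G) (g : G) :
    (ev G X x (u G X h) ξ : L2 G) g = ξ (h⁻¹ * g) := rfl

theorem ev_fn_δ (x : X) (f : C(X, ℂ)) (g : G) :
    ev G X x (fn G X f) (δ g) = f (g • x) • δ g := by
  classical
  ext k
  rw [ev_fn_apply]
  simp only [δ, lp.single_apply, Pi.single_apply, lp.coeFn_smul, Pi.smul_apply, smul_eq_mul]
  by_cases hk : k = g
  · subst hk; simp
  · simp [hk]

theorem ev_u_δ (x : X) (h g : G) : ev G X x (u G X h) (δ g) = δ (h * g) := by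
  rw [ev_u, perm_δ]; rfl

variable {G X}

theorem val_injective : Function.Injective (Red.val G X) := Subtype.val_injective

theorem red_ext {a b : Red G X} (h : ∀ x, ev G X x a = ev G X x b) : a = b := by
  apply val_injective
  apply BoundedContinuousFunction.ext
  intro x
  exact h x

theorem norm_val (b : Red G X) : ‖Red.val G X b‖ = ‖b‖ := rfl

theorem norm_ev_le (x : X) (b : Red G X) : ‖ev G X x b‖ ≤ ‖b‖ :=
  BoundedContinuousFunction.norm_coe_le_norm
    (show BoundedContinuousFunction (Disc X) (L2 G →L[ℂ] L2 G) from Red.val G X b) x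

theorem red_norm_le (b : Red G X) (C : ℝ) (hC : 0 ≤ C) (h : ∀ x, ‖ev G X x b‖ ≤ C) :
    ‖b‖ ≤ C := by
  rw [← norm_val]
  exact (BoundedContinuousFunction.norm_le
    (f := (show BoundedContinuousFunction (Disc X) (L2 G →L[ℂ] L2 G) from Red.val G X b)) hC).2 h

theorem fn_one : fn G X 1 = 1 := by
  apply red_ext
  intro x
  ext ξ g
  rw [ev_fn_apply, map_one]
  simp

theorem fn_mul (f g : C(X, ℂ)) : fn G X (f * g) = fn G X f * fn G X g := by
  apply red_ext
  intro x
  ext ξ k
  change (f * g) (k • x) * ξ k = f (k • x) * (g (k • x) * ξ k)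
  simp [mul_assoc]

theorem fn_add (f g : C(X, ℂ)) : fn G X (f + g) = fn G X f + fn G X g := by
  apply red_ext
  intro x
  ext ξ k
  change (f + g) (k • x) * ξ k = f (k • x) * ξ k + g (k • x) * ξ k
  simp [add_mul]

theorem fn_sub (f g : C(X, ℂ)) : fn G X (f - g) = fn G X f - fn G X g := by
  apply red_ext
  intro x
  ext ξ k
  change (f - g) (k • x) * ξ k = f (k • x) * ξ k - g (k • x) * ξ k
  simp [sub_mul]

theorem fn_smul (c : ℂ) (f : C(X, ℂ)) : fn G X (c • f) = c • fn G X f := by
  apply red_ext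
  intro x
  ext ξ k
  change (c • f) (k • x) * ξ k = c * (f (k • x) * ξ k)
  simp [mul_assoc]

theorem inner_L2 {G : Type} (ξ η : L2 G) : ⟪ξ, η⟫_ℂ = ∑' g, ⟪(ξ g : ℂ), η g⟫_ℂ :=
  lp.inner_eq_tsum ξ η

theorem star_fn (f : C(X, ℂ)) : star (fn G X f) = fn G X (star f) := by
  apply red_ext
  intro x
  rw [map_star, ContinuousLinearMap.star_eq_adjoint]
  symm
  rw [ContinuousLinearMap.eq_adjoint_iff]
  intro ξ η
  rw [inner_L2, inner_L2]
  congr 1
  funext g
  rw [ev_fn_apply, ev_fn_apply]
  simp only [RCLike.inner_apply, ContinuousMap.star_apply, map_mul]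
  simp
  ring

theorem norm_fn_le (f : C(X, ℂ)) : ‖fn G X f‖ ≤ ‖f‖ := by
  refine red_norm_le _ _ (norm_nonneg _) fun x => ?_
  have h := norm_mulOp_le (fun g : G => f (g • x)) ‖f‖ (fun _ => f.norm_coe_le_norm _)
  rw [abs_of_nonneg (norm_nonneg _)] at h
  exact h

theorem u_one : u G X 1 = 1 := by
  apply red_ext
  intro x
  ext ξ g
  rw [ev_u_apply, map_one]
  simp

theorem u_mul (g h : G) : u G X (g * h) = u G X g * u G X h := by
  apply red_ext
  intro x
  ext ξ k
  change ξ ((g * h)⁻¹ * k) = ξ (h⁻¹ * (g⁻¹ * k))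
  simp [mul_assoc]

theorem star_u (g : G) : star (u G X g) = u G X g⁻¹ := by
  apply red_ext
  intro x
  rw [map_star, ContinuousLinearMap.star_eq_adjoint]
  symm
  rw [ContinuousLinearMap.eq_adjoint_iff]
  intro ξ η
  rw [ev_u, ev_u, ← (perm (Equiv.mulLeft g)).inner_map_map]
  congr 1
  ext k
  simp

theorem norm_u_le (g : G) : ‖u G X g‖ ≤ 1 := by
  refine red_norm_le _ _ zero_le_one fun x => ?_
  exact LinearIsometry.norm_toContinuousLinearMap_le _

end A

section B

variable {G X : Type} [Group G] [TopologicalSpace X] [CompactSpace X] [MulAction G X]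
  [ContinuousConstSMul G X]

/-- the translate of a function, `(transl h f) x = f (h⁻¹ • x)` -/
def transl (h : G) (f : C(X, ℂ)) : C(X, ℂ) :=
  f.comp ⟨fun x => h⁻¹ • x, continuous_const_smul _⟩

@[simp] theorem transl_apply (h : G) (f : C(X, ℂ)) (x : X) : transl h f x = f (h⁻¹ • x) := rfl

/-- covariance -/
theorem u_mul_fn (h : G) (f : C(X, ℂ)) : u G X h * fn G X f = fn G X (transl h f) * u G X h := by
  apply red_ext
  intro x
  ext ξ k
  change f ((h⁻¹ * k) • x) * ξ (h⁻¹ * k) = f (h⁻¹ • (k • x)) * ξ (h⁻¹ * k)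
  rw [mul_smul]

/-- the generating elements -/
def genSet (G X : Type) [Group G] [TopologicalSpace X] [CompactSpace X] [MulAction G X] :
    Set (Red G X) := {b | ∃ (f : C(X, ℂ)) (h : G), b = fn G X f * u G X h}

theorem genSet_mul {a b : Red G X} (ha : a ∈ genSet G X) (hb : b ∈ genSet G X) :
    a * b ∈ genSet G X := by
  obtain ⟨f, h, rfl⟩ := ha
  obtain ⟨g, k, rfl⟩ := hb
  refine ⟨f * transl h g, h * k, ?_⟩
  rw [fn_mul, u_mul]
  calc fn G X f * u G X h * (fn G X g * u G X k)
      = fn G X f * (u G X h * fn G X g) * u G X k := by simp only [mul_assoc]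
    _ = _ := by rw [u_mul_fn]; simp only [mul_assoc]

theorem genSet_star {a : Red G X} (ha : a ∈ genSet G X) : star a ∈ genSet G X := by
  obtain ⟨f, h, rfl⟩ := ha
  refine ⟨transl h⁻¹ (star f), h⁻¹, ?_⟩
  rw [star_mul, star_fn, star_u, u_mul_fn]

/-- the span as a star subalgebra -/
def spanAlg (G X : Type) [Group G] [TopologicalSpace X] [CompactSpace X] [MulAction G X]
    [ContinuousConstSMul G X] : StarSubalgebra ℂ (Red G X) where
  carrier := (Submodule.span ℂ (genSet G X) : Set (Red G X))
  mul_mem' := by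
    intro a b ha hb
    have : a * b ∈ Submodule.span ℂ (genSet G X) * Submodule.span ℂ (genSet G X) :=
      Submodule.mul_mem_mul ha hb
    rw [Submodule.span_mul_span] at this
    refine Submodule.span_mono ?_ this
    rintro _ ⟨c, hc, d, hd, rfl⟩
    exact genSet_mul hc hd
  one_mem' := Submodule.subset_span ⟨1, 1, by rw [fn_one, u_one, one_mul]⟩
  add_mem' := fun ha hb => Submodule.add_mem _ ha hb
  zero_mem' := Submodule.zero_mem _
  algebraMap_mem' := by
    intro c
    rw [Algebra.algebraMap_eq_smul_one]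
    exact Submodule.smul_mem _ _ (Submodule.subset_span ⟨1, 1, by rw [fn_one, u_one, one_mul]⟩)
  star_mem' := by
    intro a ha
    change star a ∈ Submodule.span ℂ (genSet G X)
    change a ∈ Submodule.span ℂ (genSet G X) at ha
    induction ha using Submodule.span_induction with
    | mem x hx => exact Submodule.subset_span (genSet_star hx)
    | zero => rw [star_zero]; exact Submodule.zero_mem _
    | add x y _ _ hx hy => rw [star_add]; exact Submodule.add_mem _ hx hy
    | smul c x _ hx => rw [star_smul]; exact Submodule.smul_mem _ _ hx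

theorem span_dense :
    Dense (Submodule.span ℂ {b : Red G X | ∃ (f : C(X, ℂ)) (h : G), b = fn G X f * u G X h} :
      Set (Red G X)) := by
  -- the image of the span algebra in the big algebra contains the adjoin
  have h1 : StarAlgebra.adjoin ℂ ({b | ∃ f : C(X, ℂ), b = fnB G X f} ∪
      {b | ∃ h : G, b = uB G X h}) ≤ (spanAlg G X).map (Red.val G X) := by
    rw [StarAlgebra.adjoin_le_iff]
    rintro b (⟨f, rfl⟩ | ⟨h, rfl⟩)
    · refine ⟨fn G X f, Submodule.subset_span ⟨f, 1, by rw [u_one, mul_one]⟩, rfl⟩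
    · refine ⟨u G X h, Submodule.subset_span ⟨1, h, by rw [fn_one, one_mul]⟩, rfl⟩
  intro b
  rw [Metric.mem_closure_iff]
  intro ε hε
  have h2 : Red.val G X b ∈ closure (StarAlgebra.adjoin ℂ ({b | ∃ f : C(X, ℂ), b = fnB G X f} ∪
      {b | ∃ h : G, b = uB G X h}) : Set (Big G X)) := b.2
  rw [Metric.mem_closure_iff] at h2
  obtain ⟨c, hc, hbc⟩ := h2 ε hε
  obtain ⟨c', hc', rfl⟩ := h1 hc
  exact ⟨c', hc', hbc⟩

end B

end

end MBS
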