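import Pool.Agent.MBS.Defs

/-!
# The reduced crossed product C(X) x_r G, definitions
-/

namespace MBS

open scoped InnerProductSpace ENNReal BoundedContinuousFunction
open MeasureTheory TopologicalSpace

noncomputable section

/-- `X` with the discrete topology -/
def Disc (X : Type) : Type := X

instance (X : Type) : TopologicalSpace (Disc X) := ⊥

instance (X : Type) : DiscreteTopology (Disc X) := ⟨rfl⟩

/-- The C*-algebra of all bounded functions on the set `X` with values in `B(l^2 G)`. -/
def Big (G X : Type) : Type := BoundedContinuousFunction (Disc X) (L2 G →L[ℂ] L2 G)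

instance (G X : Type) : CStarAlgebra (Big G X) :=
  inferInstanceAs (CStarAlgebra (BoundedContinuousFunction (Disc X) (L2 G →L[ℂ] L2 G)))

variable (G X : Type) [Group G] [TopologicalSpace X] [CompactSpace X] [MulAction G X]

/-- the function `f`, acting at the point `x` as multiplication by `g ↦ f (g • x)` -/
def fnB (f : C(X, ℂ)) : Big G X :=
  BoundedContinuousFunction.ofNormedAddCommGroupDiscrete
    (fun x : Disc X => mulOp (fun g : G => f (g • (show X from x))) ‖f‖
      (fun _ => f.norm_coe_le_norm _)) ‖f‖
    (fun _ => (norm_mulOp_le _ _ _).trans (le_of_eq (abs_of_nonneg (norm_nonneg _))))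

/-- the unitary of the group element `h`, acting at each point as left translation
`δ g ↦ δ (h * g)` -/
def uB (h : G) : Big G X :=
  BoundedContinuousFunction.ofNormedAddCommGroupDiscrete
    (fun _ : Disc X => ((perm (Equiv.mulLeft h)).toLinearIsometry.toContinuousLinearMap :
      L2 G →L[ℂ] L2 G)) 1 (fun _ => LinearIsometry.norm_toContinuousLinearMap_le _)

/-- The reduced crossed product as a closed *-subalgebra. -/
def RedS : StarSubalgebra ℂ (Big G X) :=
  (StarAlgebra.adjoin ℂ ({b | ∃ f : C(X, ℂ), b = fnB G X f} ∪
    {b | ∃ h : G, b = uB G X h})).topologicalClosure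

theorem isClosed_RedS : IsClosed (RedS G X : Set (Big G X)) :=
  StarSubalgebra.isClosed_topologicalClosure _

/-- The reduced crossed product `C(X) ⋊_r G`. -/
def Red : Type := RedS G X

instance : CStarAlgebra (Red G X) :=
  StarSubalgebra.cstarAlgebra (RedS G X) (h_closed := isClosed_RedS G X)

/-- the inclusion of the crossed product in the big algebra -/
def Red.val : Red G X →⋆ₐ[ℂ] Big G X := (RedS G X).subtype

theorem fnB_mem (f : C(X, ℂ)) : fnB G X f ∈ RedS G X :=
  StarSubalgebra.le_topologicalClosure _
    (StarAlgebra.subset_adjoin _ _ (Or.inl ⟨f, rfl⟩))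

theorem uB_mem (h : G) : uB G X h ∈ RedS G X :=
  StarSubalgebra.le_topologicalClosure _
    (StarAlgebra.subset_adjoin _ _ (Or.inr ⟨h, rfl⟩))

/-- the functions in the crossed product -/
def fn (f : C(X, ℂ)) : Red G X := ⟨fnB G X f, fnB_mem G X f⟩

/-- the canonical unitaries in the crossed product -/
def u (h : G) : Red G X := ⟨uB G X h, uB_mem G X h⟩

/-- evaluation at the point `x` on the big algebra -/
def evB (x : X) : Big G X →⋆ₐ[ℂ] (L2 G →L[ℂ] L2 G) where
  toFun b := (show BoundedContinuousFunction (Disc X) (L2 G →L[ℂ] L2 G) from b)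
    (show Disc X from x)
  map_one' := rfl
  map_mul' _ _ := rfl
  map_zero' := rfl
  map_add' _ _ := rfl
  commutes' _ := rfl
  map_star' _ := rfl

/-- evaluation at the point `x` : a representation on l^2(G) -/
def ev (x : X) : Red G X →⋆ₐ[ℂ] (L2 G →L[ℂ] L2 G) := (evB G X x).comp (Red.val G X)

/-- the canonical conditional expectation onto C(X) -/
def cexp (b : Red G X) (x : X) : ℂ := ⟪δ (1 : G), ev G X x b (δ 1)⟫_ℂ

/-- the points with trivial stabilizer -/
def FreePts : Set X := {x | ∀ g : G, g • x = x → g = 1}

end

end MBS
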