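import Pool.Agent.MBS.RedE

/-!
# SimpA : a nonzero ideal contains (in its closure) a nonzero nonnegative function

Let `b ∈ J`, `b ≠ 0`, `a = star b * b ∈ J`. By `cexp_faithful`, `continuous_cexp` and the density of
the free points there is a free point `x0` with `c := cexp a x0 > 0` (`cexp_star_mul`: the values are
nonnegative reals). Let `ε = c / 8`. By `span_dense` there is a finite sum `a' = ∑ h ∈ F, fn (f h) * u h`
with `‖a - a'‖ < ε` (put `1 ∈ F`). For `h ∈ F \ {1}`, `h • x0 ≠ x0`, so there is an open `V ∋ x0` with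
`V ∩ h • V = ∅` for these `h`; Urysohn: `k : C(X, ℂ)` with values in `[0, 1]`, `k x0 = 1`, `k = 0` off `V`.
Then `k * transl h k = 0` for `h ∈ F \ {1}` so
`fn k * a' * fn k = fn (k ^ 2 * f 1)` by covariance, and `‖f 1 - cexp a‖ ≤ ε` (apply `cexp` to `a' - a`).
So with `f = k ^ 2 * cexp a` (real, `≥ 0`, `f x0 = c`), and `j = fn k * a * fn k ∈ J`,
`‖fn f - j‖ ≤ 2 ε = c / 4`.

Let `f₊ = max (f, c/2)` and `h = max (f - c/2, 0)`, real continuous, `h x0 = c/2 > 0`. For every `n`,
`h = f ^ n * (h * f₊⁻¹ ^ n)` and `‖h * f₊⁻¹ ^ n‖ ≤ ‖h‖ (2/c) ^ n`. `(fn f - j) ^ n = fn (f ^ n) - j_n` with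
`j_n ∈ J`, norm `≤ (c/4) ^ n`. So `fn h` has distance `≤ ‖h‖ (2/c) ^ n (c/4) ^ n = ‖h‖ / 2 ^ n` from `J`,
for all `n`, i.e. `fn h ∈ closure J`.
-/

namespace MBS

open scoped InnerProductSpace ENNReal BoundedContinuousFunction
open MeasureTheory TopologicalSpace

noncomputable section

variable {G X : Type} [Group G] [TopologicalSpace X] [CompactSpace X] [T2Space X]
  [MulAction G X] [ContinuousConstSMul G X]

/-- Every element of the span is a finite sum over the group. -/
private theorem exists_finsupp {a : Red G X}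
    (ha : a ∈ Submodule.span ℂ {b : Red G X | ∃ (f : C(X, ℂ)) (h : G), b = fn G X f * u G X h}) :
    ∃ φ : G →₀ C(X, ℂ), a = φ.sum fun h f => fn G X f * u G X h := by
  classical
  induction ha using Submodule.span_induction with
  | mem b hb =>
    obtain ⟨f, h, rfl⟩ := hb
    refine ⟨Finsupp.single h f, ?_⟩
    rw [Finsupp.sum_single_index]
    have h0 : fn G X (0 : C(X, ℂ)) = 0 := by
      have := fn_smul (G := G) (X := X) (0 : ℂ) (0 : C(X, ℂ))
      simpa using this
    rw [h0, zero_mul]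
  | zero => exact ⟨0, by simp⟩
  | add x y _ _ hx hy =>
    obtain ⟨φ, rfl⟩ := hx
    obtain ⟨ψ, rfl⟩ := hy
    refine ⟨φ + ψ, ?_⟩
    rw [Finsupp.sum_add_index']
    · intro h
      have h0 : fn G X (0 : C(X, ℂ)) = 0 := by
        have := fn_smul (G := G) (X := X) (0 : ℂ) (0 : C(X, ℂ))
        simpa using this
      rw [h0, zero_mul]
    · intro h f g
      rw [fn_add, add_mul]
  | smul c x _ hx =>
    obtain ⟨φ, rfl⟩ := hx
    refine ⟨c • φ, ?_⟩
    rw [Finsupp.sum_smul_index', Finsupp.smul_sum]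
    · refine Finset.sum_congr rfl fun h _ => ?_
      show c • (fn G X (φ h) * u G X h) = fn G X (c • φ h) * u G X h
      rw [fn_smul, smul_mul_assoc]
    · intro h
      have h0 : fn G X (0 : C(X, ℂ)) = 0 := by
        have := fn_smul (G := G) (X := X) (0 : ℂ) (0 : C(X, ℂ))
        simpa using this
      rw [h0, zero_mul]

private theorem cexp_sum (φ : G →₀ C(X, ℂ)) (x : X) :
    cexp G X (φ.sum fun h f => fn G X f * u G X h) x = φ 1 x := by
  classical
  let E : Red G X →+ ℂ := AddMonoidHom.mk' (fun b => cexp G X b x) (fun a b => cexp_add a b x)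
  have h1 : cexp G X (φ.sum fun h f => fn G X f * u G X h) x =
      E (φ.sum fun h f => fn G X f * u G X h) := rfl
  rw [h1, Finsupp.sum, map_sum]
  have h2 : ∀ h ∈ φ.support, E (fn G X (φ h) * u G X h) = if h = 1 then φ 1 x else 0 := by
    intro h _
    by_cases hh : h = 1
    · subst hh
      rw [if_pos rfl, u_one, mul_one]
      exact cexp_fn _ _
    · rw [if_neg hh]
      exact cexp_fn_mul_u _ _ hh _
  rw [Finset.sum_congr rfl h2, Finset.sum_ite_eq']
  split_ifs with h
  · rfl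
  · rw [Finsupp.notMem_support_iff.1 h]
    rfl

private theorem compress (φ : G →₀ C(X, ℂ)) (K : C(X, ℂ))
    (hK : ∀ h ∈ φ.support, h ≠ 1 → K * transl h K = 0) :
    fn G X K * (φ.sum fun h f => fn G X f * u G X h) * fn G X K = fn G X (K ^ 2 * φ 1) := by
  classical
  let L : Red G X →+ Red G X := AddMonoidHom.mk' (fun b => fn G X K * b * fn G X K)
    (fun a b => by rw [mul_add, add_mul])
  have hL : fn G X K * (φ.sum fun h f => fn G X f * u G X h) * fn G X K =
      L (φ.sum fun h f => fn G X f * u G X h) := rfl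
  rw [hL, Finsupp.sum, map_sum]
  have h0 : fn G X (0 : C(X, ℂ)) = 0 := by
    have := fn_smul (G := G) (X := X) (0 : ℂ) (0 : C(X, ℂ))
    simpa using this
  have h2 : ∀ h ∈ φ.support, L (fn G X (φ h) * u G X h) =
      if h = 1 then fn G X (K ^ 2 * φ 1) else 0 := by
    intro h hh
    show fn G X K * (fn G X (φ h) * u G X h) * fn G X K = _
    have h3 : fn G X K * (fn G X (φ h) * u G X h) * fn G X K =
        fn G X (φ h * (K * transl h K)) * u G X h := by
      calc fn G X K * (fn G X (φ h) * u G X h) * fn G X K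
          = fn G X K * fn G X (φ h) * (u G X h * fn G X K) := by simp only [mul_assoc]
        _ = fn G X K * fn G X (φ h) * fn G X (transl h K) * u G X h := by
          rw [u_mul_fn]; simp only [mul_assoc]
        _ = _ := by
          rw [← fn_mul, ← fn_mul]
          congr 2
          ring
    rw [h3]
    by_cases h1 : h = 1
    · subst h1
      rw [if_pos rfl, u_one, mul_one]
      have h4 : transl (1 : G) K = K := by
        ext x
        simp
      rw [h4]
      congr 1
      ring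
    · rw [if_neg h1, hK h hh h1, mul_zero, h0, zero_mul]
  rw [Finset.sum_congr rfl h2, Finset.sum_ite_eq']
  split_ifs with h
  · rfl
  · rw [Finsupp.notMem_support_iff.1 h, mul_zero, h0]

private theorem exists_cut (F : Finset G) (x0 : X) (hx0 : x0 ∈ FreePts G X) :
    ∃ k : C(X, ℝ), (∀ x, k x ∈ Set.Icc (0 : ℝ) 1) ∧ k x0 = 1 ∧
      ∀ h ∈ F, h ≠ 1 → ∀ x, k x * k (h⁻¹ • x) = 0 := by
  classical
  have hV : ∀ h : G, ∃ V : Set X, IsOpen V ∧ x0 ∈ V ∧ (h ≠ 1 → ∀ x ∈ V, h⁻¹ • x ∉ V) := by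
    intro h
    by_cases hh : h = 1
    · exact ⟨Set.univ, isOpen_univ, Set.mem_univ _, fun h' => absurd hh h'⟩
    · have hne : x0 ≠ h⁻¹ • x0 := by
        intro he
        have := hx0 h⁻¹ he.symm
        exact hh (inv_eq_one.1 this)
      obtain ⟨U1, U2, hU1, hU2, hx1, hx2, hd⟩ := t2_separation hne
      refine ⟨U1 ∩ (fun x => h⁻¹ • x) ⁻¹' U2, hU1.inter (hU2.preimage (continuous_const_smul _)),
        ⟨hx1, hx2⟩, ?_⟩
      rintro _ x ⟨_, hx⟩ ⟨hx', _⟩
      exact Set.disjoint_left.1 hd hx' hx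
  choose V hVo hVx hVd using hV
  have hW : IsOpen (⋂ h ∈ F, V h) := isOpen_biInter_finset fun h _ => hVo h
  have hxW : x0 ∈ ⋂ h ∈ F, V h := Set.mem_iInter₂.2 fun h _ => hVx h
  obtain ⟨k, hk0, hk1, hk⟩ := exists_continuous_zero_one_of_isClosed
    (s := (⋂ h ∈ F, V h)ᶜ) (t := {x0}) hW.isClosed_compl isClosed_singleton
    (Set.disjoint_singleton_right.2 (fun hh => hh hxW))
  refine ⟨k, hk, hk1 rfl, ?_⟩
  intro h hh h1 x
  by_cases hx : x ∈ ⋂ h ∈ F, V h
  · have hx' : h⁻¹ • x ∈ (⋂ h ∈ F, V h)ᶜ := by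
      intro hx'
      exact hVd h h1 x (Set.mem_iInter₂.1 hx h hh) (Set.mem_iInter₂.1 hx' h hh)
    rw [hk0 hx']
    simp
  · rw [hk0 (show x ∈ (⋂ h ∈ F, V h)ᶜ from hx)]
    simp

private theorem pow_sub_mem (J : TwoSidedIdeal (Red G X)) (D j : Red G X) (hj : j ∈ J) (n : ℕ) :
    D ^ n - (D - j) ^ n ∈ J := by
  induction n with
  | zero => simpa using J.zero_mem
  | succ n ih =>
    have h1 : D ^ (n + 1) - (D - j) ^ (n + 1) = (D ^ n - (D - j) ^ n) * D + (D - j) ^ n * j := by
      rw [pow_succ, pow_succ]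
      noncomm_ring
    rw [h1]
    exact J.add_mem (J.mul_mem_right _ _ ih) (J.mul_mem_left _ _ hj)

theorem simpA (hfree : Dense (FreePts G X)) (J : TwoSidedIdeal (Red G X)) (hJ : J ≠ ⊥) :
    ∃ h : C(X, ℝ), (∀ x, 0 ≤ h x) ∧ (∃ x, 0 < h x) ∧
      fn G X ((⟨Complex.ofReal, Complex.continuous_ofReal⟩ : C(ℝ, ℂ)).comp h) ∈
        closure (J : Set (Red G X)) := by
  classical
  set oR : C(ℝ, ℂ) := ⟨Complex.ofReal, Complex.continuous_ofReal⟩ with hoR
  obtain ⟨b, hbJ, hb0⟩ : ∃ b ∈ J, b ≠ 0 := by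
    by_contra hcon
    push Not at hcon
    apply hJ
    apply TwoSidedIdeal.ext
    intro x
    rw [TwoSidedIdeal.mem_bot]
    exact ⟨hcon x, fun h => h ▸ J.zero_mem⟩
  set a : Red G X := star b * b with ha
  have haJ : a ∈ J := J.mul_mem_left _ _ hbJ
  obtain ⟨x1, hx1⟩ : ∃ x, cexp G X a x ≠ 0 := by
    by_contra hcon
    push Not at hcon
    exact hb0 (cexp_faithful b hcon)
  obtain ⟨x0, hx0, hfx0⟩ := hfree.exists_mem_open
    (U := {x | cexp G X a x ≠ 0}) ((continuous_cexp a).isOpen_preimage {0}ᶜ isOpen_compl_singleton)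
    ⟨x1, hx1⟩
  -- the value `c`
  set c : ℝ := ‖ev G X x0 b (δ 1)‖ ^ 2 with hc
  have hcx0 : cexp G X a x0 = (c : ℂ) := cexp_star_mul b x0
  have hcpos : 0 < c := by
    have h0 : 0 ≤ c := by positivity
    rcases h0.eq_or_lt with h | h
    · exfalso
      apply hfx0
      rw [hcx0, ← h]
      simp
    · exact h
  -- approximation
  obtain ⟨a', ha'1, ha'2⟩ := (span_dense (G := G) (X := X)).exists_dist_lt a
    (show 0 < c / 8 by positivity)
  obtain ⟨φ, rfl⟩ := exists_finsupp ha'1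
  obtain ⟨k, hk01, hk1, hk⟩ := exists_cut φ.support x0 hx0
  set K : C(X, ℂ) := oR.comp k with hK
  have hKx : ∀ x, K x = (k x : ℂ) := fun x => rfl
  have hKK : ∀ h ∈ φ.support, h ≠ 1 → K * transl h K = 0 := by
    intro h hh h1
    ext x
    show K x * K (h⁻¹ • x) = 0
    rw [hKx, hKx, ← Complex.ofReal_mul, hk h hh h1 x, Complex.ofReal_zero]
  have hKnorm : ‖K‖ ≤ 1 := by
    rw [ContinuousMap.norm_le _ zero_le_one]
    intro x
    rw [hKx, Complex.norm_real, Real.norm_eq_abs, abs_of_nonneg (hk01 x).1]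
    exact (hk01 x).2
  have hfnK : ‖fn G X K‖ ≤ 1 := (norm_fn_le K).trans hKnorm
  have hdist : ‖a - φ.sum fun h f => fn G X f * u G X h‖ ≤ c / 8 := by
    rw [← dist_eq_norm]
    exact ha'2.le
  -- real functions
  set r : C(X, ℝ) := ⟨fun x => (cexp G X a x).re, Complex.continuous_re.comp (continuous_cexp a)⟩
    with hr
  have hrc : ∀ x, (r x : ℂ) = cexp G X a x := by
    intro x
    show (((cexp G X a x).re : ℝ) : ℂ) = _
    rw [ha, cexp_star_mul b x, Complex.ofReal_re]
  have hr0 : ∀ x, 0 ≤ r x := by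
    intro x
    show 0 ≤ (cexp G X a x).re
    rw [ha, cexp_star_mul b x, Complex.ofReal_re]
    positivity
  have hrx0 : r x0 = c := by
    show (cexp G X a x0).re = c
    rw [hcx0, Complex.ofReal_re]
  set f : C(X, ℝ) := k ^ 2 * r with hf
  have hfx0' : f x0 = c := by
    show k x0 ^ 2 * r x0 = c
    rw [hk1, hrx0]
    ring
  set D : Red G X := fn G X (oR.comp f) with hD
  set j : Red G X := fn G X K * a * fn G X K with hj
  have hjJ : j ∈ J := J.mul_mem_right _ _ (J.mul_mem_left _ _ haJ)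
  have hDj : ‖D - j‖ ≤ c / 4 := by
    have e1 : D - j = fn G X (oR.comp f - K ^ 2 * φ 1) -
        fn G X K * (a - φ.sum fun h f => fn G X f * u G X h) * fn G X K := by
      rw [fn_sub, ← compress φ K hKK, mul_sub, sub_mul]
      rw [hD, hj]
      abel
    have n1 : ‖fn G X (oR.comp f - K ^ 2 * φ 1)‖ ≤ c / 8 := by
      refine (norm_fn_le _).trans ?_
      rw [ContinuousMap.norm_le _ (by positivity)]
      intro x
      have e2 : (oR.comp f - K ^ 2 * φ 1) x =
          (k x : ℂ) ^ 2 * cexp G X (a - φ.sum fun h f => fn G X f * u G X h) x := by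
        rw [cexp_sub, cexp_sum, ← hrc]
        show ((k x ^ 2 * r x : ℝ) : ℂ) - (k x : ℂ) ^ 2 * φ 1 x = _
        push_cast
        ring
      rw [e2, norm_mul, norm_pow, Complex.norm_real, Real.norm_eq_abs,
        abs_of_nonneg (hk01 x).1]
      have h3 : k x ^ 2 ≤ 1 := pow_le_one₀ (hk01 x).1 (hk01 x).2
      calc k x ^ 2 * ‖cexp G X (a - φ.sum fun h f => fn G X f * u G X h) x‖
          ≤ 1 * (c / 8) := mul_le_mul h3 ((norm_cexp_le _ x).trans hdist) (norm_nonneg _)
            zero_le_one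
        _ = c / 8 := one_mul _
    have n2 : ‖fn G X K * (a - φ.sum fun h f => fn G X f * u G X h) * fn G X K‖ ≤ c / 8 := by
      calc ‖fn G X K * (a - φ.sum fun h f => fn G X f * u G X h) * fn G X K‖
          ≤ ‖fn G X K * (a - φ.sum fun h f => fn G X f * u G X h)‖ * ‖fn G X K‖ := norm_mul_le _ _
        _ ≤ (‖fn G X K‖ * ‖a - φ.sum fun h f => fn G X f * u G X h‖) * ‖fn G X K‖ :=
            mul_le_mul_of_nonneg_right (norm_mul_le _ _) (norm_nonneg _)
        _ ≤ (1 * (c / 8)) * 1 := by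
            apply mul_le_mul _ hfnK (norm_nonneg _) (by positivity)
            exact mul_le_mul hfnK hdist (norm_nonneg _) zero_le_one
        _ = c / 8 := by ring
    rw [e1]
    calc _ ≤ _ := norm_sub_le _ _
      _ ≤ c / 8 + c / 8 := add_le_add n1 n2
      _ = c / 4 := by ring
  -- the cut off function
  set hh : C(X, ℝ) := ⟨fun x => max (f x - c / 2) 0, by fun_prop⟩ with hhh
  have hhx : ∀ x, hh x = max (f x - c / 2) 0 := fun x => rfl
  have hc2 : 0 < c / 2 := by positivity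
  set g : C(X, ℝ) := ⟨fun x => (max (f x) (c / 2))⁻¹, by
    apply Continuous.inv₀ (by fun_prop)
    intro x
    exact (lt_of_lt_of_le hc2 (le_max_right _ _)).ne'⟩ with hg
  have hgx : ∀ x, g x = (max (f x) (c / 2))⁻¹ := fun x => rfl
  refine ⟨hh, fun x => le_max_right _ _, ⟨x0, ?_⟩, ?_⟩
  · rw [hhx, hfx0']
    apply lt_max_of_lt_left
    linarith
  · rw [Metric.mem_closure_iff]
    intro ε hε
    obtain ⟨n, hn⟩ := exists_pow_lt_of_lt_one
      (show (0 : ℝ) < ε / (‖hh‖ + 1) by positivity) (show (1 / 2 : ℝ) < 1 by norm_num)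
    have hkey : oR.comp hh = oR.comp (hh * g ^ (n + 1)) * (oR.comp f) ^ (n + 1) := by
      ext x
      show ((hh x : ℝ) : ℂ) = ((hh x * g x ^ (n + 1) : ℝ) : ℂ) * ((f x : ℝ) : ℂ) ^ (n + 1)
      rw [← Complex.ofReal_pow, ← Complex.ofReal_mul]
      congr 1
      rw [mul_assoc, ← mul_pow]
      rcases le_total (f x) (c / 2) with hle | hle
      · have : hh x = 0 := by
          rw [hhx]
          exact max_eq_right (by linarith)
        rw [this, zero_mul]
      · have : g x * f x = 1 := by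
          rw [hgx, max_eq_left hle]
          exact inv_mul_cancel₀ (by linarith)
        rw [this, one_pow, mul_one]
    have hfnpow : ∀ m : ℕ, fn G X ((oR.comp f) ^ m) = D ^ m := by
      intro m
      induction m with
      | zero => rw [pow_zero, pow_zero, fn_one]
      | succ m ih => rw [pow_succ, pow_succ, fn_mul, ih]
    refine ⟨fn G X (oR.comp (hh * g ^ (n + 1))) * (D ^ (n + 1) - (D - j) ^ (n + 1)),
      J.mul_mem_left _ _ (pow_sub_mem J D j hjJ _), ?_⟩
    rw [dist_eq_norm, hkey, fn_mul, hfnpow, ← mul_sub, sub_sub_cancel]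
    have n1 : ‖fn G X (oR.comp (hh * g ^ (n + 1)))‖ ≤ ‖hh‖ * (2 / c) ^ (n + 1) := by
      refine (norm_fn_le _).trans ?_
      rw [ContinuousMap.norm_le _ (by positivity)]
      intro x
      show ‖((hh x * g x ^ (n + 1) : ℝ) : ℂ)‖ ≤ _
      rw [Complex.norm_real, norm_mul, norm_pow]
      have g1 : ‖g x‖ ≤ 2 / c := by
        rw [hgx, Real.norm_eq_abs, abs_of_nonneg (by positivity)]
        rw [show (2 / c : ℝ) = (c / 2)⁻¹ by rw [inv_div]]
        exact inv_anti₀ hc2 (le_max_right _ _)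
      exact mul_le_mul (hh.norm_coe_le_norm x) (pow_le_pow_left₀ (norm_nonneg _) g1 _)
        (by positivity) (norm_nonneg _)
    have n2 : ‖(D - j) ^ (n + 1)‖ ≤ (c / 4) ^ (n + 1) :=
      (norm_pow_le' _ (Nat.succ_pos n)).trans (pow_le_pow_left₀ (norm_nonneg _) hDj _)
    calc ‖fn G X (oR.comp (hh * g ^ (n + 1))) * (D - j) ^ (n + 1)‖
        ≤ ‖fn G X (oR.comp (hh * g ^ (n + 1)))‖ * ‖(D - j) ^ (n + 1)‖ := norm_mul_le _ _
      _ ≤ (‖hh‖ * (2 / c) ^ (n + 1)) * (c / 4) ^ (n + 1) :=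
          mul_le_mul n1 n2 (norm_nonneg _) (by positivity)
      _ = ‖hh‖ * (1 / 2) ^ (n + 1) := by
          rw [mul_assoc, ← mul_pow]
          congr 2
          field_simp
          norm_num
      _ ≤ (‖hh‖ + 1) * (1 / 2) ^ n := by
          apply mul_le_mul (by linarith) _ (by positivity) (by positivity)
          exact pow_le_pow_of_le_one (by norm_num) (by norm_num) (Nat.le_succ n)
      _ < (‖hh‖ + 1) * (ε / (‖hh‖ + 1)) := mul_lt_mul_of_pos_left hn (by positivity)
      _ = ε := by field_simp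

end

end MBS
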