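import Pool.Agent.MBS.StateDef

/-!
# Units : the matrix units of blocks of tensor factors

Everything by induction on `m` (the recursion in `MU.E`), with `M.comm`.
Splitting functions `Fin (m + 1) → Bool` : `Fin.snoc` / `Fin.snocEquiv`/`Fin.consEquiv`-type
equivalence with `(Fin m → Bool) × Bool`, a function is determined by its restriction to
`castSucc` and its value at `last`.
-/

namespace MBS

open scoped InnerProductSpace ENNReal ComplexOrder

noncomputable section

variable {A : Type} [CStarAlgebra A] (M : MU A)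

/-- An element commuting with all `e k i j`, `n ≤ k < n + m`, commutes with `E n m s t`.
Induction on `m`. -/
theorem E_commute (n m : ℕ) (s t : Wd m) (c : A)
    (hc : ∀ k, n ≤ k → k < n + m → ∀ i j, M.e k i j * c = c * M.e k i j) :
    M.E n m s t * c = c * M.E n m s t := by
  induction m with
  | zero => simp only [MU.E, one_mul, mul_one]
  | succ m ih =>
    simp only [MU.E]
    rw [mul_assoc, hc (n + m) (by omega) (by omega), ← mul_assoc,
      ih _ _ (fun k h1 h2 => hc k h1 (by omega)), mul_assoc]

/-- the block `n, ..., n + m - 1` commutes with the factors `k < n` (or `k ≥ n + m`). -/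
theorem E_comm_e (n m : ℕ) (s t : Wd m) (k : ℕ) (hk : k < n ∨ n + m ≤ k) (i j : Bool) :
    M.E n m s t * M.e k i j = M.e k i j * M.E n m s t := by
  refine E_commute M n m s t _ fun k' h1 h2 i' j' => M.comm k' k ?_ i' j' i j
  omega

theorem E_mul (n m : ℕ) (s t s' t' : Wd m) :
    M.E n m s t * M.E n m s' t' = if t = s' then M.E n m s t' else 0 := by
  induction m with
  | zero =>
    rw [if_pos (Subsingleton.elim t s')]
    simp only [MU.E, one_mul]
  | succ m ih =>
    have h1 : M.e (n + m) (s (Fin.last m)) (t (Fin.last m)) *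
        M.E n m (fun i => s' i.castSucc) (fun i => t' i.castSucc) =
        M.E n m (fun i => s' i.castSucc) (fun i => t' i.castSucc) *
        M.e (n + m) (s (Fin.last m)) (t (Fin.last m)) :=
      (E_comm_e M n m _ _ (n + m) (Or.inr le_rfl) _ _).symm
    have h2 : M.E n (m + 1) s t * M.E n (m + 1) s' t' =
        (M.E n m (fun i => s i.castSucc) (fun i => t i.castSucc) *
          M.E n m (fun i => s' i.castSucc) (fun i => t' i.castSucc)) *
        (M.e (n + m) (s (Fin.last m)) (t (Fin.last m)) *
          M.e (n + m) (s' (Fin.last m)) (t' (Fin.last m))) := by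
      simp only [MU.E]
      rw [mul_assoc, ← mul_assoc (M.e (n + m) (s (Fin.last m)) (t (Fin.last m))), h1]
      simp only [mul_assoc]
    rw [h2, ih, M.mul_same]
    by_cases h : t = s'
    · subst h
      rw [if_pos rfl, if_pos rfl, if_pos rfl]
      rfl
    · rw [if_neg h]
      by_cases h3 : (fun i : Fin m => t i.castSucc) = (fun i : Fin m => s' i.castSucc)
      · have h4 : t (Fin.last m) ≠ s' (Fin.last m) := by
          intro h5
          apply h
          funext i
          refine Fin.lastCases h5 (fun j => ?_) i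
          exact congrFun h3 j
        rw [if_neg h4, mul_zero]
      · rw [if_neg h3, zero_mul]

theorem star_E (n m : ℕ) (s t : Wd m) : star (M.E n m s t) = M.E n m t s := by
  induction m with
  | zero => simp only [MU.E, star_one]
  | succ m ih =>
    simp only [MU.E]
    rw [star_mul, ih, M.star_e, E_comm_e M n m _ _ (n + m) (Or.inr le_rfl)]

/-- Splitting a sum over words of length `m + 1` into the word of length `m` and the last
letter. -/
theorem sum_Wd_succ {β : Type*} [AddCommMonoid β] (m : ℕ) (f : Wd (m + 1) → β) :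
    ∑ s, f s = ∑ s : Wd m, ∑ b : Bool, f (Fin.snoc (α := fun _ => Bool) s b) := by
  rw [← (Fin.snocEquiv (fun _ : Fin (m + 1) => Bool)).sum_comp, Fintype.sum_prod_type,
    Finset.sum_comm]
  rfl

theorem E_snoc (n m : ℕ) (s t : Wd m) (a b : Bool) :
    M.E n (m + 1) (Fin.snoc (α := fun _ => Bool) s a) (Fin.snoc (α := fun _ => Bool) t b) =
      M.E n m s t * M.e (n + m) a b := by
  simp only [MU.E, Fin.snoc_castSucc, Fin.snoc_last]

theorem mat_succ (n m : ℕ) (c : Matrix (Wd (m + 1)) (Wd (m + 1)) ℂ) :
    M.mat n (m + 1) c = ∑ s : Wd m, ∑ a : Bool, ∑ t : Wd m, ∑ b : Bool,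
      c (Fin.snoc (α := fun _ => Bool) s a) (Fin.snoc (α := fun _ => Bool) t b) •
        (M.E n m s t * M.e (n + m) a b) := by
  simp only [MU.mat, sum_Wd_succ, E_snoc]

theorem sum_E (n m : ℕ) : ∑ s, M.E n m s s = 1 := by
  induction m with
  | zero => simp only [MU.E, Finset.univ_unique, Finset.sum_const, Finset.card_singleton, one_smul]
  | succ m ih =>
    rw [sum_Wd_succ]
    simp only [E_snoc]
    have h1 : ∀ s : Wd m, ∑ b : Bool, M.E n m s s * M.e (n + m) b b = M.E n m s s := by
      intro s
      rw [← Finset.mul_sum, Fintype.sum_bool, add_comm, M.sum_one, mul_one]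
    rw [Finset.sum_congr rfl (fun s _ => h1 s), ih]

/-- Every `e k i j` of the block is a sum of matrix units of the block. Induction on `m`:
for `k < n + m` use that `e k i j = e k i j * (e (n+m) 0 0 + e (n+m) 1 1)`, for `k = n + m` use
`e k i j = (∑ s, E n m s s) * e k i j`. -/
theorem e_eq_mat (n m k : ℕ) (h1 : n ≤ k) (h2 : k < n + m) (i j : Bool) :
    ∃ c : Matrix (Wd m) (Wd m) ℂ, M.e k i j = M.mat n m c := by
  induction m with
  | zero => omega
  | succ m ih =>
    by_cases hk : k < n + m
    · obtain ⟨c, hc⟩ := ih hk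
      refine ⟨Matrix.of fun s t => if s (Fin.last m) = t (Fin.last m) then
        c (fun i => s i.castSucc) (fun i => t i.castSucc) else 0, ?_⟩
      rw [mat_succ, hc]
      simp only [Matrix.of_apply, Fin.snoc_castSucc, Fin.snoc_last]
      have h3 : ∀ s : Wd m, ∑ a : Bool, ∑ t : Wd m, ∑ b : Bool,
          (if a = b then c s t else 0) • (M.E n m s t * M.e (n + m) a b) =
          ∑ t : Wd m, c s t • M.E n m s t := by
        intro s
        rw [Finset.sum_comm]
        refine Finset.sum_congr rfl fun t _ => ?_
        simp only [Fintype.sum_bool]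
        simp only [if_true, reduceCtorEq, if_false, zero_smul, add_zero, zero_add]
        rw [← smul_add, ← mul_add, add_comm (M.e (n + m) true true), M.sum_one, mul_one]
      exact (Finset.sum_congr rfl fun s _ => (h3 s).symm)
    · have hk' : k = n + m := by omega
      subst hk'
      refine ⟨Matrix.of fun s t =>
        if (fun i : Fin m => s i.castSucc) = (fun i : Fin m => t i.castSucc) ∧
        s (Fin.last m) = i ∧ t (Fin.last m) = j then 1 else 0, ?_⟩
      rw [mat_succ]
      simp only [Matrix.of_apply, Fin.snoc_castSucc, Fin.snoc_last]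
      have h3 : ∀ s : Wd m, ∑ a : Bool, ∑ t : Wd m, ∑ b : Bool,
          (if (fun i : Fin m => s i) = (fun i : Fin m => t i) ∧ a = i ∧ b = j then (1 : ℂ) else 0) •
            (M.E n m s t * M.e (n + m) a b) = M.E n m s s * M.e (n + m) i j := by
        intro s
        rw [Finset.sum_eq_single i]
        · rw [Finset.sum_eq_single s]
          · rw [Finset.sum_eq_single j]
            · rw [if_pos ⟨rfl, rfl, rfl⟩, one_smul]
            · intro b _ hb
              rw [if_neg (fun h => hb h.2.2), zero_smul]
            · intro h; exact absurd (Finset.mem_univ _) h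
          · intro t _ ht
            refine Finset.sum_eq_zero fun b _ => ?_
            rw [if_neg (fun h => ht h.1.symm), zero_smul]
          · intro h; exact absurd (Finset.mem_univ _) h
        · intro a _ ha
          refine Finset.sum_eq_zero fun t _ => Finset.sum_eq_zero fun b _ => ?_
          rw [if_neg (fun h => ha h.2.1), zero_smul]
        · intro h; exact absurd (Finset.mem_univ _) h
      rw [Finset.sum_congr rfl (fun s _ => h3 s), ← Finset.sum_mul, sum_E, one_mul]

theorem mat_mul (n m : ℕ) (c d : Matrix (Wd m) (Wd m) ℂ) :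
    M.mat n m (c * d) = M.mat n m c * M.mat n m d := by
  have h1 : M.mat n m c * M.mat n m d =
      ∑ s, ∑ t, ∑ s', ∑ t', (c s t * d s' t') • (if t = s' then M.E n m s t' else 0) := by
    simp only [MU.mat]
    rw [Finset.sum_mul]
    refine Finset.sum_congr rfl fun s _ => ?_
    rw [Finset.sum_mul]
    refine Finset.sum_congr rfl fun t _ => ?_
    rw [Finset.mul_sum]
    refine Finset.sum_congr rfl fun s' _ => ?_
    rw [Finset.mul_sum]
    refine Finset.sum_congr rfl fun t' _ => ?_
    rw [smul_mul_smul_comm, E_mul]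
  have h2 : ∀ s t, ∑ s', ∑ t', (c s t * d s' t') • (if t = s' then M.E n m s t' else 0) =
      ∑ t', (c s t * d t t') • M.E n m s t' := by
    intro s t
    rw [Finset.sum_eq_single t]
    · refine Finset.sum_congr rfl fun t' _ => ?_
      rw [if_pos rfl]
    · intro s' _ hs'
      refine Finset.sum_eq_zero fun t' _ => ?_
      rw [if_neg (Ne.symm hs'), smul_zero]
    · intro h; exact absurd (Finset.mem_univ _) h
  rw [h1]
  simp only [h2]
  simp only [MU.mat, Matrix.mul_apply, Finset.sum_smul]
  refine Finset.sum_congr rfl fun s _ => ?_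
  rw [Finset.sum_comm]

theorem mat_one (n m : ℕ) : M.mat n m 1 = 1 := by
  classical
  simp only [MU.mat, Matrix.one_apply, ite_smul, one_smul, zero_smul, Finset.sum_ite_eq,
    Finset.mem_univ, if_true]
  exact sum_E M n m

theorem mat_star (n m : ℕ) (c : Matrix (Wd m) (Wd m) ℂ) :
    M.mat n m c.conjTranspose = star (M.mat n m c) := by
  simp only [MU.mat, star_sum, star_smul, star_E, Matrix.conjTranspose_apply]
  rw [Finset.sum_comm]

/-- A Hermitian unitary matrix gives a contraction (in a nontrivial or trivial algebra):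
`u = mat s` has `star u * u = 1`, so `‖u‖ ^ 2 = ‖1‖ ≤ 1`. -/
theorem norm_mat_le (n m : ℕ) (s : Matrix (Wd m) (Wd m) ℂ) (hs : s.IsHermitian)
    (hs2 : s * s = 1) : ‖M.mat n m s‖ ≤ 1 := by
  have h1 : star (M.mat n m s) * M.mat n m s = 1 := by
    rw [← mat_star, ← mat_mul, hs.eq, hs2, mat_one]
  have h2 : ‖M.mat n m s‖ * ‖M.mat n m s‖ = ‖(1 : A)‖ := by
    rw [← CStarRing.norm_star_mul_self, h1]
  have h3 : ‖(1 : A)‖ ≤ 1 := by
    have h4 : ‖(1 : A)‖ * ‖(1 : A)‖ = ‖(1 : A)‖ := by
      rw [← CStarRing.norm_star_mul_self, star_one, one_mul]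
    nlinarith [norm_nonneg (1 : A), sq_nonneg (‖(1 : A)‖ - 1)]
  nlinarith [norm_nonneg (M.mat n m s)]

theorem mat_comm_e (n m : ℕ) (c : Matrix (Wd m) (Wd m) ℂ) (k : ℕ) (hk : k < n) (i j : Bool) :
    M.mat n m c * M.e k i j = M.e k i j * M.mat n m c := by
  simp only [MU.mat, Finset.sum_mul, Finset.mul_sum]
  refine Finset.sum_congr rfl fun s _ => Finset.sum_congr rfl fun t _ => ?_
  rw [smul_mul_assoc, mul_smul_comm, E_comm_e M n m s t k (Or.inl hk)]

end

end MBS
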