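import Pool.Agent.MBS.CubeDef

/-!
# Walsh : Walsh functions and Parseval's identity on the cube

`walsh S` is continuous, `|walsh S x| = 1`, `walsh S * walsh T = walsh (symmDiff S T)`,
`∫ walsh S = 0` for `S ≠ ∅` (Fubini on the finite cube). The family is orthonormal in
`L²(μc; ℝ)`. Its span is dense: it is a subalgebra of `C(Cube I, ℝ)` separating points
so uniformly dense in `C(Cube I, ℝ)`, which is dense in `L²`. So it is a Hilbert basis and
Parseval holds.
-/

namespace MBS

open scoped ENNReal
open MeasureTheory TopologicalSpace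

noncomputable section

variable {I : Type}

theorem walsh_continuous (S : Finset I) : Continuous (walsh S) := by
  unfold walsh
  refine continuous_finsetProd _ fun i _ => ?_
  exact (continuous_of_discreteTopology (f := fun b : Bool => if b then (-1 : ℝ) else 1)).comp
    (continuous_apply i)

theorem walsh_measurable [Countable I] (S : Finset I) : Measurable (walsh S) := by
  unfold walsh
  refine Finset.measurable_fun_prod _ fun i _ => ?_
  exact (measurable_of_countable (fun b : Bool => if b then (-1 : ℝ) else 1)).comp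
    (measurable_pi_apply i)

theorem abs_walsh (S : Finset I) (x : Cube I) : |walsh S x| = 1 := by
  unfold walsh
  rw [Finset.abs_prod]
  refine Finset.prod_eq_one fun i _ => ?_
  split_ifs <;> simp

theorem walsh_empty (x : Cube I) : walsh (∅ : Finset I) x = 1 := by
  simp [walsh]

theorem walsh_mul [DecidableEq I] (S T : Finset I) (x : Cube I) :
    walsh S x * walsh T x = walsh (symmDiff S T) x := by
  have h1 : ∀ A : Finset I, walsh A x =
      ∏ i ∈ S ∪ T ∪ A, (if i ∈ A then (if x i then (-1 : ℝ) else 1) else 1) := by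
    intro A
    unfold walsh
    rw [Finset.prod_ite_mem]
    congr 1
    ext i
    simp only [Finset.mem_inter, Finset.mem_union]
    tauto
  have h2 : S ∪ T ∪ symmDiff S T = S ∪ T := by
    ext i
    simp only [Finset.mem_union, Finset.mem_symmDiff]
    tauto
  have h3 : S ∪ T ∪ S = S ∪ T := by
    ext i
    simp only [Finset.mem_union]
    tauto
  have h4 : S ∪ T ∪ T = S ∪ T := by
    ext i
    simp only [Finset.mem_union]
    tauto
  rw [h1 S, h1 T, h1 (symmDiff S T), h2, h3, h4, ← Finset.prod_mul_distrib]
  refine Finset.prod_congr rfl fun i hi => ?_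
  simp only [Finset.mem_symmDiff]
  rcases Finset.mem_union.1 hi with h | h <;> by_cases hS : i ∈ S <;> by_cases hT : i ∈ T <;>
    simp_all

theorem walsh_sq (S : Finset I) (x : Cube I) : walsh S x * walsh S x = 1 := by
  have := abs_walsh S x
  rw [← abs_mul_abs_self, this, one_mul]

theorem integral_coin_sign : ∫ b, (if b then (-1 : ℝ) else 1) ∂coin = 0 := by
  unfold coin
  rw [integral_smul_measure, integral_add_measure]
  · simp
  · exact integrable_dirac (by simp)
  · exact integrable_dirac (by simp)

theorem integral_walsh [Countable I] (S : Finset I) (hS : S.Nonempty) :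
    ∫ x, walsh S x ∂(μc I) = 0 := by
  have h1 : ∀ x : Cube I, walsh S x =
      (fun y : ((i : S) → Bool) => ∏ i : S, (if y i then (-1 : ℝ) else 1)) (S.restrict x) := by
    intro x
    exact (Finset.prod_coe_sort S (fun i => (if x i then (-1 : ℝ) else 1))).symm
  simp_rw [h1]
  unfold μc
  rw [integral_restrict_infinitePi (μ := fun _ : I => coin)
    (f := fun y : ((i : S) → Bool) => ∏ i : S, (if y i then (-1 : ℝ) else 1))]
  · rw [integral_fintype_prod_eq_prod (fun (_ : S) (b : Bool) => (if b then (-1 : ℝ) else 1))]
    obtain ⟨i, hi⟩ := hS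
    refine Finset.prod_eq_zero (Finset.mem_univ (⟨i, hi⟩ : S)) ?_
    exact integral_coin_sign
  · refine Measurable.aestronglyMeasurable ?_
    refine Finset.measurable_fun_prod _ fun i _ => ?_
    exact (measurable_of_countable (fun b : Bool => if b then (-1 : ℝ) else 1)).comp
      (measurable_pi_apply i)

/-- the Walsh function as a continuous map -/
def walshC (S : Finset I) : C(Cube I, ℝ) := ⟨walsh S, walsh_continuous S⟩

/-- the subalgebra spanned by the Walsh functions -/
def walshAlg (I : Type) : Subalgebra ℝ C(Cube I, ℝ) :=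
  Algebra.adjoin ℝ (Set.range (walshC (I := I)))

theorem walshAlg_coe :
    Subalgebra.toSubmodule (walshAlg I) = Submodule.span ℝ (Set.range (walshC (I := I))) := by
  classical
  unfold walshAlg
  apply Algebra.adjoin_eq_span_of_subset
  refine Set.Subset.trans ?_ Submodule.subset_span
  intro x hx
  refine Submonoid.closure_induction (fun _ => id) ⟨∅, ?_⟩ ?_ hx
  · ext1 z; exact walsh_empty z
  · rintro - - - - ⟨m, rfl⟩ ⟨n, rfl⟩
    refine ⟨symmDiff m n, ?_⟩
    ext1 z
    exact (walsh_mul m n z).symm

theorem walshAlg_separates : (walshAlg I).SeparatesPoints := by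
  intro x y hxy
  obtain ⟨i, hi⟩ := Function.ne_iff.1 hxy
  refine ⟨_, ⟨walshC {i}, Algebra.subset_adjoin ⟨{i}, rfl⟩, rfl⟩, ?_⟩
  change walsh {i} x ≠ walsh {i} y
  unfold walsh
  simp only [Finset.prod_singleton]
  cases hx : x i <;> cases hy : y i <;> simp_all
  · norm_num
  · norm_num

theorem span_walsh_closure :
    (Submodule.span ℝ (Set.range (walshC (I := I)))).topologicalClosure = ⊤ := by
  rw [← walshAlg_coe]
  exact congr_arg (Subalgebra.toSubmodule ·)
    (ContinuousMap.subalgebra_topologicalClosure_eq_top_of_separatesPoints (walshAlg I)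
      walshAlg_separates)

/-- the Walsh function in `L²` -/
abbrev walshLp [Countable I] (S : Finset I) : Lp ℝ 2 (μc I) :=
  ContinuousMap.toLp (E := ℝ) 2 (μc I) ℝ (walshC S)

theorem span_walshLp_closure [Countable I] :
    (Submodule.span ℝ (Set.range (walshLp (I := I)))).topologicalClosure = ⊤ := by
  convert!
    (ContinuousMap.toLp_denseRange ℝ (μc I) ℝ (p := 2) (by simp)).topologicalClosure_map_submodule
      span_walsh_closure
  rw [Submodule.map_span]
  unfold walshLp
  rw [Set.range_comp']
  simp only [ContinuousLinearMap.coe_coe]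

theorem orthonormal_walshLp [Countable I] : Orthonormal ℝ (walshLp (I := I)) := by
  classical
  rw [orthonormal_iff_ite]
  intro S T
  rw [ContinuousMap.inner_toLp (μc I) (walshC S) (walshC T)]
  have h1 : ∀ x : Cube I, (walshC T) x * (starRingEnd ℝ) ((walshC S) x) =
      walsh (symmDiff T S) x := by
    intro x
    rw [← walsh_mul]
    simp [walshC]
  simp_rw [h1]
  split_ifs with h
  · subst h
    simp [walsh_empty]
  · refine integral_walsh _ ?_
    rw [Finset.nonempty_iff_ne_empty]
    intro h2
    exact h (symmDiff_eq_bot.1 h2).symm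

/-- Parseval's identity -/
theorem parseval [Countable I] (f : Cube I → ℝ) (hf : Measurable f) (C : ℝ)
    (hC : ∀ x, |f x| ≤ C) :
    HasSum (fun S : Finset I => (∫ x, f x * walsh S x ∂(μc I)) ^ 2) (∫ x, f x ^ 2 ∂(μc I)) := by
  have hmem : MemLp f 2 (μc I) := by
    refine MemLp.of_bound hf.aestronglyMeasurable C (Filter.Eventually.of_forall fun x => ?_)
    simpa [Real.norm_eq_abs] using hC x
  let b : HilbertBasis (Finset I) ℝ (Lp ℝ 2 (μc I)) :=
    HilbertBasis.mk orthonormal_walshLp span_walshLp_closure.ge
  have hb : ∀ S, b S = walshLp S := fun S => by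
    rw [HilbertBasis.coe_mk]
  have key := b.hasSum_inner_mul_inner hmem.toLp hmem.toLp
  have h1 : ∀ S : Finset I, inner ℝ (hmem.toLp) (b S) = ∫ x, f x * walsh S x ∂(μc I) := by
    intro S
    rw [hb, L2.inner_def]
    refine integral_congr_ae ?_
    filter_upwards [hmem.coeFn_toLp, ContinuousMap.coeFn_toLp (𝕜 := ℝ) (p := 2) (μc I) (walshC S)]
      with x hx1 hx2
    rw [hx1, hx2]
    simp [walshC, mul_comm]
  have h2 : inner ℝ (hmem.toLp) (hmem.toLp) = ∫ x, f x ^ 2 ∂(μc I) := by
    rw [L2.inner_def]
    refine integral_congr_ae ?_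
    filter_upwards [hmem.coeFn_toLp] with x hx1
    rw [hx1]
    simp [sq]
  rw [h2] at key
  have h3 : (fun S : Finset I => inner ℝ (hmem.toLp) (b S) * inner ℝ (b S) (hmem.toLp)) =
      fun S : Finset I => (∫ x, f x * walsh S x ∂(μc I)) ^ 2 := by
    funext S
    rw [real_inner_comm (hmem.toLp) (b S), h1]
    ring
  rwa [h3] at key

end

end MBS
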